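import Pool.Agent.H59.Hart.Ring

set_option autoImplicit false

open MeasureTheory Set Filter Topology
open scoped ENNReal NNReal

namespace H51.Hartogs

theorem cover {m n : ℤ} {Y : ℝ × ℝ → ℂ} (hY : ContDiffOn ℝ 1 Y om) {S T : Set (ℝ × ℝ)}
    (hS : MeasurableSet S) (h : om ⊆ S ∪ T) :
    ∫⁻ p, dA m n Y p ≤ (∫⁻ p, S.indicator (dA m n Y) p) + ∫⁻ p, T.indicator (dA m n Y) p := by
  rw [← lintegral_add_left ((measurable_dA hY).indicator hS)]
  apply lintegral_mono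
  intro p
  simp only
  by_cases hp : p ∈ om
  · rcases h hp with h1 | h1
    · rw [indicator_of_mem h1]; exact le_self_add
    · rw [indicator_of_mem h1]; exact le_add_self
  · rw [dA_zero hp]; exact zero_le

theorem cover3 {m n : ℤ} {Y : ℝ × ℝ → ℂ} (hY : ContDiffOn ℝ 1 Y om) {S T U : Set (ℝ × ℝ)}
    (hS : MeasurableSet S) (hT : MeasurableSet T) (h : om ⊆ S ∪ T ∪ U) :
    ∫⁻ p, dA m n Y p ≤ (∫⁻ p, S.indicator (dA m n Y) p) + (∫⁻ p, T.indicator (dA m n Y) p) +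
      ∫⁻ p, U.indicator (dA m n Y) p := by
  have hm2 : Measurable (fun p => S.indicator (dA m n Y) p + T.indicator (dA m n Y) p) :=
    ((measurable_dA hY).indicator hS).add ((measurable_dA hY).indicator hT)
  rw [← lintegral_add_left ((measurable_dA hY).indicator hS), ← lintegral_add_left hm2]
  apply lintegral_mono
  intro p
  simp only
  by_cases hp : p ∈ om
  · rcases h hp with (h1 | h1) | h1
    · rw [indicator_of_mem h1, add_assoc]; exact le_self_add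
    · rw [indicator_of_mem h1]; exact le_trans le_add_self le_self_add
    · rw [indicator_of_mem h1]; exact le_add_self
  · rw [dA_zero hp]; exact zero_le

theorem dE_sub {m n : ℤ} (Y : ℝ × ℝ → ℂ) (c : ℂ) : dE m n (fun p => Y p - c) = dE m n Y := by
  unfold dE
  simp only [fderiv_sub_const]

theorem scale_le {a : ℝ} (ha : 0 < a) {x y : ℝ≥0∞} (h : ENNReal.ofReal a * x ≤ y) :
    x ≤ ENNReal.ofReal a⁻¹ * y := by
  have h1 : ENNReal.ofReal a⁻¹ * ENNReal.ofReal a = 1 := by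
    rw [← ENNReal.ofReal_mul (inv_nonneg.2 ha.le), inv_mul_cancel₀ ha.ne', ENNReal.ofReal_one]
  calc x = ENNReal.ofReal a⁻¹ * (ENNReal.ofReal a * x) := by rw [← mul_assoc, h1, one_mul]
    _ ≤ _ := mul_le_mul' le_rfl h

theorem caseA {m n : ℤ} {Y : ℝ × ℝ → ℂ} (hY : ContDiffOn ℝ 1 Y om)
    (hm : m < 0) (hn : n < 0)
    (h1 : ∀ y : ℝ, 1 < y → y < 2 → Tendsto Y (𝓝[om] ((0 : ℝ), y)) (𝓝 0))
    (h2 : ∀ x : ℝ, 0 < x → x < 2 → Tendsto Y (𝓝[om] (x, (0 : ℝ))) (𝓝 0)) :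
    ∫⁻ p, dA m n Y p ≤ 1000 * ∫⁻ p, dE m n Y p := by
  have hc := cover (m := m) (n := n) hY meas_R1 (T := R2) (by
    intro p hp
    rcases hp.2.2.2 with h | h
    · exact Or.inl (Or.inl h)
    · exact Or.inr h)
  calc ∫⁻ p, dA m n Y p ≤ _ := hc
    _ ≤ 4 * (∫⁻ p, dE m n Y p) + 4 * ∫⁻ p, dE m n Y p := add_le_add (L1 hY hn h2) (L2 hY hm h1)
    _ = 8 * ∫⁻ p, dE m n Y p := by rw [← add_mul]; norm_num
    _ ≤ 1000 * ∫⁻ p, dE m n Y p := mul_le_mul' (by norm_num) le_rfl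

theorem caseB {m n : ℤ} {Y : ℝ × ℝ → ℂ} (hY : ContDiffOn ℝ 1 Y om)
    (hm : 0 ≤ m) (hn : n < 0)
    (h2 : ∀ x : ℝ, 0 < x → x < 2 → Tendsto Y (𝓝[om] (x, (0 : ℝ))) (𝓝 0)) :
    ∫⁻ p, dA m n Y p ≤ 1000 * ∫⁻ p, dE m n Y p := by
  have hc := cover3 (m := m) (n := n) hY meas_R1 meas_R3 (U := R5) (by
    intro p hp
    by_cases h : p ∈ R1
    · exact Or.inl (Or.inl h)
    by_cases h' : p ∈ R3
    · exact Or.inl (Or.inr h')
    right
    have h3 : ¬ (p.2 < p.1 ∨ 1 < p.1) := h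
    push Not at h3
    have h4 : ¬ (2 < p.1 ^ 2 + p.2 ^ 2) := h'
    push Not at h4
    refine ⟨?_, ?_, h3.2⟩
    · rcases hp.2.2.2 with h5 | h5
      · linarith [h3.1]
      · exact h5
    · nlinarith [sq_nonneg p.1])
  have e1 := L1 (m := m) hY hn h2
  have e3 := arc_estimate hY (Or.inl ⟨hn, hm, h2⟩)
  have e5 := scale_le (by norm_num) (L5 (n := n) hY hm)
  set E := ∫⁻ p, dE m n Y p
  calc ∫⁻ p, dA m n Y p ≤ _ := hc
    _ ≤ 4 * E + 16 * E + ENNReal.ofReal (2 / 5)⁻¹ * (2 * (4 * E) + 4 * E) := by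
        apply add_le_add (add_le_add e1 e3) (e5.trans _)
        gcongr
    _ ≤ 4 * E + 16 * E + 3 * (2 * (4 * E) + 4 * E) := by
        gcongr
        have : (3 : ℝ≥0∞) = ENNReal.ofReal 3 := by simp
        rw [this]
        apply ENNReal.ofReal_le_ofReal
        norm_num
    _ = 56 * E := by ring
    _ ≤ 1000 * E := mul_le_mul' (by norm_num) le_rfl

theorem caseC {m n : ℤ} {Y : ℝ × ℝ → ℂ} (hY : ContDiffOn ℝ 1 Y om)
    (hm : m < 0) (hn : 0 ≤ n)
    (h1 : ∀ y : ℝ, 1 < y → y < 2 → Tendsto Y (𝓝[om] ((0 : ℝ), y)) (𝓝 0))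
    (hfin : ∫⁻ p, dA m n Y p ≠ ∞) :
    ∫⁻ p, dA m n Y p ≤ 1000 * ∫⁻ p, dE m n Y p := by
  rcases le_or_gt (-1) (m + n) with hmn | hmn
  · have hc := cover (m := m) (n := n) hY meas_R3 (T := R6) (by
      intro p hp
      by_cases h' : p ∈ R3
      · exact Or.inl h'
      right
      have h4 : ¬ (2 < p.1 ^ 2 + p.2 ^ 2) := h'
      push Not at h4
      show p.1 ^ 2 + p.2 ^ 2 ≤ 9 / 4
      linarith)
    have e3 := arc_estimate hY (Or.inr ⟨hm, hn, h1⟩)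
    have e6 := scale_le (by norm_num) (L6 hY hmn)
    set E := ∫⁻ p, dE m n Y p
    calc ∫⁻ p, dA m n Y p ≤ _ := hc
      _ ≤ 16 * E + ENNReal.ofReal (1 / 2)⁻¹ * (4 * (16 * E) + 4 * E) := by
          apply add_le_add e3 (e6.trans _)
          gcongr
      _ = 16 * E + 2 * (4 * (16 * E) + 4 * E) := by
          congr 2
          have : (2 : ℝ≥0∞) = ENNReal.ofReal 2 := by simp
          rw [this]
          norm_num
      _ = 152 * E := by ring
      _ ≤ 1000 * E := mul_le_mul' (by norm_num) le_rfl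
  · have hc := cover (m := m) (n := n) hY meas_R2 (T := R7) (by
      intro p hp
      rcases hp.2.2.2 with h | h
      · exact Or.inr h
      · exact Or.inl h)
    calc ∫⁻ p, dA m n Y p ≤ _ := hc
      _ ≤ 4 * (∫⁻ p, dE m n Y p) + 4 * ∫⁻ p, dE m n Y p :=
          add_le_add (L2 hY hm h1) (L7 hY (by omega) hfin)
      _ = 8 * ∫⁻ p, dE m n Y p := by rw [← add_mul]; norm_num
      _ ≤ 1000 * ∫⁻ p, dE m n Y p := mul_le_mul' (by norm_num) le_rfl

theorem caseD {m n : ℤ} {Y : ℝ × ℝ → ℂ} (hY : ContDiffOn ℝ 1 Y om) (hYm : Measurable Y)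
    (hm : 0 ≤ m) (hn : 0 ≤ n) :
    ∃ c : ℂ, ∫⁻ p, dA m n (fun p => Y p - c) p ≤ 1000 * ∫⁻ p, dE m n Y p := by
  lift m to ℕ using hm
  lift n to ℕ using hn
  obtain ⟨c, hc⟩ := L8 m n hY hYm
  refine ⟨c, ?_⟩
  have hYc : ContDiffOn ℝ 1 (fun p => Y p - c) om := hY.sub contDiffOn_const
  have hcov := cover (m := m) (n := n) hYc meas_R3 (T := R6) (by
      intro p hp
      by_cases h' : p ∈ R3
      · exact Or.inl h'
      right
      have h4 : ¬ (2 < p.1 ^ 2 + p.2 ^ 2) := h'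
      push Not at h4
      show p.1 ^ 2 + p.2 ^ 2 ≤ 9 / 4
      linarith)
  have e6 := scale_le (by norm_num) (L6 (m := m) (n := n) hYc (by omega))
  rw [dE_sub] at e6
  set E := ∫⁻ p, dE m n Y p
  calc ∫⁻ p, dA m n (fun p => Y p - c) p ≤ _ := hcov
    _ ≤ 68 * E + ENNReal.ofReal (1 / 2)⁻¹ * (4 * (68 * E) + 4 * E) := by
        apply add_le_add hc (e6.trans _)
        gcongr
    _ = 68 * E + 2 * (4 * (68 * E) + 4 * E) := by
        congr 2
        have : (2 : ℝ≥0∞) = ENNReal.ofReal 2 := by simp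
        rw [this]
        norm_num
    _ = 620 * E := by ring
    _ ≤ 1000 * E := mul_le_mul' (by norm_num) le_rfl

theorem weighted_dA (m n : ℤ) (Y : ℝ × ℝ → ℂ) (hY : ContDiffOn ℝ 1 Y om)
    (h1 : m < 0 → ∀ y : ℝ, 1 < y → y < 2 → Tendsto Y (𝓝[om] ((0 : ℝ), y)) (𝓝 0))
    (h2 : n < 0 → ∀ x : ℝ, 0 < x → x < 2 → Tendsto Y (𝓝[om] (x, (0 : ℝ))) (𝓝 0))
    (hfin : ∫⁻ p, dA m n Y p ≠ ∞) :
    ∃ c : ℂ, (m < 0 ∨ n < 0 → c = 0) ∧
      ∫⁻ p, dA m n (fun p => Y p - c) p ≤ 1000 * ∫⁻ p, dE m n Y p := by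
  have h0 : (fun p => Y p - 0) = Y := by funext p; simp
  rcases lt_or_ge m 0 with hm | hm
  · rcases lt_or_ge n 0 with hn | hn
    · exact ⟨0, fun _ => rfl, by rw [h0]; exact caseA hY hm hn (h1 hm) (h2 hn)⟩
    · exact ⟨0, fun _ => rfl, by rw [h0]; exact caseC hY hm hn (h1 hm) hfin⟩
  · rcases lt_or_ge n 0 with hn | hn
    · exact ⟨0, fun _ => rfl, by rw [h0]; exact caseB hY hm hn (h2 hn)⟩
    · -- replace `Y` by a measurable function
      set Z : ℝ × ℝ → ℂ := om.indicator Y with hZ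
      have hZY : ∀ p ∈ om, Z p = Y p := fun p hp => indicator_of_mem hp _
      have hZc : ContDiffOn ℝ 1 Z om := hY.congr hZY
      have hZm : Measurable Z := by
        classical
        rw [hZ, ← Set.piecewise_eq_indicator]
        exact hY.continuousOn.measurable_piecewise continuousOn_const isOpen_om.measurableSet
      obtain ⟨c, hc⟩ := caseD (m := m) (n := n) hZc hZm hm hn
      refine ⟨c, fun h => by omega, ?_⟩
      have e1 : dA m n (fun p => Z p - c) = dA m n (fun p => Y p - c) := by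
        funext p
        by_cases hp : p ∈ om
        · rw [dA_eq hp, dA_eq hp, hZY p hp]
        · rw [dA_zero hp, dA_zero hp]
      have e2 : dE m n Z = dE m n Y := by
        funext p
        by_cases hp : p ∈ om
        · have h3 : Z =ᶠ[𝓝 p] Y := by
            filter_upwards [isOpen_om.mem_nhds hp] with q hq
            exact hZY q hq
          rw [dE_eq hp, dE_eq hp, h3.fderiv_eq]
        · unfold dE; rw [indicator_of_notMem hp, indicator_of_notMem hp]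
      rw [e1, e2] at hc
      exact hc

/-- **Piece W**: the weighted inequality, uniformly in `(m, n)`. -/
theorem weighted : ∃ C : ℝ≥0, ∀ (m n : ℤ) (Y : ℝ × ℝ → ℂ),
    ContDiffOn ℝ 1 Y om →
    (m < 0 → ∀ y : ℝ, 1 < y → y < 2 → Tendsto Y (𝓝[om] ((0 : ℝ), y)) (𝓝 0)) →
    (n < 0 → ∀ x : ℝ, 0 < x → x < 2 → Tendsto Y (𝓝[om] (x, (0 : ℝ))) (𝓝 0)) →
    ∫⁻ p in om, ENNReal.ofReal (‖Y p‖ ^ 2 * V m n p) ≠ ∞ →
    ∃ c : ℂ, (m < 0 ∨ n < 0 → c = 0) ∧
      ∫⁻ p in om, ENNReal.ofReal (‖Y p - c‖ ^ 2 * V m n p) ≤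
        C * ∫⁻ p in om, ENNReal.ofReal
          ((‖fderiv ℝ Y p (1, 0)‖ ^ 2 + ‖fderiv ℝ Y p (0, 1)‖ ^ 2) * V m n p) := by
  refine ⟨1000, ?_⟩
  intro m n Y hY h1 h2 hfin
  have hA : ∀ Z : ℝ × ℝ → ℂ, ∫⁻ p in om, ENNReal.ofReal (‖Z p‖ ^ 2 * V m n p) =
      ∫⁻ p, dA m n Z p := by
    intro Z
    unfold dA
    rw [← lintegral_indicator isOpen_om.measurableSet]
  have hE : ∫⁻ p in om, ENNReal.ofReal
          ((‖fderiv ℝ Y p (1, 0)‖ ^ 2 + ‖fderiv ℝ Y p (0, 1)‖ ^ 2) * V m n p) =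
      ∫⁻ p, dE m n Y p := by
    unfold dE
    rw [← lintegral_indicator isOpen_om.measurableSet]
  rw [hA] at hfin
  obtain ⟨c, hc, hle⟩ := weighted_dA m n Y hY h1 h2 hfin
  refine ⟨c, hc, ?_⟩
  rw [hA (fun p => Y p - c), hE]
  exact hle

end H51.Hartogs
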