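import Mathlib

/-!
Definitions for the Newton covering number, cubes and right pyramids over cubes.
-/

set_option autoImplicit false

open scoped Pointwise

namespace Pool.Agent.H59.Newton

/-- `Covers C N`: some `N` congruent copies of `C` (images of `C` under isometries of the whole
space) together contain `C + ε B` for some `ε > 0`, where `B` is the closed unit ball
(so `ε B` is the closed ball of radius `ε` about the origin). -/
def Covers {n : ℕ} (C : Set (EuclideanSpace ℝ (Fin n))) (N : ℕ) : Prop :=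
  ∃ f : Fin N → (EuclideanSpace ℝ (Fin n) ≃ᵢ EuclideanSpace ℝ (Fin n)), ∃ ε : ℝ, 0 < ε ∧
    C + Metric.closedBall (0 : EuclideanSpace ℝ (Fin n)) ε ⊆ ⋃ i, f i '' C

/-- The Newton covering number: the least `N` such that `N` congruent copies of `C` cover a
neighbourhood of `C`. -/
noncomputable def newtonNumber {n : ℕ} (C : Set (EuclideanSpace ℝ (Fin n))) : ℕ :=
  sInf {N | Covers C N}

/-- The unit cube `[0,1]^k`. -/
def cube (k : ℕ) : Set (EuclideanSpace ℝ (Fin k)) := {x | ∀ i, 0 ≤ x i ∧ x i ≤ 1}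

/-- The base `[0,1]^k × {0}` of the pyramid in `ℝ^(k+1)`. -/
def base (k : ℕ) : Set (EuclideanSpace ℝ (Fin (k + 1))) :=
  {x | (∀ i : Fin k, 0 ≤ x i.castSucc ∧ x i.castSucc ≤ 1) ∧ x (Fin.last k) = 0}

/-- The apex `(1/2, ..., 1/2, h)`. -/
noncomputable def apex (k : ℕ) (h : ℝ) : EuclideanSpace ℝ (Fin (k + 1)) :=
  WithLp.toLp 2 (fun i => if i = Fin.last k then h else 1 / 2)

/-- The right pyramid of height `h` over the unit cube `[0,1]^k`, a subset of `ℝ^(k+1)`. -/
noncomputable def pyramid (k : ℕ) (h : ℝ) : Set (EuclideanSpace ℝ (Fin (k + 1))) :=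
  convexHull ℝ (insert (apex k h) (base k))

end Pool.Agent.H59.Newton
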