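import Mathlib
import Pool.Agent.H59.NewtonDefs

set_option autoImplicit false

open scoped Pointwise

namespace Pool.Agent.H59.Newton

variable {n : ℕ}

/-- coordinates are bounded by the norm -/
theorem abs_coord_le (x : EuclideanSpace ℝ (Fin n)) (i : Fin n) : |x i| ≤ ‖x‖ := by
  have := EuclideanSpace.norm_eq x
  rw [this]
  apply Real.le_sqrt_of_sq_le
  have h1 : |x i| ^ 2 = ‖x i‖ ^ 2 := by rw [Real.norm_eq_abs]
  rw [h1]
  exact Finset.single_le_sum (f := fun j => ‖x j‖ ^ 2) (fun j _ => by positivity) (Finset.mem_univ i)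

theorem norm_le_sum (x : EuclideanSpace ℝ (Fin n)) : ‖x‖ ≤ ∑ i, |x i| := by
  rw [EuclideanSpace.norm_eq]
  apply Real.sqrt_le_iff.2
  refine ⟨Finset.sum_nonneg (fun _ _ => abs_nonneg _), ?_⟩
  have : ∑ i, ‖x i‖ ^ 2 = ∑ i, |x i| ^ 2 := by simp
  rw [this]
  exact Finset.sum_sq_le_sq_sum_of_nonneg (fun _ _ => abs_nonneg _)

/-- no single copy covers a neighbourhood -/
theorem not_covers_one {C : Set (EuclideanSpace ℝ (Fin (n + 1)))} (hb : Bornology.IsBounded C)
    (hne : C.Nonempty) (f : EuclideanSpace ℝ (Fin (n + 1)) ≃ᵢ EuclideanSpace ℝ (Fin (n + 1)))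
    (ε : ℝ) (hε : 0 < ε) :
    ¬ C + Metric.closedBall (0 : EuclideanSpace ℝ (Fin (n + 1))) ε ⊆ f '' C := by
  intro hsub
  set D := Metric.diam C with hD
  -- diameter of f '' C
  have hle : ∀ p ∈ C + Metric.closedBall (0 : EuclideanSpace ℝ (Fin (n + 1))) ε,
      ∀ q ∈ C + Metric.closedBall (0 : EuclideanSpace ℝ (Fin (n + 1))) ε, dist p q ≤ D := by
    intro p hp q hq
    obtain ⟨p', hp', rfl⟩ := hsub hp
    obtain ⟨q', hq', rfl⟩ := hsub hq
    rw [f.dist_eq]
    exact Metric.dist_le_diam_of_mem hb hp' hq'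
  have hsing : ∃ u : EuclideanSpace ℝ (Fin (n + 1)), ‖u‖ = 1 :=
    ⟨EuclideanSpace.single 0 1, by simp⟩
  obtain ⟨u, hu⟩ := hsing
  -- there are p q in C with dist > D - ε, or D = 0
  have key : ∀ p ∈ C, ∀ q ∈ C, dist p q + ε ≤ D := by
    intro p hp q hq
    by_cases hpq : p = q
    · subst hpq
      have h1 := hle (p + ε • u) (Set.add_mem_add hp (by simp [norm_smul, hu, abs_of_pos hε]))
        (p + 0) (Set.add_mem_add hp (by simp [hε.le]))
      have h2 : dist (p + ε • u) (p + 0) = ε := by
        rw [dist_eq_norm]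
        simp [norm_smul, hu, abs_of_pos hε]
      rw [h2] at h1
      simpa using h1
    · have hpos : 0 < ‖p - q‖ := norm_pos_iff.2 (sub_ne_zero.2 hpq)
      have h1 := hle (p + (ε / ‖p - q‖) • (p - q))
        (Set.add_mem_add hp (by
          rw [mem_closedBall_zero_iff, norm_smul, Real.norm_eq_abs, abs_of_pos (by positivity)]
          field_simp
          exact le_refl _))
        (q + 0) (Set.add_mem_add hq (by simp [hε.le]))
      have h2 : dist (p + (ε / ‖p - q‖) • (p - q)) (q + 0) = ‖p - q‖ + ε := by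
        rw [dist_eq_norm]
        have : p + (ε / ‖p - q‖) • (p - q) - (q + 0) = (1 + ε / ‖p - q‖) • (p - q) := by
          rw [add_smul, one_smul]; abel
        rw [this, norm_smul, Real.norm_eq_abs, abs_of_pos (by positivity)]
        field_simp
      rw [h2] at h1
      rw [dist_eq_norm]; exact h1
  have : D ≤ D - ε := by
    apply Metric.diam_le_of_forall_dist_le_of_nonempty hne
    intro p hp q hq
    have := key p hp q hq
    linarith
  linarith

theorem two_le_of_covers {C : Set (EuclideanSpace ℝ (Fin (n + 1)))} (hb : Bornology.IsBounded C)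
    (hne : C.Nonempty) {N : ℕ} (h : Covers C N) : 2 ≤ N := by
  obtain ⟨f, ε, hε, hsub⟩ := h
  rcases N with _ | _ | N
  · exfalso
    obtain ⟨p, hp⟩ := hne
    have : p + 0 ∈ C + Metric.closedBall (0 : EuclideanSpace ℝ (Fin (n + 1))) ε :=
      Set.add_mem_add hp (by simp [hε.le])
    have := hsub this
    simp at this
  · exfalso
    apply not_covers_one hb hne (f 0) ε hε
    intro x hx
    have := hsub hx
    simp only [Set.mem_iUnion] at this
    obtain ⟨i, hi⟩ := this
    have : i = 0 := by ext; omega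
    subst this
    exact hi
  · omega

/-- a compact set with nonempty interior admits some covering of a neighbourhood -/
theorem exists_covers {C : Set (EuclideanSpace ℝ (Fin n))} (hc : IsCompact C)
    (hi : (interior C).Nonempty) : ∃ N, Covers C N := by
  obtain ⟨c, hc'⟩ := hi
  have hcomp : IsCompact (C + Metric.closedBall (0 : EuclideanSpace ℝ (Fin n)) 1) :=
    hc.add (isCompact_closedBall _ _)
  obtain ⟨t, ht⟩ := hcomp.elim_finite_subcover
    (fun v : EuclideanSpace ℝ (Fin n) => (fun x => x - v) ⁻¹' (interior C))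
    (fun v => isOpen_interior.preimage (by fun_prop))
    (by
      intro x _
      simp only [Set.mem_iUnion, Set.mem_preimage]
      exact ⟨x - c, by simpa using hc'⟩)
  refine ⟨t.card, fun i => IsometryEquiv.addRight ((t.equivFin.symm i : t) : EuclideanSpace ℝ (Fin n)),
    1, one_pos, ?_⟩
  intro x hx
  have := ht hx
  simp only [Set.mem_iUnion, Set.mem_preimage] at this
  obtain ⟨v, hv, hxv⟩ := this
  simp only [Set.mem_iUnion]
  refine ⟨t.equivFin ⟨v, hv⟩, x - v, interior_subset hxv, ?_⟩
  simp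

theorem two_le_newtonNumber {C : Set (EuclideanSpace ℝ (Fin (n + 1)))} (hc : IsCompact C)
    (hi : (interior C).Nonempty) : 2 ≤ newtonNumber C := by
  have hne : {N | Covers C N}.Nonempty := exists_covers hc hi
  have := Nat.sInf_mem hne
  exact two_le_of_covers hc.isBounded (hi.mono interior_subset) this

end Pool.Agent.H59.Newton
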