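import Mathlib
import Pool.Agent.H59.NewtonBasic

set_option autoImplicit false

open scoped Pointwise

namespace Pool.Agent.H59.Newton

theorem apex_last (k : ℕ) (h : ℝ) : apex k h (Fin.last k) = h := by simp [apex]

theorem apex_castSucc (k : ℕ) (h : ℝ) (i : Fin k) : apex k h i.castSucc = 1 / 2 := by
  simp [apex, Fin.castSucc_ne_last]

/-- description of the pyramid by inequalities -/
theorem mem_pyramid_iff {k : ℕ} {h : ℝ} (hh : 0 < h) (x : EuclideanSpace ℝ (Fin (k + 1))) :
    x ∈ pyramid k h ↔ 0 ≤ x (Fin.last k) ∧ x (Fin.last k) ≤ h ∧
      ∀ i : Fin k, x (Fin.last k) ≤ 2 * h * x i.castSucc ∧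
        x (Fin.last k) ≤ 2 * h * (1 - x i.castSucc) := by
  constructor
  · intro hx
    have hconv : Convex ℝ {x : EuclideanSpace ℝ (Fin (k + 1)) | 0 ≤ x (Fin.last k) ∧
        x (Fin.last k) ≤ h ∧ ∀ i : Fin k, x (Fin.last k) ≤ 2 * h * x i.castSucc ∧
        x (Fin.last k) ≤ 2 * h * (1 - x i.castSucc)} := by
      intro a ha b hb s t hs ht hst
      obtain ⟨ha1, ha2, ha3⟩ := ha
      obtain ⟨hb1, hb2, hb3⟩ := hb
      refine ⟨?_, ?_, ?_⟩
      · simp only [PiLp.add_apply, PiLp.smul_apply, smul_eq_mul]
        positivity
      · simp only [PiLp.add_apply, PiLp.smul_apply, smul_eq_mul]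
        nlinarith
      · intro i
        obtain ⟨ha4, ha5⟩ := ha3 i
        obtain ⟨hb4, hb5⟩ := hb3 i
        simp only [PiLp.add_apply, PiLp.smul_apply, smul_eq_mul]
        constructor
        · nlinarith [mul_le_mul_of_nonneg_left ha4 hs, mul_le_mul_of_nonneg_left hb4 ht]
        · nlinarith [mul_le_mul_of_nonneg_left ha5 hs, mul_le_mul_of_nonneg_left hb5 ht]
    have := convexHull_min (s := insert (apex k h) (base k)) (t := _) ?_ hconv hx
    · exact this
    · intro y hy
      rcases hy with rfl | ⟨hy1, hy2⟩
      · refine ⟨?_, ?_, ?_⟩
        · rw [apex_last]; exact hh.le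
        · rw [apex_last]
        · intro i
          rw [apex_last, apex_castSucc]
          constructor <;> linarith
      · refine ⟨?_, ?_, ?_⟩
        · rw [hy2]
        · rw [hy2]; exact hh.le
        · intro i
          rw [hy2]
          have := hy1 i
          constructor
          · have := this.1; positivity
          · have : 0 ≤ 1 - y i.castSucc := by linarith [this.2]
            positivity
  · rintro ⟨h1, h2, h3⟩
    set z := x (Fin.last k) with hz
    by_cases hzh : z = h
    · have hx : x = apex k h := by
        ext i
        refine Fin.lastCases ?_ (fun j => ?_) i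
        · rw [apex_last, ← hz, hzh]
        · rw [apex_castSucc]
          obtain ⟨h4, h5⟩ := h3 j
          rw [hzh] at h4 h5
          have h6 : (1:ℝ) ≤ 2 * x j.castSucc := by
            by_contra hcon
            push Not at hcon
            nlinarith
          have h7 : (1:ℝ) ≤ 2 * (1 - x j.castSucc) := by
            by_contra hcon
            push Not at hcon
            nlinarith
          linarith
      rw [hx]
      exact subset_convexHull ℝ _ (Set.mem_insert _ _)
    · have hlt : z < h := lt_of_le_of_ne h2 hzh
      set t := z / h with ht
      have ht0 : 0 ≤ t := div_nonneg h1 hh.le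
      have ht1 : t < 1 := (div_lt_one hh).2 hlt
      have hth : t * h = z := by rw [ht]; field_simp
      set b : EuclideanSpace ℝ (Fin (k + 1)) := (1 / (1 - t)) • (x - t • apex k h) with hb
      have hbase : b ∈ base k := by
        constructor
        · intro i
          have h1t : 0 < 1 - t := by linarith
          obtain ⟨h4, h5⟩ := h3 i
          have hbi : b i.castSucc = (x i.castSucc - t / 2) / (1 - t) := by
            rw [hb]
            simp only [PiLp.smul_apply, PiLp.sub_apply, smul_eq_mul, apex_castSucc]
            ring
          rw [hbi]
          have h6 : t ≤ 2 * x i.castSucc := by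
            rw [← hth] at h4
            by_contra hcon
            push Not at hcon
            nlinarith
          have h7 : t ≤ 2 * (1 - x i.castSucc) := by
            rw [← hth] at h5
            by_contra hcon
            push Not at hcon
            nlinarith
          constructor
          · apply div_nonneg _ h1t.le
            linarith
          · rw [div_le_one h1t]
            linarith
        · rw [hb]
          simp only [PiLp.smul_apply, PiLp.sub_apply, smul_eq_mul, apex_last]
          rw [hth, ← hz]
          ring
      have hxeq : x = (1 - t) • b + t • apex k h := by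
        rw [hb, smul_smul]
        have h1t : (1 - t) ≠ 0 := by linarith
        rw [mul_one_div_cancel h1t, one_smul]
        abel
      rw [hxeq]
      exact (convex_convexHull ℝ _) (subset_convexHull ℝ _ (Set.mem_insert_of_mem _ hbase))
        (subset_convexHull ℝ _ (Set.mem_insert _ _)) (by linarith) ht0 (by ring)

end Pool.Agent.H59.Newton
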