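import Mathlib
import Pool.Agent.H59.NewtonPyr

set_option autoImplicit false

open scoped Pointwise InnerProductSpace

namespace Pool.Agent.H59.Newton

/-- a reflection acting in the plane of the coordinates `i`, `j` -/
theorem exists_refl {n : ℕ} (i j : Fin n) (hij : i ≠ j) (c s : ℝ) (hcs : c ^ 2 + s ^ 2 = 1)
    (hc : c < 1) :
    ∃ R : EuclideanSpace ℝ (Fin n) ≃ₗᵢ[ℝ] EuclideanSpace ℝ (Fin n), ∀ y,
      R y i = c * y i + s * y j ∧ R y j = s * y i - c * y j ∧
      ∀ l, l ≠ i → l ≠ j → R y l = y l := by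
  set v : EuclideanSpace ℝ (Fin n) :=
    (1 - c) • EuclideanSpace.single i (1 : ℝ) - s • EuclideanSpace.single j (1 : ℝ) with hv
  have hin : ∀ y : EuclideanSpace ℝ (Fin n), ⟪v, y⟫_ℝ = (1 - c) * y i - s * y j := by
    intro y
    rw [hv, inner_sub_left, inner_smul_left, inner_smul_left, EuclideanSpace.inner_single_left,
      EuclideanSpace.inner_single_left]
    simp
  have hvi : v i = 1 - c := by
    rw [hv]; simp [hij]
  have hvj : v j = - s := by
    rw [hv]; simp [hij.symm]
  have hvl : ∀ l, l ≠ i → l ≠ j → v l = 0 := by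
    intro l hl1 hl2
    rw [hv]; simp [hl1, hl2]
  have hn : ‖v‖ ^ 2 = 2 * (1 - c) := by
    rw [← real_inner_self_eq_norm_sq, hin, hvi, hvj]
    nlinarith
  have hc' : (1 - c) ≠ 0 := by
    have : 0 < 1 - c := by linarith
    exact this.ne'
  refine ⟨((ℝ ∙ v).reflection).trans (LinearIsometryEquiv.neg ℝ), fun y => ?_⟩
  have hy : (((ℝ ∙ v).reflection).trans (LinearIsometryEquiv.neg ℝ)) y
      = y - (((1 - c) * y i - s * y j) / (1 - c)) • v := by
    rw [LinearIsometryEquiv.trans_apply, LinearIsometryEquiv.coe_neg,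
      Submodule.reflection_singleton_apply, hin]
    simp only [RCLike.ofReal_real_eq_id, id]
    rw [hn]
    rw [show ((1 - c) * y i - s * y j) / (2 * (1 - c)) = (1 / 2) * (((1 - c) * y i - s * y j) / (1 - c)) by
      field_simp]
    rw [mul_smul, ← Nat.cast_smul_eq_nsmul ℝ, smul_smul]
    norm_num
  rw [hy]
  simp only [PiLp.sub_apply, PiLp.smul_apply, smul_eq_mul, hvi, hvj]
  refine ⟨?_, ?_, ?_⟩
  · field_simp
    ring
  · field_simp
    have : s ^ 2 = 1 - c ^ 2 := by linarith
    ring_nf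
    rw [this]
    ring
  · intro l hl1 hl2
    rw [hvl l hl1 hl2]; ring

/-- A linear isometry of `ℝ^(k+1)` that shrinks the cube `[-1,1]^k × {0}` in each of the first `k`
coordinate directions. -/
theorem exists_iso (k : ℕ) : ∀ m ≤ k, ∀ ε : ℝ, 0 < ε →
    ∃ L : EuclideanSpace ℝ (Fin (k + 1)) ≃ₗᵢ[ℝ] EuclideanSpace ℝ (Fin (k + 1)), ∃ a : ℝ, 0 ≤ a ∧ a < 1 ∧
      ∀ x : EuclideanSpace ℝ (Fin (k + 1)), (∀ j : Fin k, |x j.castSucc| ≤ 1) →
        x (Fin.last k) = 0 →
        (∀ i : Fin k, (i : ℕ) < m → |L x i.castSucc| ≤ a) ∧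
        (∀ i : Fin k, m ≤ (i : ℕ) → L x i.castSucc = x i.castSucc) ∧
        |L x (Fin.last k)| ≤ ε := by
  intro m
  induction m with
  | zero =>
    intro _ ε hε
    refine ⟨LinearIsometryEquiv.refl ℝ _, 0, le_refl _, one_pos, ?_⟩
    intro x _ hx0
    refine ⟨fun i hi => absurd hi (Nat.not_lt_zero _), fun i _ => rfl, ?_⟩
    simp [hx0, hε.le]
  | succ m ih =>
    intro hm ε hε
    have hmk : m < k := hm
    set i0 : Fin k := ⟨m, hmk⟩ with hi0
    -- choose s, c
    set s : ℝ := min (ε / 2) (1 / 2) with hs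
    have hs0 : 0 < s := by rw [hs]; positivity
    have hs1 : s ≤ 1 / 2 := min_le_right _ _
    have hsε : s ≤ ε / 2 := min_le_left _ _
    set c : ℝ := Real.sqrt (1 - s ^ 2) with hc
    have hs2 : s ^ 2 ≤ 1 / 4 := by nlinarith
    have hcs : c ^ 2 + s ^ 2 = 1 := by
      rw [hc, Real.sq_sqrt (by linarith)]; ring
    have hc0 : 0 ≤ c := Real.sqrt_nonneg _
    have hc1 : c < 1 := by
      by_contra hcon
      push Not at hcon
      nlinarith [sq_nonneg s, mul_pos hs0 hs0]
    set e : ℝ := min (ε / 2) ((1 - c) / 2) with he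
    have he0 : 0 < e := by
      rw [he]; apply lt_min <;> linarith
    obtain ⟨L, a, ha0, ha1, hL⟩ := ih (by omega) e he0
    have hne : i0.castSucc ≠ Fin.last k := Fin.castSucc_ne_last _
    obtain ⟨R, hR⟩ := exists_refl i0.castSucc (Fin.last k) hne c s hcs hc1
    refine ⟨L.trans R, max a ((1 + c) / 2), le_max_of_le_left ha0, max_lt ha1 (by linarith), ?_⟩
    intro x hx hx0
    obtain ⟨h1, h2, h3⟩ := hL x hx hx0
    obtain ⟨r1, r2, r3⟩ := hR (L x)
    have hLi0 : L x i0.castSucc = x i0.castSucc := h2 i0 (le_refl _)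
    have hxi0 := hx i0
    refine ⟨?_, ?_, ?_⟩
    · intro i hi
      rw [LinearIsometryEquiv.trans_apply]
      by_cases hii : i = i0
      · rw [hii, r1, hLi0]
        apply le_max_of_le_right
        calc |c * x i0.castSucc + s * L x (Fin.last k)|
            ≤ |c * x i0.castSucc| + |s * L x (Fin.last k)| := abs_add_le _ _
          _ = c * |x i0.castSucc| + s * |L x (Fin.last k)| := by
              rw [abs_mul, abs_mul, abs_of_nonneg hc0, abs_of_pos hs0]
          _ ≤ c * 1 + 1 * e := by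
              gcongr
              linarith
          _ ≤ (1 + c) / 2 := by
              have : e ≤ (1 - c) / 2 := min_le_right _ _
              linarith
      · have hii' : i.castSucc ≠ i0.castSucc := fun h => hii (Fin.castSucc_injective k h)
        rw [r3 _ hii' (Fin.castSucc_ne_last _)]
        apply le_max_of_le_left
        apply h1 i
        have : (i : ℕ) ≠ m := fun h => hii (Fin.ext h)
        omega
    · intro i hi
      have hii : i ≠ i0 := by
        intro h
        rw [h] at hi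
        simp [hi0] at hi
      have hii' : i.castSucc ≠ i0.castSucc := fun h => hii (Fin.castSucc_injective k h)
      rw [LinearIsometryEquiv.trans_apply, r3 _ hii' (Fin.castSucc_ne_last _)]
      exact h2 i (by omega)
    · rw [LinearIsometryEquiv.trans_apply, r2, hLi0]
      calc |s * x i0.castSucc - c * L x (Fin.last k)|
          ≤ |s * x i0.castSucc| + |c * L x (Fin.last k)| := abs_sub _ _
        _ = s * |x i0.castSucc| + c * |L x (Fin.last k)| := by
            rw [abs_mul, abs_mul, abs_of_nonneg hc0, abs_of_pos hs0]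
        _ ≤ s * 1 + 1 * e := by
            gcongr
        _ ≤ ε := by
            have : e ≤ ε / 2 := min_le_left _ _
            linarith

/-- The version for all `k` coordinates. -/
theorem exists_iso' (k : ℕ) :
    ∃ L : EuclideanSpace ℝ (Fin (k + 1)) ≃ₗᵢ[ℝ] EuclideanSpace ℝ (Fin (k + 1)), ∃ a : ℝ, 0 ≤ a ∧ a < 1 ∧
      ∀ x : EuclideanSpace ℝ (Fin (k + 1)), (∀ j : Fin k, |x j.castSucc| ≤ 1) →
        x (Fin.last k) = 0 →
        (∀ i : Fin k, |L x i.castSucc| ≤ a) ∧ |L x (Fin.last k)| ≤ 1 := by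
  obtain ⟨L, a, ha0, ha1, hL⟩ := exists_iso k k le_rfl 1 one_pos
  exact ⟨L, a, ha0, ha1, fun x hx hx0 => ⟨fun i => (hL x hx hx0).1 i i.2, (hL x hx hx0).2.2⟩⟩

end Pool.Agent.H59.Newton
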