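import Mathlib
import Pool.Agent.H59.NewtonIso

set_option autoImplicit false

open scoped Pointwise InnerProductSpace

namespace Pool.Agent.H59.Newton

/-- If an isometry moves every point within `η` of the base into the pyramid, then two copies of
the pyramid cover a neighbourhood of it. -/
theorem covers_two_of_base {k : ℕ} {h : ℝ} (hh : 0 < h)
    (φ : EuclideanSpace ℝ (Fin (k + 1)) ≃ᵢ EuclideanSpace ℝ (Fin (k + 1))) (η : ℝ) (hη : 0 < η)
    (hφ : ∀ q ∈ base k, ∀ x, dist x q ≤ η → φ x ∈ pyramid k h) :
    Covers (pyramid k h) 2 := by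
  set δ : ℝ := η / 4 with hδ
  have hδ0 : 0 < δ := by positivity
  set ε : ℝ := δ / (1 + 2 * h) with hε
  have hε0 : 0 < ε := by positivity
  have hεδ : ε * (1 + 2 * h) = δ := by rw [hε]; field_simp
  have hεδ' : ε ≤ δ := by nlinarith
  set e : EuclideanSpace ℝ (Fin (k + 1)) := EuclideanSpace.single (Fin.last k) δ with he
  have hel : e (Fin.last k) = δ := by rw [he]; simp
  have hec : ∀ i : Fin k, e i.castSucc = 0 := by
    intro i; rw [he]; simp [Fin.castSucc_ne_last]
  refine ⟨![IsometryEquiv.addRight e, φ.symm], ε, hε0, ?_⟩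
  rintro x ⟨p, hp, b, hb, rfl⟩
  rw [mem_closedBall_zero_iff] at hb
  obtain ⟨p1, p2, p3⟩ := (mem_pyramid_iff hh p).1 hp
  simp only [Set.mem_iUnion]
  have hbl : |b (Fin.last k)| ≤ ε := (abs_coord_le b _).trans hb
  have hbl' := abs_le.1 hbl
  by_cases hcase : δ ≤ (p + b) (Fin.last k)
  · refine ⟨0, (p + b) - e, ?_, ?_⟩
    · rw [mem_pyramid_iff hh]
      simp only [PiLp.sub_apply, PiLp.add_apply, hel, hec] at hcase ⊢
      refine ⟨by linarith, by linarith, ?_⟩
      intro i
      obtain ⟨p4, p5⟩ := p3 i
      have hbi := abs_le.1 ((abs_coord_le b i.castSucc).trans hb)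
      constructor
      · nlinarith
      · nlinarith
    · simp
  · push Not at hcase
    refine ⟨1, φ (p + b), ?_, by simp⟩
    -- the projection to the base
    set q : EuclideanSpace ℝ (Fin (k + 1)) := p - EuclideanSpace.single (Fin.last k) (p (Fin.last k)) with hq
    have hq1 : q ∈ base k := by
      constructor
      · intro i
        have : q i.castSucc = p i.castSucc := by
          rw [hq]; simp [Fin.castSucc_ne_last]
        rw [this]
        obtain ⟨p4, p5⟩ := p3 i
        constructor
        · by_contra hcon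
          push Not at hcon
          nlinarith
        · by_contra hcon
          push Not at hcon
          nlinarith
      · rw [hq]; simp
    apply hφ q hq1
    rw [dist_eq_norm]
    have : p + b - q = b + EuclideanSpace.single (Fin.last k) (p (Fin.last k)) := by
      rw [hq]; abel
    rw [this]
    have h1 : ‖EuclideanSpace.single (Fin.last k) (p (Fin.last k))‖ = p (Fin.last k) := by
      rw [PiLp.norm_single, Real.norm_eq_abs, abs_of_nonneg p1]
    have h2 := norm_add_le b (EuclideanSpace.single (Fin.last k) (p (Fin.last k)))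
    rw [h1] at h2
    simp only [PiLp.add_apply] at hcase
    linarith

/-- For tall pyramids two congruent copies suffice. -/
theorem covers_two_tall (k : ℕ) : ∃ h₀ : ℝ, 0 < h₀ ∧ ∀ h : ℝ, h₀ ≤ h → Covers (pyramid k h) 2 := by
  obtain ⟨L, a, ha0, ha1, hL⟩ := exists_iso' k
  have h1a : 0 < 1 - a := by linarith
  refine ⟨4 / (1 - a), by positivity, ?_⟩
  intro h hh
  have hh4 : 4 ≤ h * (1 - a) := by rwa [div_le_iff₀ h1a] at hh
  have hh0 : 0 < h := by
    by_contra hcon
    push Not at hcon
    nlinarith
  have hh5 : 4 ≤ h := by nlinarith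
  -- the centre of the base and the new centre
  set c : EuclideanSpace ℝ (Fin (k + 1)) := apex k 0 with hc
  set p : EuclideanSpace ℝ (Fin (k + 1)) := apex k 1 with hp
  set φ : EuclideanSpace ℝ (Fin (k + 1)) ≃ᵢ EuclideanSpace ℝ (Fin (k + 1)) :=
    (IsometryEquiv.subRight c).trans (L.toIsometryEquiv.trans (IsometryEquiv.addRight p)) with hφ
  have hφx : ∀ x, φ x = L (x - c) + p := by intro x; simp [hφ]
  set η : ℝ := min ((1 - a) / 4) (1 / 2) with hη
  have hη0 : 0 < η := by rw [hη]; apply lt_min <;> linarith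
  have hη1 : η ≤ (1 - a) / 4 := min_le_left _ _
  have hη2 : η ≤ 1 / 2 := min_le_right _ _
  apply covers_two_of_base hh0 φ η hη0
  intro q hq x hxq
  -- coordinates of φ q
  have hy := hL ((2 : ℝ) • (q - c)) ?_ ?_
  · obtain ⟨y1, y2⟩ := hy
    have hφq : ∀ i, |φ x i - φ q i| ≤ η := by
      intro i
      have h1 := abs_coord_le (φ x - φ q) i
      have h2 : ‖φ x - φ q‖ ≤ η := by
        rw [← dist_eq_norm, φ.dist_eq]; exact hxq
      rw [PiLp.sub_apply] at h1
      exact h1.trans h2
    have hlast : |φ q (Fin.last k) - 1| ≤ 1 / 2 := by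
      rw [hφx, PiLp.add_apply, hp, apex_last]
      rw [map_smul, PiLp.smul_apply, smul_eq_mul, abs_mul] at y2
      norm_num at y2
      norm_num
      linarith
    have hco : ∀ i : Fin k, |φ q i.castSucc - 1 / 2| ≤ a / 2 := by
      intro i
      have := y1 i
      rw [hφx, PiLp.add_apply, hp, apex_castSucc]
      rw [map_smul, PiLp.smul_apply, smul_eq_mul, abs_mul] at this
      norm_num at this
      norm_num
      linarith
    rw [mem_pyramid_iff hh0]
    have e1 := abs_le.1 (hφq (Fin.last k))
    have e2 := abs_le.1 hlast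
    refine ⟨by linarith, by linarith, ?_⟩
    intro i
    have e3 := abs_le.1 (hφq i.castSucc)
    have e4 := abs_le.1 (hco i)
    constructor
    · have : (1 - a) / 4 ≤ φ x i.castSucc := by linarith
      nlinarith
    · have : (1 - a) / 4 ≤ 1 - φ x i.castSucc := by linarith
      nlinarith
  · intro j
    simp only [PiLp.smul_apply, PiLp.sub_apply, smul_eq_mul, hc, apex_castSucc]
    obtain ⟨h1, h2⟩ := hq.1 j
    rw [abs_le]; constructor <;> linarith
  · simp only [PiLp.smul_apply, PiLp.sub_apply, smul_eq_mul, hc, apex_last, hq.2]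
    ring

theorem isBounded_base (k : ℕ) : Bornology.IsBounded (base k) := by
  rw [isBounded_iff_forall_norm_le]
  refine ⟨k + 1, ?_⟩
  intro x hx
  refine (norm_le_sum x).trans ?_
  rw [Fin.sum_univ_castSucc, hx.2]
  have : ∑ i : Fin k, |x i.castSucc| ≤ ∑ i : Fin k, (1:ℝ) := by
    apply Finset.sum_le_sum
    intro i _
    rw [abs_le]; constructor <;> linarith [(hx.1 i).1, (hx.1 i).2]
  simp at this
  simp
  linarith

/-- the pyramid is bounded -/
theorem isBounded_pyramid (k : ℕ) (h : ℝ) : Bornology.IsBounded (pyramid k h) := by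
  rw [pyramid, isBounded_convexHull]
  exact (isBounded_base k).insert _

theorem pyramid_nonempty (k : ℕ) (h : ℝ) : (pyramid k h).Nonempty :=
  ⟨apex k h, subset_convexHull ℝ _ (Set.mem_insert _ _)⟩

/-- if two copies suffice, the Newton number of the pyramid is two -/
theorem newtonNumber_pyramid_eq_two {k : ℕ} {h : ℝ} (hc : Covers (pyramid k h) 2) :
    newtonNumber (pyramid k h) = 2 := by
  apply le_antisymm
  · exact Nat.sInf_le hc
  · have hne : {N | Covers (pyramid k h) N}.Nonempty := ⟨2, hc⟩
    exact two_le_of_covers (isBounded_pyramid k h) (pyramid_nonempty k h) (Nat.sInf_mem hne)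

theorem isCompact_cube (k : ℕ) : IsCompact (cube k) := by
  have hclosed : IsClosed (cube k) := by
    have : cube k = ⋂ i : Fin k, {x : EuclideanSpace ℝ (Fin k) | 0 ≤ x i ∧ x i ≤ 1} := by
      ext x; simp [cube]
    rw [this]
    apply isClosed_iInter
    intro i
    have h1 : Continuous (fun x : EuclideanSpace ℝ (Fin k) => x i) := by fun_prop
    exact (isClosed_le continuous_const h1).inter (isClosed_le h1 continuous_const)
  apply Metric.isCompact_of_isClosed_isBounded hclosed
  rw [isBounded_iff_forall_norm_le]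
  refine ⟨k, ?_⟩
  intro x hx
  refine (norm_le_sum x).trans ?_
  have : ∑ i : Fin k, |x i| ≤ ∑ i : Fin k, (1:ℝ) := by
    apply Finset.sum_le_sum
    intro i _
    rw [abs_le]; constructor <;> linarith [(hx i).1, (hx i).2]
  simpa using this

theorem interior_cube_nonempty (k : ℕ) : (interior (cube k)).Nonempty := by
  refine ⟨WithLp.toLp 2 (fun _ => 1 / 2), ?_⟩
  rw [mem_interior_iff_mem_nhds, Metric.mem_nhds_iff]
  refine ⟨1 / 2, by norm_num, ?_⟩
  intro x hx i
  rw [Metric.mem_ball, dist_eq_norm] at hx
  have := (abs_coord_le (x - WithLp.toLp 2 (fun _ => 1 / 2)) i).trans hx.le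
  rw [PiLp.sub_apply] at this
  have := abs_le.1 this
  simp only at this
  constructor <;> linarith

end Pool.Agent.H59.Newton
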