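import Mathlib

set_option autoImplicit false
set_option linter.all false

namespace Pool.Agent.H59.SumGraph

/-- The constraints satisfied by a sum labeling of the graph on the label set {2,...,9,11}; `x0,...,x8` are the labels of the nine vertices. -/
structure Hyp (x0 x1 x2 x3 x4 x5 x6 x7 x8 : ℕ) : Prop where
  p0 : 0 < x0
  p1 : 0 < x1
  p2 : 0 < x2
  p3 : 0 < x3
  p4 : 0 < x4
  p5 : 0 < x5
  p6 : 0 < x6
  p7 : 0 < x7
  p8 : 0 < x8
  t0 : x0 < x8
  t1 : x1 < x8
  t2 : x2 < x8
  t3 : x3 < x8
  t4 : x4 < x8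
  t5 : x5 < x8
  t6 : x6 < x8
  t7 : x7 < x8
  d01 : ¬ x0 = x1
  d02 : ¬ x0 = x2
  d03 : ¬ x0 = x3
  d04 : ¬ x0 = x4
  d05 : ¬ x0 = x5
  d06 : ¬ x0 = x6
  d07 : ¬ x0 = x7
  d08 : ¬ x0 = x8
  d12 : ¬ x1 = x2
  d13 : ¬ x1 = x3
  d14 : ¬ x1 = x4
  d15 : ¬ x1 = x5
  d16 : ¬ x1 = x6
  d17 : ¬ x1 = x7
  d18 : ¬ x1 = x8
  d23 : ¬ x2 = x3
  d24 : ¬ x2 = x4
  d25 : ¬ x2 = x5
  d26 : ¬ x2 = x6
  d27 : ¬ x2 = x7
  d28 : ¬ x2 = x8
  d34 : ¬ x3 = x4
  d35 : ¬ x3 = x5
  d36 : ¬ x3 = x6
  d37 : ¬ x3 = x7
  d38 : ¬ x3 = x8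
  d45 : ¬ x4 = x5
  d46 : ¬ x4 = x6
  d47 : ¬ x4 = x7
  d48 : ¬ x4 = x8
  d56 : ¬ x5 = x6
  d57 : ¬ x5 = x7
  d58 : ¬ x5 = x8
  d67 : ¬ x6 = x7
  d68 : ¬ x6 = x8
  d78 : ¬ x7 = x8
  n060 : ¬ x0 + x6 = x0
  n061 : ¬ x0 + x6 = x1
  n062 : ¬ x0 + x6 = x2
  n063 : ¬ x0 + x6 = x3
  n064 : ¬ x0 + x6 = x4
  n065 : ¬ x0 + x6 = x5
  n067 : ¬ x0 + x6 = x7
  n068 : ¬ x0 + x6 = x8
  n080 : ¬ x0 + x8 = x0
  n081 : ¬ x0 + x8 = x1
  n082 : ¬ x0 + x8 = x2
  n083 : ¬ x0 + x8 = x3
  n084 : ¬ x0 + x8 = x4
  n085 : ¬ x0 + x8 = x5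
  n086 : ¬ x0 + x8 = x6
  n087 : ¬ x0 + x8 = x7
  n150 : ¬ x1 + x5 = x0
  n151 : ¬ x1 + x5 = x1
  n152 : ¬ x1 + x5 = x2
  n153 : ¬ x1 + x5 = x3
  n154 : ¬ x1 + x5 = x4
  n156 : ¬ x1 + x5 = x6
  n157 : ¬ x1 + x5 = x7
  n158 : ¬ x1 + x5 = x8
  n170 : ¬ x1 + x7 = x0
  n171 : ¬ x1 + x7 = x1
  n172 : ¬ x1 + x7 = x2
  n173 : ¬ x1 + x7 = x3
  n174 : ¬ x1 + x7 = x4
  n175 : ¬ x1 + x7 = x5
  n176 : ¬ x1 + x7 = x6
  n178 : ¬ x1 + x7 = x8
  n180 : ¬ x1 + x8 = x0
  n182 : ¬ x1 + x8 = x2
  n183 : ¬ x1 + x8 = x3
  n184 : ¬ x1 + x8 = x4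
  n185 : ¬ x1 + x8 = x5
  n186 : ¬ x1 + x8 = x6
  n187 : ¬ x1 + x8 = x7
  n241 : ¬ x2 + x4 = x1
  n243 : ¬ x2 + x4 = x3
  n245 : ¬ x2 + x4 = x5
  n246 : ¬ x2 + x4 = x6
  n247 : ¬ x2 + x4 = x7
  n248 : ¬ x2 + x4 = x8
  n260 : ¬ x2 + x6 = x0
  n261 : ¬ x2 + x6 = x1
  n263 : ¬ x2 + x6 = x3
  n264 : ¬ x2 + x6 = x4
  n265 : ¬ x2 + x6 = x5
  n267 : ¬ x2 + x6 = x7
  n268 : ¬ x2 + x6 = x8
  n270 : ¬ x2 + x7 = x0
  n271 : ¬ x2 + x7 = x1
  n273 : ¬ x2 + x7 = x3
  n274 : ¬ x2 + x7 = x4
  n275 : ¬ x2 + x7 = x5
  n276 : ¬ x2 + x7 = x6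
  n278 : ¬ x2 + x7 = x8
  n280 : ¬ x2 + x8 = x0
  n281 : ¬ x2 + x8 = x1
  n283 : ¬ x2 + x8 = x3
  n284 : ¬ x2 + x8 = x4
  n285 : ¬ x2 + x8 = x5
  n286 : ¬ x2 + x8 = x6
  n287 : ¬ x2 + x8 = x7
  n350 : ¬ x3 + x5 = x0
  n351 : ¬ x3 + x5 = x1
  n352 : ¬ x3 + x5 = x2
  n354 : ¬ x3 + x5 = x4
  n356 : ¬ x3 + x5 = x6
  n357 : ¬ x3 + x5 = x7
  n358 : ¬ x3 + x5 = x8
  n360 : ¬ x3 + x6 = x0
  n361 : ¬ x3 + x6 = x1
  n362 : ¬ x3 + x6 = x2
  n364 : ¬ x3 + x6 = x4
  n365 : ¬ x3 + x6 = x5
  n367 : ¬ x3 + x6 = x7
  n368 : ¬ x3 + x6 = x8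
  n370 : ¬ x3 + x7 = x0
  n371 : ¬ x3 + x7 = x1
  n372 : ¬ x3 + x7 = x2
  n374 : ¬ x3 + x7 = x4
  n375 : ¬ x3 + x7 = x5
  n376 : ¬ x3 + x7 = x6
  n378 : ¬ x3 + x7 = x8
  n380 : ¬ x3 + x8 = x0
  n381 : ¬ x3 + x8 = x1
  n382 : ¬ x3 + x8 = x2
  n384 : ¬ x3 + x8 = x4
  n385 : ¬ x3 + x8 = x5
  n386 : ¬ x3 + x8 = x6
  n387 : ¬ x3 + x8 = x7
  n450 : ¬ x4 + x5 = x0
  n451 : ¬ x4 + x5 = x1
  n452 : ¬ x4 + x5 = x2
  n453 : ¬ x4 + x5 = x3
  n456 : ¬ x4 + x5 = x6
  n457 : ¬ x4 + x5 = x7
  n458 : ¬ x4 + x5 = x8
  n460 : ¬ x4 + x6 = x0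
  n461 : ¬ x4 + x6 = x1
  n462 : ¬ x4 + x6 = x2
  n463 : ¬ x4 + x6 = x3
  n465 : ¬ x4 + x6 = x5
  n467 : ¬ x4 + x6 = x7
  n468 : ¬ x4 + x6 = x8
  n470 : ¬ x4 + x7 = x0
  n471 : ¬ x4 + x7 = x1
  n472 : ¬ x4 + x7 = x2
  n473 : ¬ x4 + x7 = x3
  n475 : ¬ x4 + x7 = x5
  n476 : ¬ x4 + x7 = x6
  n478 : ¬ x4 + x7 = x8
  n480 : ¬ x4 + x8 = x0
  n481 : ¬ x4 + x8 = x1
  n482 : ¬ x4 + x8 = x2
  n483 : ¬ x4 + x8 = x3
  n485 : ¬ x4 + x8 = x5
  n486 : ¬ x4 + x8 = x6
  n487 : ¬ x4 + x8 = x7
  n560 : ¬ x5 + x6 = x0
  n561 : ¬ x5 + x6 = x1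
  n562 : ¬ x5 + x6 = x2
  n563 : ¬ x5 + x6 = x3
  n564 : ¬ x5 + x6 = x4
  n567 : ¬ x5 + x6 = x7
  n568 : ¬ x5 + x6 = x8
  n570 : ¬ x5 + x7 = x0
  n573 : ¬ x5 + x7 = x3
  n574 : ¬ x5 + x7 = x4
  n576 : ¬ x5 + x7 = x6
  n578 : ¬ x5 + x7 = x8
  n580 : ¬ x5 + x8 = x0
  n582 : ¬ x5 + x8 = x2
  n584 : ¬ x5 + x8 = x4
  n586 : ¬ x5 + x8 = x6
  n587 : ¬ x5 + x8 = x7
  n672 : ¬ x6 + x7 = x2
  n673 : ¬ x6 + x7 = x3
  n674 : ¬ x6 + x7 = x4
  n675 : ¬ x6 + x7 = x5
  n678 : ¬ x6 + x7 = x8
  n681 : ¬ x6 + x8 = x1
  n685 : ¬ x6 + x8 = x5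
  e01 : x0 + x1 = x2 ∨ x0 + x1 = x3 ∨ x0 + x1 = x4 ∨ x0 + x1 = x5 ∨ x0 + x1 = x6 ∨ x0 + x1 = x7 ∨ x0 + x1 = x8
  e02 : x0 + x2 = x1 ∨ x0 + x2 = x3 ∨ x0 + x2 = x4 ∨ x0 + x2 = x5 ∨ x0 + x2 = x6 ∨ x0 + x2 = x7 ∨ x0 + x2 = x8
  e03 : x0 + x3 = x1 ∨ x0 + x3 = x2 ∨ x0 + x3 = x4 ∨ x0 + x3 = x5 ∨ x0 + x3 = x6 ∨ x0 + x3 = x7 ∨ x0 + x3 = x8
  e04 : x0 + x4 = x1 ∨ x0 + x4 = x2 ∨ x0 + x4 = x3 ∨ x0 + x4 = x5 ∨ x0 + x4 = x6 ∨ x0 + x4 = x7 ∨ x0 + x4 = x8
  e05 : x0 + x5 = x1 ∨ x0 + x5 = x2 ∨ x0 + x5 = x3 ∨ x0 + x5 = x4 ∨ x0 + x5 = x6 ∨ x0 + x5 = x7 ∨ x0 + x5 = x8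
  e07 : x0 + x7 = x1 ∨ x0 + x7 = x2 ∨ x0 + x7 = x3 ∨ x0 + x7 = x4 ∨ x0 + x7 = x5 ∨ x0 + x7 = x6 ∨ x0 + x7 = x8
  e12 : x1 + x2 = x0 ∨ x1 + x2 = x3 ∨ x1 + x2 = x4 ∨ x1 + x2 = x5 ∨ x1 + x2 = x6 ∨ x1 + x2 = x7 ∨ x1 + x2 = x8
  e13 : x1 + x3 = x0 ∨ x1 + x3 = x2 ∨ x1 + x3 = x4 ∨ x1 + x3 = x5 ∨ x1 + x3 = x6 ∨ x1 + x3 = x7 ∨ x1 + x3 = x8
  e14 : x1 + x4 = x0 ∨ x1 + x4 = x2 ∨ x1 + x4 = x3 ∨ x1 + x4 = x5 ∨ x1 + x4 = x6 ∨ x1 + x4 = x7 ∨ x1 + x4 = x8
  e16 : x1 + x6 = x0 ∨ x1 + x6 = x2 ∨ x1 + x6 = x3 ∨ x1 + x6 = x4 ∨ x1 + x6 = x5 ∨ x1 + x6 = x7 ∨ x1 + x6 = x8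
  e23 : x2 + x3 = x0 ∨ x2 + x3 = x1 ∨ x2 + x3 = x4 ∨ x2 + x3 = x5 ∨ x2 + x3 = x6 ∨ x2 + x3 = x7 ∨ x2 + x3 = x8
  e25 : x2 + x5 = x0 ∨ x2 + x5 = x1 ∨ x2 + x5 = x3 ∨ x2 + x5 = x4 ∨ x2 + x5 = x6 ∨ x2 + x5 = x7 ∨ x2 + x5 = x8
  e34 : x3 + x4 = x0 ∨ x3 + x4 = x1 ∨ x3 + x4 = x2 ∨ x3 + x4 = x5 ∨ x3 + x4 = x6 ∨ x3 + x4 = x7 ∨ x3 + x4 = x8

theorem sub0 {x0 x1 x2 x3 x4 x5 x6 x7 x8 : ℕ} (H : Hyp x0 x1 x2 x3 x4 x5 x6 x7 x8)
    (h01 : x0 + x1 = x2) (h23 : x2 + x3 = x4) (h03 : x0 + x3 = x1) :
    2 * x1 = 3 * x0 ∧ x2 = 2 * x0 ∧ 2 * x3 = 5 * x0 ∧ x4 = 3 * x0 ∧ 2 * x5 = 7 * x0 ∧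
      x6 = 4 * x0 ∧ 2 * x7 = 9 * x0 ∧ 2 * x8 = 11 * x0 := by
  rcases H.e13 with h13 | h13 | h13 | h13 | h13 | h13 | h13
  · exact absurd (by clear * - h03 h13; omega) H.d01
  · exact absurd (by clear * - h01 h13; omega) H.d03
  · exact absurd (by clear * - h23 h13; omega) H.d12
  · rcases H.e34 with h34 | h34 | h34 | h34 | h34 | h34 | h34
    · exact absurd (by clear * - h01 h23 h03 h13 h34; omega) H.n150
    · exact absurd (by clear * - h03 h34; omega) H.d04
    · exact absurd (by clear * - h23 h03 h34; omega) H.d01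
    · exact absurd (by clear * - h23 h03 h13 h34; omega) H.d02
    · exact absurd (by clear * - h01 h23 h03 h13 h34; omega) H.n156
    · exact absurd (by clear * - h01 h23 h03 h13 h34; omega) H.n157
    · exact absurd (by clear * - h01 h23 h03 h13 h34; omega) H.n158
  · exact absurd (by clear * - h01 h23 h13; omega) H.n064
  · rcases H.e14 with h14 | h14 | h14 | h14 | h14 | h14 | h14
    · exact absurd (by clear * - h23 h13 h14; omega) H.n270
    · exact absurd (by clear * - h01 h14; omega) H.d04
    · exact absurd (by clear * - h01 h03 h14; omega) H.n241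
    · exact absurd (by clear * - h23 h13 h14; omega) H.n275
    · exact absurd (by clear * - h23 h13 h14; omega) H.n276
    · exact absurd (by clear * - h13 h14; omega) H.d34
    · exact absurd (by clear * - h23 h13 h14; omega) H.n278
  · exact absurd (by clear * - h01 h23 h13; omega) H.n084

theorem sub1 {x0 x1 x2 x3 x4 x5 x6 x7 x8 : ℕ} (H : Hyp x0 x1 x2 x3 x4 x5 x6 x7 x8)
    (h01 : x0 + x1 = x2) (h23 : x2 + x3 = x4) (h03 : x0 + x3 = x6) :
    2 * x1 = 3 * x0 ∧ x2 = 2 * x0 ∧ 2 * x3 = 5 * x0 ∧ x4 = 3 * x0 ∧ 2 * x5 = 7 * x0 ∧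
      x6 = 4 * x0 ∧ 2 * x7 = 9 * x0 ∧ 2 * x8 = 11 * x0 := by
  rcases H.e04 with h04 | h04 | h04 | h04 | h04 | h04 | h04
  · exact absurd (by clear * - h23 h03 h04; omega) H.n261
  · exact absurd (by clear * - h01 h04; omega) H.d14
  · exact absurd (by clear * - h23 h03 h04; omega) H.n263
  · exact absurd (by clear * - h23 h03 h04; omega) H.n265
  · exact absurd (by clear * - h03 h04; omega) H.d34
  · exact absurd (by clear * - h23 h03 h04; omega) H.n267
  · exact absurd (by clear * - h23 h03 h04; omega) H.n268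

theorem sub2 {x0 x1 x2 x3 x4 x5 x6 x7 x8 : ℕ} (H : Hyp x0 x1 x2 x3 x4 x5 x6 x7 x8)
    (h01 : x0 + x1 = x2) (h23 : x2 + x3 = x5) (h03 : x0 + x3 = x1) :
    2 * x1 = 3 * x0 ∧ x2 = 2 * x0 ∧ 2 * x3 = 5 * x0 ∧ x4 = 3 * x0 ∧ 2 * x5 = 7 * x0 ∧
      x6 = 4 * x0 ∧ 2 * x7 = 9 * x0 ∧ 2 * x8 = 11 * x0 := by
  rcases H.e13 with h13 | h13 | h13 | h13 | h13 | h13 | h13
  · exact absurd (by clear * - h03 h13; omega) H.d01
  · exact absurd (by clear * - h01 h13; omega) H.d03
  · rcases H.e14 with h14 | h14 | h14 | h14 | h14 | h14 | h14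
    · exact absurd (by clear * - h01 h23 h03 h13 h14; omega) H.n350
    · exact absurd (by clear * - h01 h03 h13 h14; omega) H.d01
    · exact absurd (by clear * - h01 h13 h14; omega) H.d02
    · exact absurd (by clear * - h01 h23 h13 h14; omega) H.d01
    · exact absurd (by clear * - h01 h23 h03 h13 h14; omega) H.n356
    · exact absurd (by clear * - h01 h23 h03 h13 h14; omega) H.n357
    · exact absurd (by clear * - h01 h23 h03 h13 h14; omega) H.n358
  · exact absurd (by clear * - h23 h13; omega) H.d12
  · exact absurd (by clear * - h01 h23 h13; omega) H.n065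
  · rcases H.e07 with h07 | h07 | h07 | h07 | h07 | h07 | h07
    · exact absurd (by clear * - h01 h03 h13 h07; omega) H.d02
    · exact absurd (by clear * - h01 h03 h13 h07; omega) H.d01
    · exact absurd (by clear * - h01 h23 h13 h07; omega) H.d35
    · exact absurd (by clear * - h01 h23 h13 h07; omega) H.d45
    · rcases H.e14 with h14 | h14 | h14 | h14 | h14 | h14 | h14
      · exact absurd (by clear * - h23 h03 h14; omega) H.n452
      · exact absurd (by clear * - h23 h13 h07 h14; omega) H.d04
      · exact absurd (by clear * - h23 h03 h13 h07 h14; omega) H.n241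
      · exact absurd (by clear * - h03 h13 h07 h14; omega) H.d14
      · rcases H.e04 with h04 | h04 | h04 | h04 | h04 | h04 | h04
        · exact absurd (by clear * - h03 h04; omega) H.d34
        · exact absurd (by clear * - h23 h13 h07 h04; omega) H.d14
        · exact absurd (by clear * - h13 h14 h04; omega) H.n067
        · exact absurd (by clear * - h07 h04; omega) H.d47
        · exact absurd (by clear * - h14 h04; omega) H.d01
        · exact absurd (by clear * - h03 h14 h04; omega) H.n376
        · exact absurd (by clear * - h03 h14 h04; omega) H.n386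
      · exact absurd (by clear * - h13 h14; omega) H.d34
      · rcases H.e04 with h04 | h04 | h04 | h04 | h04 | h04 | h04
        · exact absurd (by clear * - h03 h04; omega) H.d34
        · exact absurd (by clear * - h23 h13 h07 h04; omega) H.d14
        · exact absurd (by clear * - h13 h14 h04; omega) H.n087
        · exact absurd (by clear * - h07 h04; omega) H.d47
        · exact absurd (by clear * - h03 h14 h04; omega) H.n368
        · exact absurd (by clear * - h03 h14 h04; omega) H.n378
        · exact absurd (by clear * - h14 h04; omega) H.d01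
    · exact absurd (by clear * - h01 h23 h13 h07; omega) H.d56
    · exact absurd (by clear * - h01 h23 h13 h07; omega) H.d58
  · exact absurd (by clear * - h01 h23 h13; omega) H.n085

theorem sub3 {x0 x1 x2 x3 x4 x5 x6 x7 x8 : ℕ} (H : Hyp x0 x1 x2 x3 x4 x5 x6 x7 x8)
    (h01 : x0 + x1 = x2) (h23 : x2 + x3 = x5) (h03 : x0 + x3 = x4) :
    2 * x1 = 3 * x0 ∧ x2 = 2 * x0 ∧ 2 * x3 = 5 * x0 ∧ x4 = 3 * x0 ∧ 2 * x5 = 7 * x0 ∧
      x6 = 4 * x0 ∧ 2 * x7 = 9 * x0 ∧ 2 * x8 = 11 * x0 := by
  rcases H.e05 with h05 | h05 | h05 | h05 | h05 | h05 | h05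
  · exact absurd (by clear * - h23 h03 h05; omega) H.n241
  · exact absurd (by clear * - h01 h05; omega) H.d15
  · exact absurd (by clear * - h23 h03 h05; omega) H.n243
  · exact absurd (by clear * - h03 h05; omega) H.d35
  · exact absurd (by clear * - h23 h03 h05; omega) H.n246
  · exact absurd (by clear * - h23 h03 h05; omega) H.n247
  · exact absurd (by clear * - h23 h03 h05; omega) H.n248

theorem sub4 {x0 x1 x2 x3 x4 x5 x6 x7 x8 : ℕ} (H : Hyp x0 x1 x2 x3 x4 x5 x6 x7 x8)
    (h01 : x0 + x1 = x2) (h23 : x2 + x3 = x5) (h03 : x0 + x3 = x6) :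
    2 * x1 = 3 * x0 ∧ x2 = 2 * x0 ∧ 2 * x3 = 5 * x0 ∧ x4 = 3 * x0 ∧ 2 * x5 = 7 * x0 ∧
      x6 = 4 * x0 ∧ 2 * x7 = 9 * x0 ∧ 2 * x8 = 11 * x0 := by
  rcases H.e05 with h05 | h05 | h05 | h05 | h05 | h05 | h05
  · exact absurd (by clear * - h23 h03 h05; omega) H.n261
  · exact absurd (by clear * - h01 h05; omega) H.d15
  · exact absurd (by clear * - h23 h03 h05; omega) H.n263
  · exact absurd (by clear * - h23 h03 h05; omega) H.n264
  · exact absurd (by clear * - h03 h05; omega) H.d35
  · exact absurd (by clear * - h23 h03 h05; omega) H.n267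
  · exact absurd (by clear * - h23 h03 h05; omega) H.n268

theorem sub5 {x0 x1 x2 x3 x4 x5 x6 x7 x8 : ℕ} (H : Hyp x0 x1 x2 x3 x4 x5 x6 x7 x8)
    (h01 : x0 + x1 = x2) (h23 : x2 + x3 = x6) (h03 : x0 + x3 = x1) :
    2 * x1 = 3 * x0 ∧ x2 = 2 * x0 ∧ 2 * x3 = 5 * x0 ∧ x4 = 3 * x0 ∧ 2 * x5 = 7 * x0 ∧
      x6 = 4 * x0 ∧ 2 * x7 = 9 * x0 ∧ 2 * x8 = 11 * x0 := by
  rcases H.e12 with h12 | h12 | h12 | h12 | h12 | h12 | h12
  · exact absurd (by clear * - h01 h12; omega) H.d02
  · exact absurd (by clear * - h23 h03 h12; omega) H.n063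
  · exact absurd (by clear * - h23 h03 h12; omega) H.n064
  · exact absurd (by clear * - h23 h03 h12; omega) H.n065
  · exact absurd (by clear * - h01 h23 h03 h12; omega) H.d12
  · exact absurd (by clear * - h23 h03 h12; omega) H.n067
  · exact absurd (by clear * - h23 h03 h12; omega) H.n068

theorem sub6 {x0 x1 x2 x3 x4 x5 x6 x7 x8 : ℕ} (H : Hyp x0 x1 x2 x3 x4 x5 x6 x7 x8)
    (h01 : x0 + x1 = x2) (h23 : x2 + x3 = x6) (h03 : x0 + x3 = x4) :
    2 * x1 = 3 * x0 ∧ x2 = 2 * x0 ∧ 2 * x3 = 5 * x0 ∧ x4 = 3 * x0 ∧ 2 * x5 = 7 * x0 ∧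
      x6 = 4 * x0 ∧ 2 * x7 = 9 * x0 ∧ 2 * x8 = 11 * x0 := by
  rcases H.e14 with h14 | h14 | h14 | h14 | h14 | h14 | h14
  · exact absurd (by clear * - h01 h23 h03 h14; omega) H.d06
  · exact absurd (by clear * - h01 h14; omega) H.d04
  · exact absurd (by clear * - h01 h23 h03 h14; omega) H.d36
  · exact absurd (by clear * - h01 h23 h03 h14; omega) H.d56
  · rcases H.e13 with h13 | h13 | h13 | h13 | h13 | h13 | h13
    · rcases H.e04 with h04 | h04 | h04 | h04 | h04 | h04 | h04
      · exact absurd (by clear * - h14 h13 h04; omega) H.n361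
      · exact absurd (by clear * - h23 h14 h13 h04; omega) H.d01
      · exact absurd (by clear * - h03 h14 h13 h04; omega) H.d06
      · exact absurd (by clear * - h14 h13 h04; omega) H.n365
      · exact absurd (by clear * - h14 h04; omega) H.d01
      · exact absurd (by clear * - h14 h13 h04; omega) H.n367
      · exact absurd (by clear * - h14 h13 h04; omega) H.n368
    · exact absurd (by clear * - h23 h03 h14 h13; omega) H.d03
    · exact absurd (by clear * - h03 h13; omega) H.d01
    · rcases H.e05 with h05 | h05 | h05 | h05 | h05 | h05 | h05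
      · exact absurd (by clear * - h03 h14 h13 h05; omega) H.d16
      · exact absurd (by clear * - h23 h03 h14 h13 h05; omega) H.d04
      · exact absurd (by clear * - h03 h14 h13 h05; omega) H.d36
      · exact absurd (by clear * - h23 h03 h14 h13 h05; omega) H.d02
      · rcases H.e07 with h07 | h07 | h07 | h07 | h07 | h07 | h07
        · exact absurd (by clear * - h14 h05 h07; omega) H.n475
        · exact absurd (by clear * - h23 h13 h05 h07; omega) H.d17
        · exact absurd (by clear * - h23 h05 h07; omega) H.n275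
        · exact absurd (by clear * - h14 h13 h05 h07; omega) H.d37
        · rcases H.e16 with h16 | h16 | h16 | h16 | h16 | h16 | h16
          · exact absurd (by clear * - h14 h05 h16; omega) H.n564
          · exact absurd (by clear * - h23 h13 h05 h16; omega) H.d06
          · exact absurd (by clear * - h23 h14 h16; omega) H.n264
          · exact absurd (by clear * - h23 h14 h13 h05 h16; omega) H.d02
          · exact absurd (by clear * - h13 h16; omega) H.d36
          · exact absurd (by clear * - h13 h07 h16; omega) H.n063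
          · rcases H.e02 with h02 | h02 | h02 | h02 | h02 | h02 | h02
            · exact absurd (by clear * - h23 h13 h05 h02; omega) H.d12
            · exact absurd (by clear * - h23 h13 h07 h16 h02; omega) H.n378
            · exact absurd (by clear * - h14 h13 h05 h02; omega) H.d23
            · exact absurd (by clear * - h07 h02; omega) H.d27
            · exact absurd (by clear * - h23 h02; omega) H.d03
            · rcases H.e04 with h04 | h04 | h04 | h04 | h04 | h04 | h04
              · rcases H.e12 with h12 | h12 | h12 | h12 | h12 | h12 | h12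
                · exact absurd (by clear * - h23 h14 h13 h07 h02 h04 h12; omega) H.d01
                · exact absurd (by clear * - h13 h07 h02 h12; omega) H.d01
                · exact absurd (by clear * - h23 h14 h13 h05 h07 h02 h04 h12; omega) H.d01
                · exact absurd (by clear * - h23 h14 h13 h05 h07 h02 h04 h12; omega) H.d01
                · exact absurd (by clear * - h23 h14 h13 h07 h02 h04 h12; omega) H.d01
                · exact absurd (by clear * - h02 h12; omega) H.d01
                · exact absurd (by clear * - h23 h14 h13 h05 h07 h16 h02 h04 h12; omega) H.d01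
              · exact absurd (by clear * - h23 h13 h05 h04; omega) H.d14
              · exact absurd (by clear * - h23 h14 h13 h07 h02 h04; omega) H.d03
              · exact absurd (by clear * - h14 h13 h05 h07 h02 h04; omega) H.d23
              · exact absurd (by clear * - h14 h04; omega) H.d01
              · exact absurd (by clear * - h23 h14 h02 h04; omega) H.d13
              · exact absurd (by clear * - h05 h16 h04; omega) H.n154
            · exact absurd (by clear * - h23 h13 h16 h02; omega) H.d05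
        · exact absurd (by clear * - h05 h07; omega) H.d57
        · rcases H.e16 with h16 | h16 | h16 | h16 | h16 | h16 | h16
          · exact absurd (by clear * - h14 h05 h16; omega) H.n564
          · exact absurd (by clear * - h23 h13 h05 h16; omega) H.d06
          · exact absurd (by clear * - h23 h14 h16; omega) H.n264
          · exact absurd (by clear * - h23 h14 h13 h05 h16; omega) H.d02
          · exact absurd (by clear * - h13 h16; omega) H.d36
          · exact absurd (by clear * - h23 h13 h05 h07 h16; omega) H.n268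
          · exact absurd (by clear * - h05 h07 h16; omega) H.n157
      · exact absurd (by clear * - h03 h14 h13 h05; omega) H.d67
      · exact absurd (by clear * - h03 h14 h13 h05; omega) H.d68
    · exact absurd (by clear * - h23 h13; omega) H.d12
    · rcases H.e16 with h16 | h16 | h16 | h16 | h16 | h16 | h16
      · exact absurd (by clear * - h23 h13 h16; omega) H.n270
      · exact absurd (by clear * - h23 h03 h14 h16; omega) H.d06
      · exact absurd (by clear * - h23 h14 h16; omega) H.n264
      · exact absurd (by clear * - h23 h03 h14 h16; omega) H.d02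
      · exact absurd (by clear * - h23 h13 h16; omega) H.n275
      · exact absurd (by clear * - h13 h16; omega) H.d36
      · exact absurd (by clear * - h23 h13 h16; omega) H.n278
    · exact absurd (by clear * - h03 h14 h13; omega) H.n086
  · exact absurd (by clear * - h01 h23 h03 h14; omega) H.d67
  · exact absurd (by clear * - h01 h23 h03 h14; omega) H.d68

theorem sub7 {x0 x1 x2 x3 x4 x5 x6 x7 x8 : ℕ} (H : Hyp x0 x1 x2 x3 x4 x5 x6 x7 x8)
    (h01 : x0 + x1 = x2) (h23 : x2 + x3 = x7) (h03 : x0 + x3 = x1) :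
    2 * x1 = 3 * x0 ∧ x2 = 2 * x0 ∧ 2 * x3 = 5 * x0 ∧ x4 = 3 * x0 ∧ 2 * x5 = 7 * x0 ∧
      x6 = 4 * x0 ∧ 2 * x7 = 9 * x0 ∧ 2 * x8 = 11 * x0 := by
  rcases H.e13 with h13 | h13 | h13 | h13 | h13 | h13 | h13
  · exact absurd (by clear * - h03 h13; omega) H.d01
  · exact absurd (by clear * - h01 h13; omega) H.d03
  · rcases H.e14 with h14 | h14 | h14 | h14 | h14 | h14 | h14
    · exact absurd (by clear * - h01 h23 h03 h13 h14; omega) H.n370
    · exact absurd (by clear * - h01 h03 h13 h14; omega) H.d01
    · exact absurd (by clear * - h01 h13 h14; omega) H.d02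
    · exact absurd (by clear * - h01 h23 h03 h13 h14; omega) H.n375
    · exact absurd (by clear * - h01 h23 h03 h13 h14; omega) H.n376
    · exact absurd (by clear * - h01 h23 h13 h14; omega) H.d01
    · exact absurd (by clear * - h01 h23 h03 h13 h14; omega) H.n378
  · rcases H.e25 with h25 | h25 | h25 | h25 | h25 | h25 | h25
    · exact absurd (by clear * - h23 h13 h25; omega) H.n170
    · exact absurd (by clear * - h01 h03 h13 h25; omega) H.d02
    · exact absurd (by clear * - h23 h13 h25; omega) H.n173
    · exact absurd (by clear * - h23 h13 h25; omega) H.n174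
    · exact absurd (by clear * - h23 h13 h25; omega) H.n176
    · exact absurd (by clear * - h01 h23 h13 h25; omega) H.d02
    · exact absurd (by clear * - h23 h13 h25; omega) H.n178
  · exact absurd (by clear * - h01 h23 h13; omega) H.n067
  · exact absurd (by clear * - h23 h13; omega) H.d12
  · exact absurd (by clear * - h01 h23 h13; omega) H.n087

theorem sub8 {x0 x1 x2 x3 x4 x5 x6 x7 x8 : ℕ} (H : Hyp x0 x1 x2 x3 x4 x5 x6 x7 x8)
    (h01 : x0 + x1 = x2) (h23 : x2 + x3 = x7) (h03 : x0 + x3 = x4) :
    2 * x1 = 3 * x0 ∧ x2 = 2 * x0 ∧ 2 * x3 = 5 * x0 ∧ x4 = 3 * x0 ∧ 2 * x5 = 7 * x0 ∧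
      x6 = 4 * x0 ∧ 2 * x7 = 9 * x0 ∧ 2 * x8 = 11 * x0 := by
  rcases H.e07 with h07 | h07 | h07 | h07 | h07 | h07 | h07
  · exact absurd (by clear * - h23 h03 h07; omega) H.n241
  · exact absurd (by clear * - h01 h07; omega) H.d17
  · exact absurd (by clear * - h23 h03 h07; omega) H.n243
  · exact absurd (by clear * - h03 h07; omega) H.d37
  · exact absurd (by clear * - h23 h03 h07; omega) H.n245
  · exact absurd (by clear * - h23 h03 h07; omega) H.n246
  · exact absurd (by clear * - h23 h03 h07; omega) H.n248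

theorem sub9 {x0 x1 x2 x3 x4 x5 x6 x7 x8 : ℕ} (H : Hyp x0 x1 x2 x3 x4 x5 x6 x7 x8)
    (h01 : x0 + x1 = x2) (h23 : x2 + x3 = x7) (h03 : x0 + x3 = x6) :
    2 * x1 = 3 * x0 ∧ x2 = 2 * x0 ∧ 2 * x3 = 5 * x0 ∧ x4 = 3 * x0 ∧ 2 * x5 = 7 * x0 ∧
      x6 = 4 * x0 ∧ 2 * x7 = 9 * x0 ∧ 2 * x8 = 11 * x0 := by
  rcases H.e07 with h07 | h07 | h07 | h07 | h07 | h07 | h07
  · exact absurd (by clear * - h23 h03 h07; omega) H.n261
  · exact absurd (by clear * - h01 h07; omega) H.d17
  · exact absurd (by clear * - h23 h03 h07; omega) H.n263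
  · exact absurd (by clear * - h23 h03 h07; omega) H.n264
  · exact absurd (by clear * - h23 h03 h07; omega) H.n265
  · exact absurd (by clear * - h03 h07; omega) H.d37
  · exact absurd (by clear * - h23 h03 h07; omega) H.n268

theorem sub10 {x0 x1 x2 x3 x4 x5 x6 x7 x8 : ℕ} (H : Hyp x0 x1 x2 x3 x4 x5 x6 x7 x8)
    (h01 : x0 + x1 = x2) (h23 : x2 + x3 = x8) (h03 : x0 + x3 = x1) :
    2 * x1 = 3 * x0 ∧ x2 = 2 * x0 ∧ 2 * x3 = 5 * x0 ∧ x4 = 3 * x0 ∧ 2 * x5 = 7 * x0 ∧
      x6 = 4 * x0 ∧ 2 * x7 = 9 * x0 ∧ 2 * x8 = 11 * x0 := by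
  rcases H.e12 with h12 | h12 | h12 | h12 | h12 | h12 | h12
  · exact absurd (by clear * - h01 h12; omega) H.d02
  · exact absurd (by clear * - h23 h03 h12; omega) H.n083
  · exact absurd (by clear * - h23 h03 h12; omega) H.n084
  · exact absurd (by clear * - h23 h03 h12; omega) H.n085
  · exact absurd (by clear * - h23 h03 h12; omega) H.n086
  · exact absurd (by clear * - h23 h03 h12; omega) H.n087
  · exact absurd (by clear * - h01 h23 h03 h12; omega) H.d12

theorem sub11 {x0 x1 x2 x3 x4 x5 x6 x7 x8 : ℕ} (H : Hyp x0 x1 x2 x3 x4 x5 x6 x7 x8)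
    (h01 : x0 + x1 = x2) (h23 : x2 + x3 = x8) (h03 : x0 + x3 = x4) :
    2 * x1 = 3 * x0 ∧ x2 = 2 * x0 ∧ 2 * x3 = 5 * x0 ∧ x4 = 3 * x0 ∧ 2 * x5 = 7 * x0 ∧
      x6 = 4 * x0 ∧ 2 * x7 = 9 * x0 ∧ 2 * x8 = 11 * x0 := by
  rcases H.e14 with h14 | h14 | h14 | h14 | h14 | h14 | h14
  · exact absurd (by clear * - h01 h23 h03 h14; omega) H.d08
  · exact absurd (by clear * - h01 h14; omega) H.d04
  · exact absurd (by clear * - h01 h23 h03 h14; omega) H.d38
  · exact absurd (by clear * - h01 h23 h03 h14; omega) H.d58
  · exact absurd (by clear * - h01 h23 h03 h14; omega) H.d68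
  · exact absurd (by clear * - h01 h23 h03 h14; omega) H.d78
  · rcases H.e13 with h13 | h13 | h13 | h13 | h13 | h13 | h13
    · rcases H.e02 with h02 | h02 | h02 | h02 | h02 | h02 | h02
      · exact absurd (by clear * - h23 h03 h14 h13 h02; omega) H.d08
      · exact absurd (by clear * - h23 h13 h02; omega) H.n183
      · exact absurd (by clear * - h23 h03 h14 h13 h02; omega) H.d02
      · exact absurd (by clear * - h23 h13 h02; omega) H.n185
      · exact absurd (by clear * - h23 h13 h02; omega) H.n186
      · exact absurd (by clear * - h23 h13 h02; omega) H.n187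
      · exact absurd (by clear * - h03 h14 h13 h02; omega) H.d02
    · exact absurd (by clear * - h23 h03 h14 h13; omega) H.d03
    · exact absurd (by clear * - h03 h13; omega) H.d01
    · rcases H.e25 with h25 | h25 | h25 | h25 | h25 | h25 | h25
      · exact absurd (by clear * - h23 h13 h25; omega) H.n180
      · exact absurd (by clear * - h23 h13 h25; omega) H.n080
      · exact absurd (by clear * - h23 h13 h25; omega) H.n183
      · exact absurd (by clear * - h23 h03 h14 h13 h25; omega) H.d02
      · exact absurd (by clear * - h23 h13 h25; omega) H.n186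
      · exact absurd (by clear * - h23 h13 h25; omega) H.n187
      · exact absurd (by clear * - h03 h14 h13 h25; omega) H.d02
    · exact absurd (by clear * - h03 h14 h13; omega) H.n068
    · rcases H.e07 with h07 | h07 | h07 | h07 | h07 | h07 | h07
      · exact absurd (by clear * - h03 h14 h13 h07; omega) H.d18
      · exact absurd (by clear * - h23 h03 h14 h13 h07; omega) H.d04
      · exact absurd (by clear * - h03 h14 h13 h07; omega) H.d38
      · exact absurd (by clear * - h23 h03 h14 h13 h07; omega) H.d02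
      · exact absurd (by clear * - h03 h14 h13 h07; omega) H.d58
      · exact absurd (by clear * - h03 h14 h13 h07; omega) H.d68
      · rcases H.e16 with h16 | h16 | h16 | h16 | h16 | h16 | h16
        · exact absurd (by clear * - h14 h07 h16; omega) H.n674
        · exact absurd (by clear * - h23 h13 h07 h16; omega) H.d06
        · exact absurd (by clear * - h23 h14 h16; omega) H.n264
        · rcases H.e04 with h04 | h04 | h04 | h04 | h04 | h04 | h04
          · exact absurd (by clear * - h23 h13 h07 h16 h04; omega) H.n261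
          · exact absurd (by clear * - h23 h13 h07 h04; omega) H.d14
          · exact absurd (by clear * - h23 h14 h13 h07 h04; omega) H.d12
          · exact absurd (by clear * - h23 h13 h07 h16 h04; omega) H.n265
          · exact absurd (by clear * - h13 h07 h16 h04; omega) H.d38
          · exact absurd (by clear * - h13 h16 h04; omega) H.n063
          · exact absurd (by clear * - h14 h04; omega) H.d01
        · rcases H.e05 with h05 | h05 | h05 | h05 | h05 | h05 | h05
          · exact absurd (by clear * - h23 h13 h07 h16 h05; omega) H.n261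
          · exact absurd (by clear * - h23 h13 h07 h05; omega) H.d15
          · exact absurd (by clear * - h23 h13 h07 h16 h05; omega) H.n263
          · exact absurd (by clear * - h14 h13 h07 h05; omega) H.d35
          · exact absurd (by clear * - h13 h07 h16 h05; omega) H.d38
          · exact absurd (by clear * - h13 h16 h05; omega) H.n063
          · exact absurd (by clear * - h13 h07 h16 h05; omega) H.d36
        · exact absurd (by clear * - h13 h16; omega) H.d36
        · exact absurd (by clear * - h14 h16; omega) H.d46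
    · exact absurd (by clear * - h23 h13; omega) H.d12

theorem sub12 {x0 x1 x2 x3 x4 x5 x6 x7 x8 : ℕ} (H : Hyp x0 x1 x2 x3 x4 x5 x6 x7 x8)
    (h01 : x0 + x1 = x2) (h23 : x2 + x3 = x8) (h03 : x0 + x3 = x6) :
    2 * x1 = 3 * x0 ∧ x2 = 2 * x0 ∧ 2 * x3 = 5 * x0 ∧ x4 = 3 * x0 ∧ 2 * x5 = 7 * x0 ∧
      x6 = 4 * x0 ∧ 2 * x7 = 9 * x0 ∧ 2 * x8 = 11 * x0 := by
  rcases H.e16 with h16 | h16 | h16 | h16 | h16 | h16 | h16
  · exact absurd (by clear * - h01 h23 h03 h16; omega) H.d08
  · exact absurd (by clear * - h01 h16; omega) H.d06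
  · exact absurd (by clear * - h01 h23 h03 h16; omega) H.d38
  · exact absurd (by clear * - h01 h23 h03 h16; omega) H.d48
  · exact absurd (by clear * - h01 h23 h03 h16; omega) H.d58
  · exact absurd (by clear * - h01 h23 h03 h16; omega) H.d78
  · rcases H.e25 with h25 | h25 | h25 | h25 | h25 | h25 | h25
    · exact absurd (by clear * - h23 h03 h25; omega) H.n586
    · exact absurd (by clear * - h23 h16 h25; omega) H.n563
    · rcases H.e02 with h02 | h02 | h02 | h02 | h02 | h02 | h02
      · exact absurd (by clear * - h23 h03 h16 h02; omega) H.d12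
      · exact absurd (by clear * - h25 h02; omega) H.d05
      · exact absurd (by clear * - h03 h25 h02; omega) H.n456
      · rcases H.e05 with h05 | h05 | h05 | h05 | h05 | h05 | h05
        · exact absurd (by clear * - h23 h03 h16 h02 h05; omega) H.d12
        · exact absurd (by clear * - h23 h03 h16 h02 h05; omega) H.d12
        · exact absurd (by clear * - h25 h05; omega) H.d02
        · exact absurd (by clear * - h03 h25 h05; omega) H.n246
        · exact absurd (by clear * - h03 h25 h02 h05; omega) H.d03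
        · exact absurd (by clear * - h23 h03 h16 h25 h05; omega) H.n173
        · exact absurd (by clear * - h03 h16 h25 h02 h05; omega) H.n150
      · exact absurd (by clear * - h03 h02; omega) H.d23
      · exact absurd (by clear * - h03 h25 h02; omega) H.n576
      · exact absurd (by clear * - h23 h02; omega) H.d03
    · rcases H.e34 with h34 | h34 | h34 | h34 | h34 | h34 | h34
      · exact absurd (by clear * - h23 h25 h34; omega) H.n580
      · exact absurd (by clear * - h23 h16 h34; omega) H.n462
      · exact absurd (by clear * - h03 h25 h34; omega) H.n560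
      · exact absurd (by clear * - h23 h25 h34; omega) H.n080
      · exact absurd (by clear * - h03 h34; omega) H.d04
      · exact absurd (by clear * - h23 h25 h34; omega) H.n587
      · exact absurd (by clear * - h23 h34; omega) H.d24
    · exact absurd (by clear * - h23 h16 h25; omega) H.n153
    · rcases H.e02 with h02 | h02 | h02 | h02 | h02 | h02 | h02
      · exact absurd (by clear * - h23 h03 h16 h02; omega) H.d12
      · rcases H.e07 with h07 | h07 | h07 | h07 | h07 | h07 | h07
        · exact absurd (by clear * - h25 h02 h07; omega) H.n351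
        · exact absurd (by clear * - h23 h03 h16 h07; omega) H.d17
        · exact absurd (by clear * - h02 h07; omega) H.d27
        · exact absurd (by clear * - h25 h02 h07; omega) H.n354
        · exact absurd (by clear * - h03 h25 h02 h07; omega) H.d06
        · exact absurd (by clear * - h03 h25 h02 h07; omega) H.d05
        · exact absurd (by clear * - h23 h25 h02 h07; omega) H.d25
      · rcases H.e07 with h07 | h07 | h07 | h07 | h07 | h07 | h07
        · exact absurd (by clear * - h25 h02 h07; omega) H.n451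
        · exact absurd (by clear * - h23 h03 h16 h07; omega) H.d17
        · exact absurd (by clear * - h25 h02 h07; omega) H.n453
        · exact absurd (by clear * - h02 h07; omega) H.d27
        · exact absurd (by clear * - h23 h25 h07; omega) H.n083
        · exact absurd (by clear * - h03 h07; omega) H.d37
        · exact absurd (by clear * - h25 h02 h07; omega) H.n458
      · rcases H.e34 with h34 | h34 | h34 | h34 | h34 | h34 | h34
        · exact absurd (by clear * - h23 h02 h34; omega) H.n485
        · exact absurd (by clear * - h23 h16 h34; omega) H.n462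
        · exact absurd (by clear * - h03 h02 h34; omega) H.n465
        · exact absurd (by clear * - h23 h25 h34; omega) H.n487
        · exact absurd (by clear * - h03 h34; omega) H.d04
        · rcases H.e05 with h05 | h05 | h05 | h05 | h05 | h05 | h05
          · exact absurd (by clear * - h23 h03 h16 h02 h05; omega) H.d12
          · exact absurd (by clear * - h23 h03 h16 h02 h05; omega) H.d12
          · exact absurd (by clear * - h23 h03 h16 h25 h34 h05; omega) H.d14
          · exact absurd (by clear * - h23 h03 h16 h25 h34 h05; omega) H.d13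
          · exact absurd (by clear * - h03 h25 h34 h05; omega) H.d24
          · exact absurd (by clear * - h25 h05; omega) H.d02
          · exact absurd (by clear * - h23 h03 h16 h25 h05; omega) H.n187
        · exact absurd (by clear * - h23 h34; omega) H.d24
      · exact absurd (by clear * - h03 h02; omega) H.d23
      · exact absurd (by clear * - h25 h02; omega) H.d05
      · exact absurd (by clear * - h23 h02; omega) H.d03
    · exact absurd (by clear * - h23 h25; omega) H.d35

theorem sub13 {x0 x1 x2 x3 x4 x5 x6 x7 x8 : ℕ} (H : Hyp x0 x1 x2 x3 x4 x5 x6 x7 x8)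
    (h01 : x0 + x1 = x3) (h23 : x2 + x3 = x4) (h02 : x0 + x2 = x1) :
    2 * x1 = 3 * x0 ∧ x2 = 2 * x0 ∧ 2 * x3 = 5 * x0 ∧ x4 = 3 * x0 ∧ 2 * x5 = 7 * x0 ∧
      x6 = 4 * x0 ∧ 2 * x7 = 9 * x0 ∧ 2 * x8 = 11 * x0 := by
  rcases H.e12 with h12 | h12 | h12 | h12 | h12 | h12 | h12
  · exact absurd (by clear * - h02 h12; omega) H.d01
  · exact absurd (by clear * - h01 h12; omega) H.d02
  · exact absurd (by clear * - h01 h23 h02 h12; omega) H.d12
  · rcases H.e14 with h14 | h14 | h14 | h14 | h14 | h14 | h14
    · exact absurd (by clear * - h23 h12 h14; omega) H.n350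
    · exact absurd (by clear * - h23 h12 h14; omega) H.n352
    · exact absurd (by clear * - h01 h14; omega) H.d04
    · exact absurd (by clear * - h12 h14; omega) H.d24
    · exact absurd (by clear * - h23 h12 h14; omega) H.n356
    · exact absurd (by clear * - h23 h12 h14; omega) H.n357
    · exact absurd (by clear * - h23 h12 h14; omega) H.n358
  · exact absurd (by clear * - h01 h23 h12; omega) H.n064
  · rcases H.e14 with h14 | h14 | h14 | h14 | h14 | h14 | h14
    · exact absurd (by clear * - h23 h12 h14; omega) H.n370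
    · exact absurd (by clear * - h23 h12 h14; omega) H.n372
    · exact absurd (by clear * - h01 h14; omega) H.d04
    · exact absurd (by clear * - h23 h12 h14; omega) H.n375
    · exact absurd (by clear * - h23 h12 h14; omega) H.n376
    · exact absurd (by clear * - h12 h14; omega) H.d24
    · exact absurd (by clear * - h23 h12 h14; omega) H.n378
  · exact absurd (by clear * - h01 h23 h12; omega) H.n084

theorem sub14 {x0 x1 x2 x3 x4 x5 x6 x7 x8 : ℕ} (H : Hyp x0 x1 x2 x3 x4 x5 x6 x7 x8)
    (h01 : x0 + x1 = x3) (h23 : x2 + x3 = x4) (h02 : x0 + x2 = x6) :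
    2 * x1 = 3 * x0 ∧ x2 = 2 * x0 ∧ 2 * x3 = 5 * x0 ∧ x4 = 3 * x0 ∧ 2 * x5 = 7 * x0 ∧
      x6 = 4 * x0 ∧ 2 * x7 = 9 * x0 ∧ 2 * x8 = 11 * x0 := by
  rcases H.e04 with h04 | h04 | h04 | h04 | h04 | h04 | h04
  · exact absurd (by clear * - h23 h02 h04; omega) H.n361
  · exact absurd (by clear * - h23 h02 h04; omega) H.n362
  · exact absurd (by clear * - h01 h04; omega) H.d14
  · exact absurd (by clear * - h23 h02 h04; omega) H.n365
  · exact absurd (by clear * - h02 h04; omega) H.d24
  · exact absurd (by clear * - h23 h02 h04; omega) H.n367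
  · exact absurd (by clear * - h23 h02 h04; omega) H.n368

theorem sub15 {x0 x1 x2 x3 x4 x5 x6 x7 x8 : ℕ} (H : Hyp x0 x1 x2 x3 x4 x5 x6 x7 x8)
    (h01 : x0 + x1 = x3) (h23 : x2 + x3 = x5) (h02 : x0 + x2 = x1) :
    2 * x1 = 3 * x0 ∧ x2 = 2 * x0 ∧ 2 * x3 = 5 * x0 ∧ x4 = 3 * x0 ∧ 2 * x5 = 7 * x0 ∧
      x6 = 4 * x0 ∧ 2 * x7 = 9 * x0 ∧ 2 * x8 = 11 * x0 := by
  rcases H.e12 with h12 | h12 | h12 | h12 | h12 | h12 | h12
  · exact absurd (by clear * - h02 h12; omega) H.d01
  · exact absurd (by clear * - h01 h12; omega) H.d02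
  · rcases H.e34 with h34 | h34 | h34 | h34 | h34 | h34 | h34
    · exact absurd (by clear * - h23 h12 h34; omega) H.n150
    · exact absurd (by clear * - h01 h02 h12 h34; omega) H.d03
    · exact absurd (by clear * - h23 h12 h34; omega) H.n152
    · exact absurd (by clear * - h01 h23 h12 h34; omega) H.d03
    · exact absurd (by clear * - h23 h12 h34; omega) H.n156
    · exact absurd (by clear * - h23 h12 h34; omega) H.n157
    · exact absurd (by clear * - h23 h12 h34; omega) H.n158
  · exact absurd (by clear * - h01 h23 h02 h12; omega) H.d12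
  · exact absurd (by clear * - h01 h23 h12; omega) H.n065
  · rcases H.e25 with h25 | h25 | h25 | h25 | h25 | h25 | h25
    · exact absurd (by clear * - h01 h23 h02 h12 h25; omega) H.n170
    · exact absurd (by clear * - h02 h25; omega) H.d05
    · exact absurd (by clear * - h23 h02 h25; omega) H.d01
    · exact absurd (by clear * - h01 h23 h02 h12 h25; omega) H.n174
    · exact absurd (by clear * - h01 h23 h02 h12 h25; omega) H.n176
    · exact absurd (by clear * - h23 h02 h12 h25; omega) H.d03
    · exact absurd (by clear * - h01 h23 h02 h12 h25; omega) H.n178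
  · exact absurd (by clear * - h01 h23 h12; omega) H.n085

theorem sub16 {x0 x1 x2 x3 x4 x5 x6 x7 x8 : ℕ} (H : Hyp x0 x1 x2 x3 x4 x5 x6 x7 x8)
    (h01 : x0 + x1 = x3) (h23 : x2 + x3 = x5) (h02 : x0 + x2 = x4) :
    2 * x1 = 3 * x0 ∧ x2 = 2 * x0 ∧ 2 * x3 = 5 * x0 ∧ x4 = 3 * x0 ∧ 2 * x5 = 7 * x0 ∧
      x6 = 4 * x0 ∧ 2 * x7 = 9 * x0 ∧ 2 * x8 = 11 * x0 := by
  rcases H.e14 with h14 | h14 | h14 | h14 | h14 | h14 | h14
  · exact absurd (by clear * - h01 h23 h02 h14; omega) H.d05
  · exact absurd (by clear * - h01 h23 h02 h14; omega) H.d25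
  · exact absurd (by clear * - h01 h14; omega) H.d04
  · rcases H.e12 with h12 | h12 | h12 | h12 | h12 | h12 | h12
    · rcases H.e03 with h03 | h03 | h03 | h03 | h03 | h03 | h03
      · exact absurd (by clear * - h23 h02 h14 h12 h03; omega) H.d05
      · exact absurd (by clear * - h23 h12 h03; omega) H.n152
      · exact absurd (by clear * - h23 h14 h12 h03; omega) H.d02
      · exact absurd (by clear * - h23 h03; omega) H.d02
      · exact absurd (by clear * - h23 h12 h03; omega) H.n156
      · exact absurd (by clear * - h23 h12 h03; omega) H.n157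
      · exact absurd (by clear * - h23 h12 h03; omega) H.n158
    · exact absurd (by clear * - h23 h02 h14 h12; omega) H.d02
    · exact absurd (by clear * - h02 h12; omega) H.d01
    · exact absurd (by clear * - h23 h12; omega) H.d13
    · exact absurd (by clear * - h02 h14 h12; omega) H.n065
    · rcases H.e25 with h25 | h25 | h25 | h25 | h25 | h25 | h25
      · exact absurd (by clear * - h14 h12 h25; omega) H.n470
      · exact absurd (by clear * - h23 h14 h25; omega) H.n453
      · exact absurd (by clear * - h23 h02 h25; omega) H.d04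
      · exact absurd (by clear * - h02 h25; omega) H.d05
      · exact absurd (by clear * - h14 h12 h25; omega) H.n476
      · exact absurd (by clear * - h12 h25; omega) H.d15
      · exact absurd (by clear * - h14 h12 h25; omega) H.n478
    · exact absurd (by clear * - h02 h14 h12; omega) H.n085
  · exact absurd (by clear * - h01 h23 h02 h14; omega) H.d56
  · exact absurd (by clear * - h01 h23 h02 h14; omega) H.d57
  · exact absurd (by clear * - h01 h23 h02 h14; omega) H.d58

theorem sub17 {x0 x1 x2 x3 x4 x5 x6 x7 x8 : ℕ} (H : Hyp x0 x1 x2 x3 x4 x5 x6 x7 x8)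
    (h01 : x0 + x1 = x3) (h23 : x2 + x3 = x5) (h02 : x0 + x2 = x6) :
    2 * x1 = 3 * x0 ∧ x2 = 2 * x0 ∧ 2 * x3 = 5 * x0 ∧ x4 = 3 * x0 ∧ 2 * x5 = 7 * x0 ∧
      x6 = 4 * x0 ∧ 2 * x7 = 9 * x0 ∧ 2 * x8 = 11 * x0 := by
  rcases H.e05 with h05 | h05 | h05 | h05 | h05 | h05 | h05
  · exact absurd (by clear * - h23 h02 h05; omega) H.n361
  · exact absurd (by clear * - h23 h02 h05; omega) H.n362
  · exact absurd (by clear * - h01 h05; omega) H.d15
  · exact absurd (by clear * - h23 h02 h05; omega) H.n364
  · exact absurd (by clear * - h02 h05; omega) H.d25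
  · exact absurd (by clear * - h23 h02 h05; omega) H.n367
  · exact absurd (by clear * - h23 h02 h05; omega) H.n368

theorem sub18 {x0 x1 x2 x3 x4 x5 x6 x7 x8 : ℕ} (H : Hyp x0 x1 x2 x3 x4 x5 x6 x7 x8)
    (h01 : x0 + x1 = x3) (h23 : x2 + x3 = x6) (h02 : x0 + x2 = x1) :
    2 * x1 = 3 * x0 ∧ x2 = 2 * x0 ∧ 2 * x3 = 5 * x0 ∧ x4 = 3 * x0 ∧ 2 * x5 = 7 * x0 ∧
      x6 = 4 * x0 ∧ 2 * x7 = 9 * x0 ∧ 2 * x8 = 11 * x0 := by
  rcases H.e13 with h13 | h13 | h13 | h13 | h13 | h13 | h13
  · exact absurd (by clear * - h01 h13; omega) H.d03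
  · exact absurd (by clear * - h23 h02 h13; omega) H.n062
  · exact absurd (by clear * - h23 h02 h13; omega) H.n064
  · exact absurd (by clear * - h23 h02 h13; omega) H.n065
  · exact absurd (by clear * - h23 h13; omega) H.d12
  · exact absurd (by clear * - h23 h02 h13; omega) H.n067
  · exact absurd (by clear * - h23 h02 h13; omega) H.n068

theorem sub19 {x0 x1 x2 x3 x4 x5 x6 x7 x8 : ℕ} (H : Hyp x0 x1 x2 x3 x4 x5 x6 x7 x8)
    (h01 : x0 + x1 = x3) (h23 : x2 + x3 = x6) (h02 : x0 + x2 = x4) :
    2 * x1 = 3 * x0 ∧ x2 = 2 * x0 ∧ 2 * x3 = 5 * x0 ∧ x4 = 3 * x0 ∧ 2 * x5 = 7 * x0 ∧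
      x6 = 4 * x0 ∧ 2 * x7 = 9 * x0 ∧ 2 * x8 = 11 * x0 := by
  rcases H.e34 with h34 | h34 | h34 | h34 | h34 | h34 | h34
  · exact absurd (by clear * - h23 h02 h34; omega) H.n060
  · exact absurd (by clear * - h23 h02 h34; omega) H.n061
  · exact absurd (by clear * - h23 h02 h34; omega) H.n062
  · exact absurd (by clear * - h23 h02 h34; omega) H.n065
  · exact absurd (by clear * - h01 h23 h02 h34; omega) H.d13
  · exact absurd (by clear * - h23 h02 h34; omega) H.n067
  · exact absurd (by clear * - h23 h02 h34; omega) H.n068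

theorem sub20 {x0 x1 x2 x3 x4 x5 x6 x7 x8 : ℕ} (H : Hyp x0 x1 x2 x3 x4 x5 x6 x7 x8)
    (h01 : x0 + x1 = x3) (h23 : x2 + x3 = x7) (h02 : x0 + x2 = x1) :
    2 * x1 = 3 * x0 ∧ x2 = 2 * x0 ∧ 2 * x3 = 5 * x0 ∧ x4 = 3 * x0 ∧ 2 * x5 = 7 * x0 ∧
      x6 = 4 * x0 ∧ 2 * x7 = 9 * x0 ∧ 2 * x8 = 11 * x0 := by
  rcases H.e12 with h12 | h12 | h12 | h12 | h12 | h12 | h12
  · exact absurd (by clear * - h02 h12; omega) H.d01
  · exact absurd (by clear * - h01 h12; omega) H.d02
  · rcases H.e14 with h14 | h14 | h14 | h14 | h14 | h14 | h14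
    · exact absurd (by clear * - h01 h23 h02 h12 h14; omega) H.n270
    · exact absurd (by clear * - h01 h12 h14; omega) H.d03
    · exact absurd (by clear * - h01 h02 h12 h14; omega) H.d01
    · exact absurd (by clear * - h01 h23 h02 h12 h14; omega) H.n275
    · exact absurd (by clear * - h01 h23 h02 h12 h14; omega) H.n276
    · exact absurd (by clear * - h01 h23 h12 h14; omega) H.d01
    · exact absurd (by clear * - h01 h23 h02 h12 h14; omega) H.n278
  · rcases H.e05 with h05 | h05 | h05 | h05 | h05 | h05 | h05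
    · exact absurd (by clear * - h01 h02 h12 h05; omega) H.d03
    · exact absurd (by clear * - h01 h23 h12 h05; omega) H.d27
    · exact absurd (by clear * - h01 h02 h12 h05; omega) H.d01
    · exact absurd (by clear * - h01 h23 h12 h05; omega) H.d47
    · exact absurd (by clear * - h01 h23 h12 h05; omega) H.d67
    · rcases H.e14 with h14 | h14 | h14 | h14 | h14 | h14 | h14
      · exact absurd (by clear * - h02 h12 h14; omega) H.n451
      · exact absurd (by clear * - h02 h05 h14; omega) H.n475
      · exact absurd (by clear * - h23 h12 h05 h14; omega) H.d04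
      · exact absurd (by clear * - h12 h14; omega) H.d24
      · rcases H.e16 with h16 | h16 | h16 | h16 | h16 | h16 | h16
        · exact absurd (by clear * - h02 h12 h05 h14 h16; omega) H.n470
        · exact absurd (by clear * - h23 h02 h12 h05 h16; omega) H.n361
        · exact absurd (by clear * - h23 h12 h05 h16; omega) H.d06
        · exact absurd (by clear * - h23 h12 h05 h14 h16; omega) H.d03
        · exact absurd (by clear * - h12 h16; omega) H.d26
        · exact absurd (by clear * - h02 h12 h05 h16; omega) H.d16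
        · exact absurd (by clear * - h02 h12 h05 h14 h16; omega) H.n478
      · exact absurd (by clear * - h02 h12 h05 h14; omega) H.d14
      · rcases H.e16 with h16 | h16 | h16 | h16 | h16 | h16 | h16
        · exact absurd (by clear * - h02 h12 h16; omega) H.n561
        · exact absurd (by clear * - h23 h02 h12 h05 h16; omega) H.n361
        · exact absurd (by clear * - h23 h12 h05 h16; omega) H.d06
        · exact absurd (by clear * - h02 h12 h05 h14 h16; omega) H.n678
        · exact absurd (by clear * - h12 h16; omega) H.d26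
        · exact absurd (by clear * - h02 h12 h05 h16; omega) H.d16
        · exact absurd (by clear * - h14 h16; omega) H.d46
    · exact absurd (by clear * - h01 h23 h12 h05; omega) H.d78
  · exact absurd (by clear * - h01 h23 h12; omega) H.n067
  · exact absurd (by clear * - h01 h23 h02 h12; omega) H.d12
  · exact absurd (by clear * - h01 h23 h12; omega) H.n087

theorem sub21 {x0 x1 x2 x3 x4 x5 x6 x7 x8 : ℕ} (H : Hyp x0 x1 x2 x3 x4 x5 x6 x7 x8)
    (h01 : x0 + x1 = x3) (h23 : x2 + x3 = x7) (h02 : x0 + x2 = x4) :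
    2 * x1 = 3 * x0 ∧ x2 = 2 * x0 ∧ 2 * x3 = 5 * x0 ∧ x4 = 3 * x0 ∧ 2 * x5 = 7 * x0 ∧
      x6 = 4 * x0 ∧ 2 * x7 = 9 * x0 ∧ 2 * x8 = 11 * x0 := by
  rcases H.e14 with h14 | h14 | h14 | h14 | h14 | h14 | h14
  · exact absurd (by clear * - h01 h23 h02 h14; omega) H.d07
  · exact absurd (by clear * - h01 h23 h02 h14; omega) H.d27
  · exact absurd (by clear * - h01 h14; omega) H.d04
  · exact absurd (by clear * - h01 h23 h02 h14; omega) H.d57
  · exact absurd (by clear * - h01 h23 h02 h14; omega) H.d67
  · rcases H.e12 with h12 | h12 | h12 | h12 | h12 | h12 | h12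
    · rcases H.e03 with h03 | h03 | h03 | h03 | h03 | h03 | h03
      · exact absurd (by clear * - h23 h02 h14 h12 h03; omega) H.d07
      · exact absurd (by clear * - h23 h12 h03; omega) H.n172
      · exact absurd (by clear * - h23 h14 h12 h03; omega) H.d02
      · exact absurd (by clear * - h23 h12 h03; omega) H.n175
      · exact absurd (by clear * - h23 h12 h03; omega) H.n176
      · exact absurd (by clear * - h23 h03; omega) H.d02
      · exact absurd (by clear * - h23 h12 h03; omega) H.n178
    · exact absurd (by clear * - h23 h02 h14 h12; omega) H.d02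
    · exact absurd (by clear * - h02 h12; omega) H.d01
    · rcases H.e05 with h05 | h05 | h05 | h05 | h05 | h05 | h05
      · exact absurd (by clear * - h02 h14 h12 h05; omega) H.d17
      · exact absurd (by clear * - h02 h14 h12 h05; omega) H.d27
      · exact absurd (by clear * - h23 h02 h14 h12 h05; omega) H.d04
      · exact absurd (by clear * - h23 h02 h14 h12 h05; omega) H.d03
      · exact absurd (by clear * - h02 h14 h12 h05; omega) H.d67
      · rcases H.e07 with h07 | h07 | h07 | h07 | h07 | h07 | h07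
        · exact absurd (by clear * - h14 h05 h07; omega) H.n475
        · exact absurd (by clear * - h23 h05 h07; omega) H.n375
        · exact absurd (by clear * - h23 h12 h05 h07; omega) H.d17
        · exact absurd (by clear * - h14 h12 h05 h07; omega) H.d27
        · exact absurd (by clear * - h23 h12 h05 h07; omega) H.d13
        · rcases H.e16 with h16 | h16 | h16 | h16 | h16 | h16 | h16
          · exact absurd (by clear * - h23 h12 h05 h07 h16; omega) H.n370
          · exact absurd (by clear * - h12 h05 h07 h16; omega) H.d27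
          · exact absurd (by clear * - h23 h12 h05 h16; omega) H.d06
          · exact absurd (by clear * - h14 h12 h05 h07 h16; omega) H.n172
          · exact absurd (by clear * - h12 h16; omega) H.d26
          · exact absurd (by clear * - h12 h05 h07 h16; omega) H.d27
          · exact absurd (by clear * - h23 h12 h05 h07 h16; omega) H.n378
        · rcases H.e34 with h34 | h34 | h34 | h34 | h34 | h34 | h34
          · exact absurd (by clear * - h23 h14 h12 h05 h07 h34; omega) H.d08
          · exact absurd (by clear * - h23 h14 h12 h05 h07 h34; omega) H.d18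
          · exact absurd (by clear * - h23 h14 h12 h05 h07 h34; omega) H.d28
          · exact absurd (by clear * - h23 h14 h12 h34; omega) H.d13
          · exact absurd (by clear * - h23 h14 h12 h05 h07 h34; omega) H.d68
          · exact absurd (by clear * - h14 h34; omega) H.d13
          · rcases H.e03 with h03 | h03 | h03 | h03 | h03 | h03 | h03
            · exact absurd (by clear * - h14 h07 h34 h03; omega) H.d13
            · rcases H.e13 with h13 | h13 | h13 | h13 | h13 | h13 | h13
              · exact absurd (by clear * - h14 h07 h34 h13; omega) H.d03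
              · exact absurd (by clear * - h03 h13; omega) H.d01
              · exact absurd (by clear * - h14 h12 h07 h03 h13; omega) H.n158
              · exact absurd (by clear * - h14 h12 h07 h34 h03 h13; omega) H.d12
              · exact absurd (by clear * - h12 h03 h13; omega) H.n065
              · exact absurd (by clear * - h14 h12 h05 h07 h34 h13; omega) H.d12
              · exact absurd (by clear * - h14 h12 h05 h07 h34 h03 h13; omega) H.d12
            · exact absurd (by clear * - h14 h12 h05 h03; omega) H.d23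
            · rcases H.e04 with h04 | h04 | h04 | h04 | h04 | h04 | h04
              · exact absurd (by clear * - h12 h03 h04; omega) H.n243
              · exact absurd (by clear * - h14 h12 h05 h07 h34 h03 h04; omega) H.d02
              · exact absurd (by clear * - h14 h07 h34 h04; omega) H.d14
              · exact absurd (by clear * - h14 h12 h05 h07 h34 h03 h04; omega) H.d12
              · rcases H.e13 with h13 | h13 | h13 | h13 | h13 | h13 | h13
                · exact absurd (by clear * - h14 h07 h34 h13; omega) H.d03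
                · exact absurd (by clear * - h14 h12 h05 h03 h13; omega) H.n154
                · exact absurd (by clear * - h14 h05 h03 h13; omega) H.d01
                · exact absurd (by clear * - h03 h13; omega) H.d01
                · rcases H.e16 with h16 | h16 | h16 | h16 | h16 | h16 | h16
                  · exact absurd (by clear * - h14 h05 h07 h34 h03 h04 h13 h16; omega) H.d01
                  · exact absurd (by clear * - h14 h12 h05 h03 h04 h13 h16; omega) H.d01
                  · exact absurd (by clear * - h14 h05 h03 h04 h13 h16; omega) H.d01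
                  · exact absurd (by clear * - h14 h05 h03 h04 h13 h16; omega) H.d01
                  · exact absurd (by clear * - h14 h05 h03 h04 h13 h16; omega) H.d01
                  · exact absurd (by clear * - h05 h03 h13 h16; omega) H.d01
                  · rcases H.e25 with h25 | h25 | h25 | h25 | h25 | h25 | h25
                    · exact absurd (by clear * - h12 h05 h07 h34 h03 h04 h13 h16 h25; omega) H.d01
                    · exact absurd (by clear * - h12 h05 h07 h34 h03 h04 h13 h16 h25; omega) H.d01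
                    · exact absurd (by clear * - h12 h05 h07 h34 h03 h04 h13 h16 h25; omega) H.d01
                    · exact absurd (by clear * - h12 h05 h07 h34 h03 h04 h13 h16 h25; omega) H.d01
                    · exact absurd (by clear * - h12 h05 h07 h34 h04 h13 h16 h25; omega) H.d01
                    · exact absurd (by clear * - h12 h05 h07 h34 h04 h13 h16 h25; omega) H.d01
                    · clear * - h01 h23 h02 h14 h12 h05 h07 h34 h03 h04 h13 h16 h25; omega
                · exact absurd (by clear * - h14 h12 h05 h07 h34 h13; omega) H.d12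
                · exact absurd (by clear * - h34 h13; omega) H.d14
              · exact absurd (by clear * - h14 h04; omega) H.d01
              · exact absurd (by clear * - h34 h04; omega) H.d03
            · exact absurd (by clear * - h14 h12 h05 h34 h03; omega) H.n268
            · exact absurd (by clear * - h14 h12 h05 h07 h34 h03; omega) H.d02
            · exact absurd (by clear * - h34 h03; omega) H.d04
      · exact absurd (by clear * - h02 h14 h12 h05; omega) H.d78
    · exact absurd (by clear * - h02 h14 h12; omega) H.n067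
    · exact absurd (by clear * - h23 h12; omega) H.d13
    · exact absurd (by clear * - h02 h14 h12; omega) H.n087
  · exact absurd (by clear * - h01 h23 h02 h14; omega) H.d78

theorem sub22 {x0 x1 x2 x3 x4 x5 x6 x7 x8 : ℕ} (H : Hyp x0 x1 x2 x3 x4 x5 x6 x7 x8)
    (h01 : x0 + x1 = x3) (h23 : x2 + x3 = x7) (h02 : x0 + x2 = x6) :
    2 * x1 = 3 * x0 ∧ x2 = 2 * x0 ∧ 2 * x3 = 5 * x0 ∧ x4 = 3 * x0 ∧ 2 * x5 = 7 * x0 ∧
      x6 = 4 * x0 ∧ 2 * x7 = 9 * x0 ∧ 2 * x8 = 11 * x0 := by
  rcases H.e07 with h07 | h07 | h07 | h07 | h07 | h07 | h07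
  · exact absurd (by clear * - h23 h02 h07; omega) H.n361
  · exact absurd (by clear * - h23 h02 h07; omega) H.n362
  · exact absurd (by clear * - h01 h07; omega) H.d17
  · exact absurd (by clear * - h23 h02 h07; omega) H.n364
  · exact absurd (by clear * - h23 h02 h07; omega) H.n365
  · exact absurd (by clear * - h02 h07; omega) H.d27
  · exact absurd (by clear * - h23 h02 h07; omega) H.n368

theorem sub23 {x0 x1 x2 x3 x4 x5 x6 x7 x8 : ℕ} (H : Hyp x0 x1 x2 x3 x4 x5 x6 x7 x8)
    (h01 : x0 + x1 = x3) (h23 : x2 + x3 = x8) (h02 : x0 + x2 = x1) :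
    2 * x1 = 3 * x0 ∧ x2 = 2 * x0 ∧ 2 * x3 = 5 * x0 ∧ x4 = 3 * x0 ∧ 2 * x5 = 7 * x0 ∧
      x6 = 4 * x0 ∧ 2 * x7 = 9 * x0 ∧ 2 * x8 = 11 * x0 := by
  rcases H.e13 with h13 | h13 | h13 | h13 | h13 | h13 | h13
  · exact absurd (by clear * - h01 h13; omega) H.d03
  · exact absurd (by clear * - h23 h02 h13; omega) H.n082
  · exact absurd (by clear * - h23 h02 h13; omega) H.n084
  · exact absurd (by clear * - h23 h02 h13; omega) H.n085
  · exact absurd (by clear * - h23 h02 h13; omega) H.n086
  · exact absurd (by clear * - h23 h02 h13; omega) H.n087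
  · exact absurd (by clear * - h23 h13; omega) H.d12

theorem sub24 {x0 x1 x2 x3 x4 x5 x6 x7 x8 : ℕ} (H : Hyp x0 x1 x2 x3 x4 x5 x6 x7 x8)
    (h01 : x0 + x1 = x3) (h23 : x2 + x3 = x8) (h02 : x0 + x2 = x4) :
    2 * x1 = 3 * x0 ∧ x2 = 2 * x0 ∧ 2 * x3 = 5 * x0 ∧ x4 = 3 * x0 ∧ 2 * x5 = 7 * x0 ∧
      x6 = 4 * x0 ∧ 2 * x7 = 9 * x0 ∧ 2 * x8 = 11 * x0 := by
  rcases H.e34 with h34 | h34 | h34 | h34 | h34 | h34 | h34
  · exact absurd (by clear * - h23 h02 h34; omega) H.n080
  · exact absurd (by clear * - h23 h02 h34; omega) H.n081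
  · exact absurd (by clear * - h23 h02 h34; omega) H.n082
  · exact absurd (by clear * - h23 h02 h34; omega) H.n085
  · exact absurd (by clear * - h23 h02 h34; omega) H.n086
  · exact absurd (by clear * - h23 h02 h34; omega) H.n087
  · exact absurd (by clear * - h01 h23 h02 h34; omega) H.d13

theorem sub25 {x0 x1 x2 x3 x4 x5 x6 x7 x8 : ℕ} (H : Hyp x0 x1 x2 x3 x4 x5 x6 x7 x8)
    (h01 : x0 + x1 = x3) (h23 : x2 + x3 = x8) (h02 : x0 + x2 = x6) :
    2 * x1 = 3 * x0 ∧ x2 = 2 * x0 ∧ 2 * x3 = 5 * x0 ∧ x4 = 3 * x0 ∧ 2 * x5 = 7 * x0 ∧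
      x6 = 4 * x0 ∧ 2 * x7 = 9 * x0 ∧ 2 * x8 = 11 * x0 := by
  rcases H.e16 with h16 | h16 | h16 | h16 | h16 | h16 | h16
  · exact absurd (by clear * - h01 h23 h02 h16; omega) H.d08
  · exact absurd (by clear * - h01 h23 h02 h16; omega) H.d28
  · exact absurd (by clear * - h01 h16; omega) H.d06
  · exact absurd (by clear * - h01 h23 h02 h16; omega) H.d48
  · exact absurd (by clear * - h01 h23 h02 h16; omega) H.d58
  · exact absurd (by clear * - h01 h23 h02 h16; omega) H.d78
  · rcases H.e03 with h03 | h03 | h03 | h03 | h03 | h03 | h03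
    · exact absurd (by clear * - h23 h02 h16 h03; omega) H.d13
    · rcases H.e25 with h25 | h25 | h25 | h25 | h25 | h25 | h25
      · exact absurd (by clear * - h23 h03 h25; omega) H.n582
      · exact absurd (by clear * - h23 h16 h25; omega) H.n563
      · exact absurd (by clear * - h23 h02 h16 h03 h25; omega) H.n351
      · rcases H.e04 with h04 | h04 | h04 | h04 | h04 | h04 | h04
        · exact absurd (by clear * - h02 h25 h04; omega) H.n561
        · exact absurd (by clear * - h03 h04; omega) H.d34
        · exact absurd (by clear * - h23 h02 h16 h04; omega) H.d14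
        · exact absurd (by clear * - h02 h16 h25 h04; omega) H.d18
        · exact absurd (by clear * - h02 h04; omega) H.d24
        · exact absurd (by clear * - h02 h25 h04; omega) H.n567
        · exact absurd (by clear * - h02 h16 h25 h04; omega) H.d15
      · exact absurd (by clear * - h02 h25; omega) H.d05
      · rcases H.e07 with h07 | h07 | h07 | h07 | h07 | h07 | h07
        · exact absurd (by clear * - h02 h25 h07; omega) H.n561
        · exact absurd (by clear * - h03 h07; omega) H.d37
        · exact absurd (by clear * - h23 h02 h16 h07; omega) H.d17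
        · exact absurd (by clear * - h02 h25 h07; omega) H.n564
        · exact absurd (by clear * - h02 h16 h25 h07; omega) H.d18
        · exact absurd (by clear * - h02 h07; omega) H.d27
        · exact absurd (by clear * - h02 h16 h25 h07; omega) H.d15
      · exact absurd (by clear * - h23 h25; omega) H.d35
    · rcases H.e25 with h25 | h25 | h25 | h25 | h25 | h25 | h25
      · exact absurd (by clear * - h23 h03 h25; omega) H.n584
      · exact absurd (by clear * - h23 h16 h25; omega) H.n563
      · exact absurd (by clear * - h02 h03 h25; omega) H.n564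
      · rcases H.e04 with h04 | h04 | h04 | h04 | h04 | h04 | h04
        · exact absurd (by clear * - h23 h02 h16 h03 h04; omega) H.d13
        · exact absurd (by clear * - h23 h02 h16 h25 h04; omega) H.n351
        · exact absurd (by clear * - h23 h02 h16 h03 h04; omega) H.d13
        · exact absurd (by clear * - h02 h16 h25 h04; omega) H.d18
        · exact absurd (by clear * - h02 h04; omega) H.d24
        · exact absurd (by clear * - h02 h25 h04; omega) H.n567
        · exact absurd (by clear * - h02 h16 h25 h04; omega) H.d15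
      · exact absurd (by clear * - h02 h25; omega) H.d05
      · rcases H.e07 with h07 | h07 | h07 | h07 | h07 | h07 | h07
        · exact absurd (by clear * - h02 h25 h07; omega) H.n561
        · exact absurd (by clear * - h23 h02 h16 h25 h07; omega) H.n351
        · exact absurd (by clear * - h23 h02 h16 h07; omega) H.d17
        · exact absurd (by clear * - h03 h07; omega) H.d37
        · exact absurd (by clear * - h02 h16 h25 h07; omega) H.d18
        · exact absurd (by clear * - h02 h07; omega) H.d27
        · exact absurd (by clear * - h02 h16 h25 h07; omega) H.d15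
      · exact absurd (by clear * - h23 h25; omega) H.d35
    · rcases H.e25 with h25 | h25 | h25 | h25 | h25 | h25 | h25
      · exact absurd (by clear * - h23 h03 h25; omega) H.n080
      · exact absurd (by clear * - h23 h03 h25; omega) H.n081
      · exact absurd (by clear * - h02 h16 h03 h25; omega) H.d18
      · exact absurd (by clear * - h23 h03 h25; omega) H.n084
      · exact absurd (by clear * - h02 h25; omega) H.d05
      · exact absurd (by clear * - h23 h03 h25; omega) H.n087
      · exact absurd (by clear * - h02 h16 h03 h25; omega) H.d13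
    · exact absurd (by clear * - h02 h03; omega) H.d23
    · rcases H.e25 with h25 | h25 | h25 | h25 | h25 | h25 | h25
      · exact absurd (by clear * - h23 h03 h25; omega) H.n587
      · exact absurd (by clear * - h23 h16 h25; omega) H.n563
      · exact absurd (by clear * - h02 h03 h25; omega) H.n567
      · rcases H.e04 with h04 | h04 | h04 | h04 | h04 | h04 | h04
        · exact absurd (by clear * - h02 h25 h04; omega) H.n561
        · exact absurd (by clear * - h23 h02 h16 h25 h04; omega) H.n351
        · exact absurd (by clear * - h23 h02 h16 h04; omega) H.d14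
        · exact absurd (by clear * - h02 h16 h25 h04; omega) H.d18
        · exact absurd (by clear * - h02 h04; omega) H.d24
        · exact absurd (by clear * - h03 h04; omega) H.d34
        · exact absurd (by clear * - h02 h16 h25 h04; omega) H.d15
      · exact absurd (by clear * - h02 h25; omega) H.d05
      · rcases H.e07 with h07 | h07 | h07 | h07 | h07 | h07 | h07
        · exact absurd (by clear * - h23 h02 h16 h03 h07; omega) H.d13
        · exact absurd (by clear * - h23 h02 h16 h25 h07; omega) H.n351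
        · exact absurd (by clear * - h23 h02 h16 h03 h07; omega) H.d13
        · exact absurd (by clear * - h02 h25 h07; omega) H.n564
        · exact absurd (by clear * - h02 h16 h25 h07; omega) H.d18
        · exact absurd (by clear * - h02 h07; omega) H.d27
        · exact absurd (by clear * - h02 h16 h25 h07; omega) H.d15
      · exact absurd (by clear * - h23 h25; omega) H.d35
    · exact absurd (by clear * - h23 h03; omega) H.d02

theorem sub26 {x0 x1 x2 x3 x4 x5 x6 x7 x8 : ℕ} (H : Hyp x0 x1 x2 x3 x4 x5 x6 x7 x8)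
    (h01 : x0 + x1 = x4) (h34 : x3 + x4 = x2) (h03 : x0 + x3 = x1) :
    2 * x1 = 3 * x0 ∧ x2 = 2 * x0 ∧ 2 * x3 = 5 * x0 ∧ x4 = 3 * x0 ∧ 2 * x5 = 7 * x0 ∧
      x6 = 4 * x0 ∧ 2 * x7 = 9 * x0 ∧ 2 * x8 = 11 * x0 := by
  rcases H.e13 with h13 | h13 | h13 | h13 | h13 | h13 | h13
  · exact absurd (by clear * - h03 h13; omega) H.d01
  · exact absurd (by clear * - h01 h34 h03 h13; omega) H.d13
  · exact absurd (by clear * - h01 h13; omega) H.d03
  · rcases H.e12 with h12 | h12 | h12 | h12 | h12 | h12 | h12
    · exact absurd (by clear * - h34 h13 h12; omega) H.n450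
    · exact absurd (by clear * - h01 h03 h12; omega) H.n241
    · exact absurd (by clear * - h01 h12; omega) H.d02
    · exact absurd (by clear * - h13 h12; omega) H.d23
    · exact absurd (by clear * - h34 h13 h12; omega) H.n456
    · exact absurd (by clear * - h34 h13 h12; omega) H.n457
    · exact absurd (by clear * - h34 h13 h12; omega) H.n458
  · exact absurd (by clear * - h01 h34 h13; omega) H.n062
  · rcases H.e12 with h12 | h12 | h12 | h12 | h12 | h12 | h12
    · exact absurd (by clear * - h03 h13 h12; omega) H.n271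
    · exact absurd (by clear * - h01 h03 h12; omega) H.n241
    · exact absurd (by clear * - h01 h12; omega) H.d02
    · exact absurd (by clear * - h34 h13 h12; omega) H.n475
    · exact absurd (by clear * - h34 h13 h12; omega) H.n476
    · exact absurd (by clear * - h13 h12; omega) H.d23
    · exact absurd (by clear * - h34 h13 h12; omega) H.n478
  · exact absurd (by clear * - h01 h34 h13; omega) H.n082

theorem sub27 {x0 x1 x2 x3 x4 x5 x6 x7 x8 : ℕ} (H : Hyp x0 x1 x2 x3 x4 x5 x6 x7 x8)
    (h01 : x0 + x1 = x4) (h34 : x3 + x4 = x2) (h03 : x0 + x3 = x6) :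
    2 * x1 = 3 * x0 ∧ x2 = 2 * x0 ∧ 2 * x3 = 5 * x0 ∧ x4 = 3 * x0 ∧ 2 * x5 = 7 * x0 ∧
      x6 = 4 * x0 ∧ 2 * x7 = 9 * x0 ∧ 2 * x8 = 11 * x0 := by
  rcases H.e02 with h02 | h02 | h02 | h02 | h02 | h02 | h02
  · exact absurd (by clear * - h34 h03 h02; omega) H.n461
  · exact absurd (by clear * - h34 h03 h02; omega) H.n463
  · exact absurd (by clear * - h01 h02; omega) H.d12
  · exact absurd (by clear * - h34 h03 h02; omega) H.n465
  · exact absurd (by clear * - h03 h02; omega) H.d23
  · exact absurd (by clear * - h34 h03 h02; omega) H.n467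
  · exact absurd (by clear * - h34 h03 h02; omega) H.n468

theorem sub28 {x0 x1 x2 x3 x4 x5 x6 x7 x8 : ℕ} (H : Hyp x0 x1 x2 x3 x4 x5 x6 x7 x8)
    (h01 : x0 + x1 = x4) (h34 : x3 + x4 = x5) (h03 : x0 + x3 = x1) :
    2 * x1 = 3 * x0 ∧ x2 = 2 * x0 ∧ 2 * x3 = 5 * x0 ∧ x4 = 3 * x0 ∧ 2 * x5 = 7 * x0 ∧
      x6 = 4 * x0 ∧ 2 * x7 = 9 * x0 ∧ 2 * x8 = 11 * x0 := by
  rcases H.e13 with h13 | h13 | h13 | h13 | h13 | h13 | h13
  · exact absurd (by clear * - h03 h13; omega) H.d01
  · rcases H.e12 with h12 | h12 | h12 | h12 | h12 | h12 | h12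
    · exact absurd (by clear * - h01 h34 h03 h13 h12; omega) H.n350
    · exact absurd (by clear * - h01 h13 h12; omega) H.d04
    · exact absurd (by clear * - h01 h03 h13 h12; omega) H.d01
    · exact absurd (by clear * - h01 h34 h13 h12; omega) H.d01
    · exact absurd (by clear * - h01 h34 h03 h13 h12; omega) H.n356
    · exact absurd (by clear * - h01 h34 h03 h13 h12; omega) H.n357
    · exact absurd (by clear * - h01 h34 h03 h13 h12; omega) H.n358
  · exact absurd (by clear * - h01 h13; omega) H.d03
  · exact absurd (by clear * - h01 h34 h03 h13; omega) H.d13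
  · exact absurd (by clear * - h01 h34 h13; omega) H.n065
  · rcases H.e07 with h07 | h07 | h07 | h07 | h07 | h07 | h07
    · exact absurd (by clear * - h01 h03 h13 h07; omega) H.d04
    · exact absurd (by clear * - h01 h34 h13 h07; omega) H.d25
    · exact absurd (by clear * - h01 h34 h13 h07; omega) H.d35
    · exact absurd (by clear * - h01 h03 h13 h07; omega) H.d01
    · rcases H.e12 with h12 | h12 | h12 | h12 | h12 | h12 | h12
      · exact absurd (by clear * - h03 h13 h12; omega) H.n271
      · exact absurd (by clear * - h34 h03 h13 h07 h12; omega) H.n241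
      · exact absurd (by clear * - h34 h13 h07 h12; omega) H.d02
      · exact absurd (by clear * - h03 h13 h07 h12; omega) H.d12
      · rcases H.e02 with h02 | h02 | h02 | h02 | h02 | h02 | h02
        · exact absurd (by clear * - h03 h02; omega) H.d23
        · exact absurd (by clear * - h13 h12 h02; omega) H.n067
        · exact absurd (by clear * - h34 h13 h07 h02; omega) H.d12
        · exact absurd (by clear * - h07 h02; omega) H.d27
        · exact absurd (by clear * - h12 h02; omega) H.d01
        · exact absurd (by clear * - h03 h12 h02; omega) H.n376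
        · exact absurd (by clear * - h03 h12 h02; omega) H.n386
      · exact absurd (by clear * - h13 h12; omega) H.d23
      · rcases H.e02 with h02 | h02 | h02 | h02 | h02 | h02 | h02
        · exact absurd (by clear * - h03 h02; omega) H.d23
        · exact absurd (by clear * - h13 h12 h02; omega) H.n087
        · exact absurd (by clear * - h34 h13 h07 h02; omega) H.d12
        · exact absurd (by clear * - h07 h02; omega) H.d27
        · exact absurd (by clear * - h03 h12 h02; omega) H.n368
        · exact absurd (by clear * - h03 h12 h02; omega) H.n378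
        · exact absurd (by clear * - h12 h02; omega) H.d01
    · exact absurd (by clear * - h01 h34 h13 h07; omega) H.d56
    · exact absurd (by clear * - h01 h34 h13 h07; omega) H.d58
  · exact absurd (by clear * - h01 h34 h13; omega) H.n085

theorem sub29 {x0 x1 x2 x3 x4 x5 x6 x7 x8 : ℕ} (H : Hyp x0 x1 x2 x3 x4 x5 x6 x7 x8)
    (h01 : x0 + x1 = x4) (h34 : x3 + x4 = x5) (h03 : x0 + x3 = x2) :
    2 * x1 = 3 * x0 ∧ x2 = 2 * x0 ∧ 2 * x3 = 5 * x0 ∧ x4 = 3 * x0 ∧ 2 * x5 = 7 * x0 ∧
      x6 = 4 * x0 ∧ 2 * x7 = 9 * x0 ∧ 2 * x8 = 11 * x0 := by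
  rcases H.e05 with h05 | h05 | h05 | h05 | h05 | h05 | h05
  · exact absurd (by clear * - h34 h03 h05; omega) H.n241
  · exact absurd (by clear * - h03 h05; omega) H.d35
  · exact absurd (by clear * - h34 h03 h05; omega) H.n243
  · exact absurd (by clear * - h01 h05; omega) H.d15
  · exact absurd (by clear * - h34 h03 h05; omega) H.n246
  · exact absurd (by clear * - h34 h03 h05; omega) H.n247
  · exact absurd (by clear * - h34 h03 h05; omega) H.n248

theorem sub30 {x0 x1 x2 x3 x4 x5 x6 x7 x8 : ℕ} (H : Hyp x0 x1 x2 x3 x4 x5 x6 x7 x8)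
    (h01 : x0 + x1 = x4) (h34 : x3 + x4 = x5) (h03 : x0 + x3 = x6) :
    2 * x1 = 3 * x0 ∧ x2 = 2 * x0 ∧ 2 * x3 = 5 * x0 ∧ x4 = 3 * x0 ∧ 2 * x5 = 7 * x0 ∧
      x6 = 4 * x0 ∧ 2 * x7 = 9 * x0 ∧ 2 * x8 = 11 * x0 := by
  rcases H.e05 with h05 | h05 | h05 | h05 | h05 | h05 | h05
  · exact absurd (by clear * - h34 h03 h05; omega) H.n461
  · exact absurd (by clear * - h34 h03 h05; omega) H.n462
  · exact absurd (by clear * - h34 h03 h05; omega) H.n463
  · exact absurd (by clear * - h01 h05; omega) H.d15
  · exact absurd (by clear * - h03 h05; omega) H.d35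
  · exact absurd (by clear * - h34 h03 h05; omega) H.n467
  · exact absurd (by clear * - h34 h03 h05; omega) H.n468

theorem sub31 {x0 x1 x2 x3 x4 x5 x6 x7 x8 : ℕ} (H : Hyp x0 x1 x2 x3 x4 x5 x6 x7 x8)
    (h01 : x0 + x1 = x4) (h34 : x3 + x4 = x6) (h03 : x0 + x3 = x1) :
    2 * x1 = 3 * x0 ∧ x2 = 2 * x0 ∧ 2 * x3 = 5 * x0 ∧ x4 = 3 * x0 ∧ 2 * x5 = 7 * x0 ∧
      x6 = 4 * x0 ∧ 2 * x7 = 9 * x0 ∧ 2 * x8 = 11 * x0 := by
  rcases H.e14 with h14 | h14 | h14 | h14 | h14 | h14 | h14
  · exact absurd (by clear * - h01 h14; omega) H.d04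
  · exact absurd (by clear * - h34 h03 h14; omega) H.n062
  · exact absurd (by clear * - h34 h03 h14; omega) H.n063
  · exact absurd (by clear * - h34 h03 h14; omega) H.n065
  · exact absurd (by clear * - h34 h14; omega) H.d13
  · exact absurd (by clear * - h34 h03 h14; omega) H.n067
  · exact absurd (by clear * - h34 h03 h14; omega) H.n068

theorem sub32 {x0 x1 x2 x3 x4 x5 x6 x7 x8 : ℕ} (H : Hyp x0 x1 x2 x3 x4 x5 x6 x7 x8)
    (h01 : x0 + x1 = x4) (h34 : x3 + x4 = x6) (h03 : x0 + x3 = x2) :
    2 * x1 = 3 * x0 ∧ x2 = 2 * x0 ∧ 2 * x3 = 5 * x0 ∧ x4 = 3 * x0 ∧ 2 * x5 = 7 * x0 ∧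
      x6 = 4 * x0 ∧ 2 * x7 = 9 * x0 ∧ 2 * x8 = 11 * x0 := by
  rcases H.e12 with h12 | h12 | h12 | h12 | h12 | h12 | h12
  · exact absurd (by clear * - h01 h34 h03 h12; omega) H.d06
  · exact absurd (by clear * - h01 h34 h03 h12; omega) H.d36
  · exact absurd (by clear * - h01 h12; omega) H.d02
  · exact absurd (by clear * - h01 h34 h03 h12; omega) H.d56
  · rcases H.e13 with h13 | h13 | h13 | h13 | h13 | h13 | h13
    · rcases H.e02 with h02 | h02 | h02 | h02 | h02 | h02 | h02
      · exact absurd (by clear * - h34 h13 h02; omega) H.n264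
      · exact absurd (by clear * - h03 h12 h13 h02; omega) H.d06
      · exact absurd (by clear * - h34 h12 h13 h02; omega) H.d01
      · exact absurd (by clear * - h12 h13 h02; omega) H.n365
      · exact absurd (by clear * - h12 h02; omega) H.d01
      · exact absurd (by clear * - h12 h13 h02; omega) H.n367
      · exact absurd (by clear * - h12 h13 h02; omega) H.n368
    · exact absurd (by clear * - h03 h13; omega) H.d01
    · exact absurd (by clear * - h34 h03 h12 h13; omega) H.d03
    · rcases H.e16 with h16 | h16 | h16 | h16 | h16 | h16 | h16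
      · exact absurd (by clear * - h34 h13 h16; omega) H.n450
      · exact absurd (by clear * - h34 h03 h12 h16; omega) H.d04
      · exact absurd (by clear * - h34 h13 h16; omega) H.n453
      · exact absurd (by clear * - h34 h03 h12 h16; omega) H.d06
      · exact absurd (by clear * - h13 h16; omega) H.d36
      · exact absurd (by clear * - h34 h13 h16; omega) H.n457
      · exact absurd (by clear * - h34 h13 h16; omega) H.n458
    · exact absurd (by clear * - h34 h13; omega) H.d14
    · rcases H.e16 with h16 | h16 | h16 | h16 | h16 | h16 | h16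
      · exact absurd (by clear * - h34 h13 h16; omega) H.n470
      · exact absurd (by clear * - h34 h03 h12 h16; omega) H.d04
      · exact absurd (by clear * - h34 h12 h16; omega) H.n462
      · exact absurd (by clear * - h34 h03 h12 h16; omega) H.d06
      · exact absurd (by clear * - h34 h13 h16; omega) H.n475
      · exact absurd (by clear * - h13 h16; omega) H.d36
      · exact absurd (by clear * - h34 h13 h16; omega) H.n478
    · exact absurd (by clear * - h03 h12 h13; omega) H.n086
  · exact absurd (by clear * - h01 h34 h03 h12; omega) H.d67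
  · exact absurd (by clear * - h01 h34 h03 h12; omega) H.d68

theorem sub33 {x0 x1 x2 x3 x4 x5 x6 x7 x8 : ℕ} (H : Hyp x0 x1 x2 x3 x4 x5 x6 x7 x8)
    (h01 : x0 + x1 = x4) (h34 : x3 + x4 = x7) (h03 : x0 + x3 = x1) :
    2 * x1 = 3 * x0 ∧ x2 = 2 * x0 ∧ 2 * x3 = 5 * x0 ∧ x4 = 3 * x0 ∧ 2 * x5 = 7 * x0 ∧
      x6 = 4 * x0 ∧ 2 * x7 = 9 * x0 ∧ 2 * x8 = 11 * x0 := by
  rcases H.e13 with h13 | h13 | h13 | h13 | h13 | h13 | h13
  · exact absurd (by clear * - h03 h13; omega) H.d01
  · rcases H.e12 with h12 | h12 | h12 | h12 | h12 | h12 | h12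
    · exact absurd (by clear * - h34 h03 h12; omega) H.n274
    · exact absurd (by clear * - h01 h13 h12; omega) H.d04
    · exact absurd (by clear * - h01 h03 h13 h12; omega) H.d01
    · exact absurd (by clear * - h01 h34 h03 h13 h12; omega) H.n375
    · exact absurd (by clear * - h01 h34 h03 h13 h12; omega) H.n376
    · exact absurd (by clear * - h01 h34 h13 h12; omega) H.d01
    · exact absurd (by clear * - h01 h34 h03 h13 h12; omega) H.n378
  · exact absurd (by clear * - h01 h13; omega) H.d03
  · rcases H.e05 with h05 | h05 | h05 | h05 | h05 | h05 | h05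
    · exact absurd (by clear * - h01 h03 h13 h05; omega) H.d04
    · exact absurd (by clear * - h01 h34 h13 h05; omega) H.d27
    · exact absurd (by clear * - h01 h34 h13 h05; omega) H.d37
    · exact absurd (by clear * - h01 h03 h13 h05; omega) H.d01
    · exact absurd (by clear * - h01 h34 h13 h05; omega) H.d67
    · rcases H.e12 with h12 | h12 | h12 | h12 | h12 | h12 | h12
      · exact absurd (by clear * - h34 h03 h12; omega) H.n274
      · exact absurd (by clear * - h34 h03 h13 h05 h12; omega) H.n241
      · exact absurd (by clear * - h34 h13 h05 h12; omega) H.d02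
      · exact absurd (by clear * - h13 h12; omega) H.d23
      · rcases H.e02 with h02 | h02 | h02 | h02 | h02 | h02 | h02
        · exact absurd (by clear * - h03 h02; omega) H.d23
        · exact absurd (by clear * - h13 h12 h02; omega) H.n065
        · exact absurd (by clear * - h34 h13 h05 h02; omega) H.d12
        · exact absurd (by clear * - h03 h12 h02; omega) H.n356
        · exact absurd (by clear * - h12 h02; omega) H.d01
        · exact absurd (by clear * - h05 h02; omega) H.d25
        · exact absurd (by clear * - h03 h12 h02; omega) H.n386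
      · exact absurd (by clear * - h03 h13 h05 h12; omega) H.d12
      · rcases H.e02 with h02 | h02 | h02 | h02 | h02 | h02 | h02
        · exact absurd (by clear * - h03 h02; omega) H.d23
        · exact absurd (by clear * - h13 h12 h02; omega) H.n085
        · exact absurd (by clear * - h34 h13 h05 h02; omega) H.d12
        · exact absurd (by clear * - h03 h12 h02; omega) H.n358
        · exact absurd (by clear * - h03 h12 h02; omega) H.n368
        · exact absurd (by clear * - h05 h02; omega) H.d25
        · exact absurd (by clear * - h12 h02; omega) H.d01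
    · exact absurd (by clear * - h01 h34 h13 h05; omega) H.d78
  · exact absurd (by clear * - h01 h34 h13; omega) H.n067
  · exact absurd (by clear * - h01 h34 h03 h13; omega) H.d13
  · exact absurd (by clear * - h01 h34 h13; omega) H.n087

theorem sub34 {x0 x1 x2 x3 x4 x5 x6 x7 x8 : ℕ} (H : Hyp x0 x1 x2 x3 x4 x5 x6 x7 x8)
    (h01 : x0 + x1 = x4) (h34 : x3 + x4 = x7) (h03 : x0 + x3 = x2) :
    2 * x1 = 3 * x0 ∧ x2 = 2 * x0 ∧ 2 * x3 = 5 * x0 ∧ x4 = 3 * x0 ∧ 2 * x5 = 7 * x0 ∧
      x6 = 4 * x0 ∧ 2 * x7 = 9 * x0 ∧ 2 * x8 = 11 * x0 := by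
  rcases H.e07 with h07 | h07 | h07 | h07 | h07 | h07 | h07
  · exact absurd (by clear * - h34 h03 h07; omega) H.n241
  · exact absurd (by clear * - h03 h07; omega) H.d37
  · exact absurd (by clear * - h34 h03 h07; omega) H.n243
  · exact absurd (by clear * - h01 h07; omega) H.d17
  · exact absurd (by clear * - h34 h03 h07; omega) H.n245
  · exact absurd (by clear * - h34 h03 h07; omega) H.n246
  · exact absurd (by clear * - h34 h03 h07; omega) H.n248

theorem sub35 {x0 x1 x2 x3 x4 x5 x6 x7 x8 : ℕ} (H : Hyp x0 x1 x2 x3 x4 x5 x6 x7 x8)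
    (h01 : x0 + x1 = x4) (h34 : x3 + x4 = x7) (h03 : x0 + x3 = x6) :
    2 * x1 = 3 * x0 ∧ x2 = 2 * x0 ∧ 2 * x3 = 5 * x0 ∧ x4 = 3 * x0 ∧ 2 * x5 = 7 * x0 ∧
      x6 = 4 * x0 ∧ 2 * x7 = 9 * x0 ∧ 2 * x8 = 11 * x0 := by
  rcases H.e07 with h07 | h07 | h07 | h07 | h07 | h07 | h07
  · exact absurd (by clear * - h34 h03 h07; omega) H.n461
  · exact absurd (by clear * - h34 h03 h07; omega) H.n462
  · exact absurd (by clear * - h34 h03 h07; omega) H.n463
  · exact absurd (by clear * - h01 h07; omega) H.d17
  · exact absurd (by clear * - h34 h03 h07; omega) H.n465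
  · exact absurd (by clear * - h03 h07; omega) H.d37
  · exact absurd (by clear * - h34 h03 h07; omega) H.n468

theorem sub36 {x0 x1 x2 x3 x4 x5 x6 x7 x8 : ℕ} (H : Hyp x0 x1 x2 x3 x4 x5 x6 x7 x8)
    (h01 : x0 + x1 = x4) (h34 : x3 + x4 = x8) (h03 : x0 + x3 = x1) :
    2 * x1 = 3 * x0 ∧ x2 = 2 * x0 ∧ 2 * x3 = 5 * x0 ∧ x4 = 3 * x0 ∧ 2 * x5 = 7 * x0 ∧
      x6 = 4 * x0 ∧ 2 * x7 = 9 * x0 ∧ 2 * x8 = 11 * x0 := by
  rcases H.e14 with h14 | h14 | h14 | h14 | h14 | h14 | h14
  · exact absurd (by clear * - h01 h14; omega) H.d04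
  · exact absurd (by clear * - h34 h03 h14; omega) H.n082
  · exact absurd (by clear * - h34 h03 h14; omega) H.n083
  · exact absurd (by clear * - h34 h03 h14; omega) H.n085
  · exact absurd (by clear * - h34 h03 h14; omega) H.n086
  · exact absurd (by clear * - h34 h03 h14; omega) H.n087
  · exact absurd (by clear * - h34 h14; omega) H.d13

theorem sub37 {x0 x1 x2 x3 x4 x5 x6 x7 x8 : ℕ} (H : Hyp x0 x1 x2 x3 x4 x5 x6 x7 x8)
    (h01 : x0 + x1 = x4) (h34 : x3 + x4 = x8) (h03 : x0 + x3 = x2) :
    2 * x1 = 3 * x0 ∧ x2 = 2 * x0 ∧ 2 * x3 = 5 * x0 ∧ x4 = 3 * x0 ∧ 2 * x5 = 7 * x0 ∧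
      x6 = 4 * x0 ∧ 2 * x7 = 9 * x0 ∧ 2 * x8 = 11 * x0 := by
  rcases H.e12 with h12 | h12 | h12 | h12 | h12 | h12 | h12
  · exact absurd (by clear * - h01 h34 h03 h12; omega) H.d08
  · exact absurd (by clear * - h01 h34 h03 h12; omega) H.d38
  · exact absurd (by clear * - h01 h12; omega) H.d02
  · exact absurd (by clear * - h01 h34 h03 h12; omega) H.d58
  · exact absurd (by clear * - h01 h34 h03 h12; omega) H.d68
  · exact absurd (by clear * - h01 h34 h03 h12; omega) H.d78
  · rcases H.e13 with h13 | h13 | h13 | h13 | h13 | h13 | h13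
    · rcases H.e02 with h02 | h02 | h02 | h02 | h02 | h02 | h02
      · exact absurd (by clear * - h34 h13 h02; omega) H.n284
      · exact absurd (by clear * - h03 h12 h13 h02; omega) H.d08
      · exact absurd (by clear * - h34 h12 h13 h02; omega) H.d01
      · exact absurd (by clear * - h12 h13 h02; omega) H.n385
      · exact absurd (by clear * - h12 h13 h02; omega) H.n386
      · exact absurd (by clear * - h12 h13 h02; omega) H.n387
      · exact absurd (by clear * - h12 h02; omega) H.d01
    · exact absurd (by clear * - h03 h13; omega) H.d01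
    · exact absurd (by clear * - h34 h03 h12 h13; omega) H.d03
    · rcases H.e25 with h25 | h25 | h25 | h25 | h25 | h25 | h25
      · exact absurd (by clear * - h12 h13 h25; omega) H.n380
      · exact absurd (by clear * - h34 h13 h25; omega) H.n284
      · exact absurd (by clear * - h12 h13 h25; omega) H.n080
      · exact absurd (by clear * - h34 h03 h12 h13 h25; omega) H.d02
      · exact absurd (by clear * - h12 h13 h25; omega) H.n386
      · exact absurd (by clear * - h12 h13 h25; omega) H.n387
      · exact absurd (by clear * - h03 h12 h13 h25; omega) H.d02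
    · exact absurd (by clear * - h03 h12 h13; omega) H.n068
    · rcases H.e07 with h07 | h07 | h07 | h07 | h07 | h07 | h07
      · exact absurd (by clear * - h03 h12 h13 h07; omega) H.d18
      · exact absurd (by clear * - h34 h03 h12 h13 h07; omega) H.d04
      · exact absurd (by clear * - h03 h12 h13 h07; omega) H.d38
      · exact absurd (by clear * - h34 h03 h12 h13 h07; omega) H.d02
      · exact absurd (by clear * - h03 h12 h13 h07; omega) H.d58
      · exact absurd (by clear * - h03 h12 h13 h07; omega) H.d68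
      · rcases H.e16 with h16 | h16 | h16 | h16 | h16 | h16 | h16
        · exact absurd (by clear * - h12 h07 h16; omega) H.n672
        · rcases H.e02 with h02 | h02 | h02 | h02 | h02 | h02 | h02
          · exact absurd (by clear * - h12 h13 h07 h16 h02; omega) H.n263
          · exact absurd (by clear * - h34 h12 h13 h07 h02; omega) H.d14
          · exact absurd (by clear * - h34 h13 h07 h02; omega) H.d12
          · exact absurd (by clear * - h34 h13 h07 h16 h02; omega) H.n465
          · exact absurd (by clear * - h13 h07 h16 h02; omega) H.d38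
          · exact absurd (by clear * - h13 h16 h02; omega) H.n063
          · exact absurd (by clear * - h12 h02; omega) H.d01
        · exact absurd (by clear * - h34 h12 h16; omega) H.n462
        · exact absurd (by clear * - h34 h13 h07 h16; omega) H.d06
        · rcases H.e05 with h05 | h05 | h05 | h05 | h05 | h05 | h05
          · exact absurd (by clear * - h12 h13 h07 h16 h05; omega) H.n263
          · exact absurd (by clear * - h12 h13 h07 h05; omega) H.d35
          · exact absurd (by clear * - h34 h07 h05; omega) H.n457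
          · exact absurd (by clear * - h34 h13 h07 h05; omega) H.d15
          · exact absurd (by clear * - h13 h07 h16 h05; omega) H.d38
          · exact absurd (by clear * - h13 h16 h05; omega) H.n063
          · exact absurd (by clear * - h13 h07 h16 h05; omega) H.d36
        · exact absurd (by clear * - h13 h16; omega) H.d36
        · exact absurd (by clear * - h12 h16; omega) H.d26
    · exact absurd (by clear * - h34 h13; omega) H.d14

theorem sub38 {x0 x1 x2 x3 x4 x5 x6 x7 x8 : ℕ} (H : Hyp x0 x1 x2 x3 x4 x5 x6 x7 x8)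
    (h01 : x0 + x1 = x4) (h34 : x3 + x4 = x8) (h03 : x0 + x3 = x6) :
    2 * x1 = 3 * x0 ∧ x2 = 2 * x0 ∧ 2 * x3 = 5 * x0 ∧ x4 = 3 * x0 ∧ 2 * x5 = 7 * x0 ∧
      x6 = 4 * x0 ∧ 2 * x7 = 9 * x0 ∧ 2 * x8 = 11 * x0 := by
  rcases H.e16 with h16 | h16 | h16 | h16 | h16 | h16 | h16
  · exact absurd (by clear * - h01 h34 h03 h16; omega) H.d08
  · exact absurd (by clear * - h01 h34 h03 h16; omega) H.d28
  · exact absurd (by clear * - h01 h34 h03 h16; omega) H.d38
  · exact absurd (by clear * - h01 h16; omega) H.d06
  · exact absurd (by clear * - h01 h34 h03 h16; omega) H.d58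
  · exact absurd (by clear * - h01 h34 h03 h16; omega) H.d78
  · rcases H.e04 with h04 | h04 | h04 | h04 | h04 | h04 | h04
    · exact absurd (by clear * - h34 h03 h16 h04; omega) H.d14
    · rcases H.e23 with h23 | h23 | h23 | h23 | h23 | h23 | h23
      · exact absurd (by clear * - h34 h04 h23; omega) H.n080
      · exact absurd (by clear * - h34 h04 h23; omega) H.n081
      · exact absurd (by clear * - h03 h16 h04 h23; omega) H.d18
      · exact absurd (by clear * - h34 h04 h23; omega) H.n085
      · exact absurd (by clear * - h03 h23; omega) H.d02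
      · exact absurd (by clear * - h34 h04 h23; omega) H.n087
      · exact absurd (by clear * - h34 h03 h16 h04 h23; omega) H.d12
    · rcases H.e23 with h23 | h23 | h23 | h23 | h23 | h23 | h23
      · exact absurd (by clear * - h34 h04 h23; omega) H.n283
      · exact absurd (by clear * - h34 h16 h23; omega) H.n264
      · exact absurd (by clear * - h34 h03 h16 h04 h23; omega) H.n241
      · rcases H.e05 with h05 | h05 | h05 | h05 | h05 | h05 | h05
        · exact absurd (by clear * - h03 h23 h05; omega) H.n261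
        · exact absurd (by clear * - h03 h16 h23 h05; omega) H.d18
        · exact absurd (by clear * - h04 h05; omega) H.d45
        · exact absurd (by clear * - h34 h03 h16 h05; omega) H.d15
        · exact absurd (by clear * - h03 h05; omega) H.d35
        · exact absurd (by clear * - h03 h23 h05; omega) H.n267
        · exact absurd (by clear * - h03 h16 h23 h05; omega) H.d12
      · exact absurd (by clear * - h03 h23; omega) H.d02
      · rcases H.e07 with h07 | h07 | h07 | h07 | h07 | h07 | h07
        · exact absurd (by clear * - h03 h23 h07; omega) H.n261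
        · exact absurd (by clear * - h03 h16 h23 h07; omega) H.d18
        · exact absurd (by clear * - h04 h07; omega) H.d47
        · exact absurd (by clear * - h34 h03 h16 h07; omega) H.d17
        · exact absurd (by clear * - h03 h23 h07; omega) H.n265
        · exact absurd (by clear * - h03 h07; omega) H.d37
        · exact absurd (by clear * - h03 h16 h23 h07; omega) H.d12
      · exact absurd (by clear * - h34 h23; omega) H.d24
    · rcases H.e23 with h23 | h23 | h23 | h23 | h23 | h23 | h23
      · exact absurd (by clear * - h34 h04 h23; omega) H.n285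
      · exact absurd (by clear * - h34 h16 h23; omega) H.n264
      · exact absurd (by clear * - h03 h04 h23; omega) H.n265
      · rcases H.e05 with h05 | h05 | h05 | h05 | h05 | h05 | h05
        · exact absurd (by clear * - h34 h03 h16 h04 h05; omega) H.d14
        · exact absurd (by clear * - h03 h16 h23 h05; omega) H.d18
        · exact absurd (by clear * - h34 h03 h16 h23 h05; omega) H.n241
        · exact absurd (by clear * - h34 h03 h16 h04 h05; omega) H.d14
        · exact absurd (by clear * - h03 h05; omega) H.d35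
        · exact absurd (by clear * - h03 h23 h05; omega) H.n267
        · exact absurd (by clear * - h03 h16 h23 h05; omega) H.d12
      · exact absurd (by clear * - h03 h23; omega) H.d02
      · rcases H.e07 with h07 | h07 | h07 | h07 | h07 | h07 | h07
        · exact absurd (by clear * - h03 h23 h07; omega) H.n261
        · exact absurd (by clear * - h03 h16 h23 h07; omega) H.d18
        · exact absurd (by clear * - h34 h03 h16 h23 h07; omega) H.n241
        · exact absurd (by clear * - h34 h03 h16 h07; omega) H.d17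
        · exact absurd (by clear * - h04 h07; omega) H.d47
        · exact absurd (by clear * - h03 h07; omega) H.d37
        · exact absurd (by clear * - h03 h16 h23 h07; omega) H.d12
      · exact absurd (by clear * - h34 h23; omega) H.d24
    · exact absurd (by clear * - h03 h04; omega) H.d34
    · rcases H.e23 with h23 | h23 | h23 | h23 | h23 | h23 | h23
      · exact absurd (by clear * - h34 h04 h23; omega) H.n287
      · exact absurd (by clear * - h34 h16 h23; omega) H.n264
      · exact absurd (by clear * - h03 h04 h23; omega) H.n267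
      · rcases H.e05 with h05 | h05 | h05 | h05 | h05 | h05 | h05
        · exact absurd (by clear * - h03 h23 h05; omega) H.n261
        · exact absurd (by clear * - h03 h16 h23 h05; omega) H.d18
        · exact absurd (by clear * - h34 h03 h16 h23 h05; omega) H.n241
        · exact absurd (by clear * - h34 h03 h16 h05; omega) H.d15
        · exact absurd (by clear * - h03 h05; omega) H.d35
        · exact absurd (by clear * - h04 h05; omega) H.d45
        · exact absurd (by clear * - h03 h16 h23 h05; omega) H.d12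
      · exact absurd (by clear * - h03 h23; omega) H.d02
      · rcases H.e07 with h07 | h07 | h07 | h07 | h07 | h07 | h07
        · exact absurd (by clear * - h34 h03 h16 h04 h07; omega) H.d14
        · exact absurd (by clear * - h03 h16 h23 h07; omega) H.d18
        · exact absurd (by clear * - h34 h03 h16 h23 h07; omega) H.n241
        · exact absurd (by clear * - h34 h03 h16 h04 h07; omega) H.d14
        · exact absurd (by clear * - h03 h23 h07; omega) H.n265
        · exact absurd (by clear * - h03 h07; omega) H.d37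
        · exact absurd (by clear * - h03 h16 h23 h07; omega) H.d12
      · exact absurd (by clear * - h34 h23; omega) H.d24
    · exact absurd (by clear * - h34 h04; omega) H.d03

theorem sub39 {x0 x1 x2 x3 x4 x5 x6 x7 x8 : ℕ} (H : Hyp x0 x1 x2 x3 x4 x5 x6 x7 x8)
    (h01 : x0 + x1 = x5) (h25 : x2 + x5 = x3) (h02 : x0 + x2 = x1) :
    2 * x1 = 3 * x0 ∧ x2 = 2 * x0 ∧ 2 * x3 = 5 * x0 ∧ x4 = 3 * x0 ∧ 2 * x5 = 7 * x0 ∧
      x6 = 4 * x0 ∧ 2 * x7 = 9 * x0 ∧ 2 * x8 = 11 * x0 := by
  rcases H.e03 with h03 | h03 | h03 | h03 | h03 | h03 | h03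
  · exact absurd (by clear * - h02 h03; omega) H.d23
  · exact absurd (by clear * - h25 h02 h03; omega) H.n152
  · exact absurd (by clear * - h25 h02 h03; omega) H.n154
  · exact absurd (by clear * - h01 h25 h02 h03; omega) H.d05
  · exact absurd (by clear * - h25 h02 h03; omega) H.n156
  · exact absurd (by clear * - h25 h02 h03; omega) H.n157
  · exact absurd (by clear * - h25 h02 h03; omega) H.n158

theorem sub40 {x0 x1 x2 x3 x4 x5 x6 x7 x8 : ℕ} (H : Hyp x0 x1 x2 x3 x4 x5 x6 x7 x8)
    (h01 : x0 + x1 = x5) (h25 : x2 + x5 = x3) (h02 : x0 + x2 = x4) :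
    2 * x1 = 3 * x0 ∧ x2 = 2 * x0 ∧ 2 * x3 = 5 * x0 ∧ x4 = 3 * x0 ∧ 2 * x5 = 7 * x0 ∧
      x6 = 4 * x0 ∧ 2 * x7 = 9 * x0 ∧ 2 * x8 = 11 * x0 := by
  rcases H.e03 with h03 | h03 | h03 | h03 | h03 | h03 | h03
  · exact absurd (by clear * - h25 h02 h03; omega) H.n451
  · exact absurd (by clear * - h25 h02 h03; omega) H.n452
  · exact absurd (by clear * - h02 h03; omega) H.d23
  · exact absurd (by clear * - h01 h03; omega) H.d13
  · exact absurd (by clear * - h25 h02 h03; omega) H.n456
  · exact absurd (by clear * - h25 h02 h03; omega) H.n457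
  · exact absurd (by clear * - h25 h02 h03; omega) H.n458

theorem sub41 {x0 x1 x2 x3 x4 x5 x6 x7 x8 : ℕ} (H : Hyp x0 x1 x2 x3 x4 x5 x6 x7 x8)
    (h01 : x0 + x1 = x5) (h25 : x2 + x5 = x3) (h02 : x0 + x2 = x6) :
    2 * x1 = 3 * x0 ∧ x2 = 2 * x0 ∧ 2 * x3 = 5 * x0 ∧ x4 = 3 * x0 ∧ 2 * x5 = 7 * x0 ∧
      x6 = 4 * x0 ∧ 2 * x7 = 9 * x0 ∧ 2 * x8 = 11 * x0 := by
  rcases H.e03 with h03 | h03 | h03 | h03 | h03 | h03 | h03
  · exact absurd (by clear * - h25 h02 h03; omega) H.n561
  · exact absurd (by clear * - h25 h02 h03; omega) H.n562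
  · exact absurd (by clear * - h25 h02 h03; omega) H.n564
  · exact absurd (by clear * - h01 h03; omega) H.d13
  · exact absurd (by clear * - h02 h03; omega) H.d23
  · exact absurd (by clear * - h25 h02 h03; omega) H.n567
  · exact absurd (by clear * - h25 h02 h03; omega) H.n568

theorem sub42 {x0 x1 x2 x3 x4 x5 x6 x7 x8 : ℕ} (H : Hyp x0 x1 x2 x3 x4 x5 x6 x7 x8)
    (h01 : x0 + x1 = x5) (h25 : x2 + x5 = x4) (h02 : x0 + x2 = x1) :
    2 * x1 = 3 * x0 ∧ x2 = 2 * x0 ∧ 2 * x3 = 5 * x0 ∧ x4 = 3 * x0 ∧ 2 * x5 = 7 * x0 ∧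
      x6 = 4 * x0 ∧ 2 * x7 = 9 * x0 ∧ 2 * x8 = 11 * x0 := by
  rcases H.e04 with h04 | h04 | h04 | h04 | h04 | h04 | h04
  · exact absurd (by clear * - h02 h04; omega) H.d24
  · exact absurd (by clear * - h25 h02 h04; omega) H.n152
  · exact absurd (by clear * - h25 h02 h04; omega) H.n153
  · exact absurd (by clear * - h01 h25 h02 h04; omega) H.d05
  · exact absurd (by clear * - h25 h02 h04; omega) H.n156
  · exact absurd (by clear * - h25 h02 h04; omega) H.n157
  · exact absurd (by clear * - h25 h02 h04; omega) H.n158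

theorem sub43 {x0 x1 x2 x3 x4 x5 x6 x7 x8 : ℕ} (H : Hyp x0 x1 x2 x3 x4 x5 x6 x7 x8)
    (h01 : x0 + x1 = x5) (h25 : x2 + x5 = x4) (h02 : x0 + x2 = x3) :
    2 * x1 = 3 * x0 ∧ x2 = 2 * x0 ∧ 2 * x3 = 5 * x0 ∧ x4 = 3 * x0 ∧ 2 * x5 = 7 * x0 ∧
      x6 = 4 * x0 ∧ 2 * x7 = 9 * x0 ∧ 2 * x8 = 11 * x0 := by
  rcases H.e04 with h04 | h04 | h04 | h04 | h04 | h04 | h04
  · exact absurd (by clear * - h25 h02 h04; omega) H.n351
  · exact absurd (by clear * - h25 h02 h04; omega) H.n352
  · exact absurd (by clear * - h02 h04; omega) H.d24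
  · exact absurd (by clear * - h01 h04; omega) H.d14
  · exact absurd (by clear * - h25 h02 h04; omega) H.n356
  · exact absurd (by clear * - h25 h02 h04; omega) H.n357
  · exact absurd (by clear * - h25 h02 h04; omega) H.n358

theorem sub44 {x0 x1 x2 x3 x4 x5 x6 x7 x8 : ℕ} (H : Hyp x0 x1 x2 x3 x4 x5 x6 x7 x8)
    (h01 : x0 + x1 = x5) (h25 : x2 + x5 = x4) (h02 : x0 + x2 = x6) :
    2 * x1 = 3 * x0 ∧ x2 = 2 * x0 ∧ 2 * x3 = 5 * x0 ∧ x4 = 3 * x0 ∧ 2 * x5 = 7 * x0 ∧
      x6 = 4 * x0 ∧ 2 * x7 = 9 * x0 ∧ 2 * x8 = 11 * x0 := by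
  rcases H.e04 with h04 | h04 | h04 | h04 | h04 | h04 | h04
  · exact absurd (by clear * - h25 h02 h04; omega) H.n561
  · exact absurd (by clear * - h25 h02 h04; omega) H.n562
  · exact absurd (by clear * - h25 h02 h04; omega) H.n563
  · exact absurd (by clear * - h01 h04; omega) H.d14
  · exact absurd (by clear * - h02 h04; omega) H.d24
  · exact absurd (by clear * - h25 h02 h04; omega) H.n567
  · exact absurd (by clear * - h25 h02 h04; omega) H.n568

theorem sub45 {x0 x1 x2 x3 x4 x5 x6 x7 x8 : ℕ} (H : Hyp x0 x1 x2 x3 x4 x5 x6 x7 x8)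
    (h01 : x0 + x1 = x5) (h25 : x2 + x5 = x6) (h02 : x0 + x2 = x1) :
    2 * x1 = 3 * x0 ∧ x2 = 2 * x0 ∧ 2 * x3 = 5 * x0 ∧ x4 = 3 * x0 ∧ 2 * x5 = 7 * x0 ∧
      x6 = 4 * x0 ∧ 2 * x7 = 9 * x0 ∧ 2 * x8 = 11 * x0 := by
  rcases H.e12 with h12 | h12 | h12 | h12 | h12 | h12 | h12
  · exact absurd (by clear * - h02 h12; omega) H.d01
  · rcases H.e13 with h13 | h13 | h13 | h13 | h13 | h13 | h13
    · exact absurd (by clear * - h01 h25 h02 h12 h13; omega) H.n260
    · exact absurd (by clear * - h01 h12 h13; omega) H.d05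
    · exact absurd (by clear * - h01 h25 h02 h12 h13; omega) H.n264
    · exact absurd (by clear * - h01 h02 h12 h13; omega) H.d01
    · exact absurd (by clear * - h01 h25 h12 h13; omega) H.d01
    · exact absurd (by clear * - h01 h25 h02 h12 h13; omega) H.n267
    · exact absurd (by clear * - h01 h25 h02 h12 h13; omega) H.n268
  · rcases H.e14 with h14 | h14 | h14 | h14 | h14 | h14 | h14
    · exact absurd (by clear * - h01 h25 h02 h12 h14; omega) H.n260
    · exact absurd (by clear * - h01 h12 h14; omega) H.d05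
    · exact absurd (by clear * - h01 h25 h02 h12 h14; omega) H.n263
    · exact absurd (by clear * - h01 h02 h12 h14; omega) H.d01
    · exact absurd (by clear * - h01 h25 h12 h14; omega) H.d01
    · exact absurd (by clear * - h01 h25 h02 h12 h14; omega) H.n267
    · exact absurd (by clear * - h01 h25 h02 h12 h14; omega) H.n268
  · exact absurd (by clear * - h01 h12; omega) H.d02
  · exact absurd (by clear * - h01 h25 h02 h12; omega) H.d12
  · rcases H.e16 with h16 | h16 | h16 | h16 | h16 | h16 | h16
    · exact absurd (by clear * - h25 h12 h16; omega) H.n570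
    · exact absurd (by clear * - h01 h02 h16; omega) H.n561
    · exact absurd (by clear * - h25 h12 h16; omega) H.n573
    · exact absurd (by clear * - h25 h12 h16; omega) H.n574
    · exact absurd (by clear * - h01 h16; omega) H.d06
    · exact absurd (by clear * - h12 h16; omega) H.d26
    · exact absurd (by clear * - h25 h12 h16; omega) H.n578
  · exact absurd (by clear * - h01 h25 h12; omega) H.n086

theorem sub46 {x0 x1 x2 x3 x4 x5 x6 x7 x8 : ℕ} (H : Hyp x0 x1 x2 x3 x4 x5 x6 x7 x8)
    (h01 : x0 + x1 = x5) (h25 : x2 + x5 = x6) (h02 : x0 + x2 = x3) :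
    2 * x1 = 3 * x0 ∧ x2 = 2 * x0 ∧ 2 * x3 = 5 * x0 ∧ x4 = 3 * x0 ∧ 2 * x5 = 7 * x0 ∧
      x6 = 4 * x0 ∧ 2 * x7 = 9 * x0 ∧ 2 * x8 = 11 * x0 := by
  rcases H.e13 with h13 | h13 | h13 | h13 | h13 | h13 | h13
  · exact absurd (by clear * - h01 h25 h02 h13; omega) H.d06
  · exact absurd (by clear * - h01 h25 h02 h13; omega) H.d26
  · exact absurd (by clear * - h01 h25 h02 h13; omega) H.d46
  · exact absurd (by clear * - h01 h13; omega) H.d03
  · rcases H.e12 with h12 | h12 | h12 | h12 | h12 | h12 | h12
    · rcases H.e03 with h03 | h03 | h03 | h03 | h03 | h03 | h03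
      · exact absurd (by clear * - h13 h12 h03; omega) H.n261
      · exact absurd (by clear * - h02 h13 h12 h03; omega) H.d06
      · exact absurd (by clear * - h13 h12 h03; omega) H.n264
      · exact absurd (by clear * - h25 h13 h12 h03; omega) H.d01
      · exact absurd (by clear * - h13 h03; omega) H.d01
      · exact absurd (by clear * - h13 h12 h03; omega) H.n267
      · exact absurd (by clear * - h13 h12 h03; omega) H.n268
    · exact absurd (by clear * - h02 h12; omega) H.d01
    · rcases H.e16 with h16 | h16 | h16 | h16 | h16 | h16 | h16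
      · exact absurd (by clear * - h25 h12 h16; omega) H.n450
      · exact absurd (by clear * - h25 h12 h16; omega) H.n452
      · exact absurd (by clear * - h25 h02 h13 h16; omega) H.d05
      · exact absurd (by clear * - h12 h16; omega) H.d26
      · exact absurd (by clear * - h25 h02 h13 h16; omega) H.d06
      · exact absurd (by clear * - h25 h12 h16; omega) H.n457
      · exact absurd (by clear * - h25 h12 h16; omega) H.n458
    · exact absurd (by clear * - h25 h02 h13 h12; omega) H.d02
    · exact absurd (by clear * - h25 h12; omega) H.d15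
    · rcases H.e16 with h16 | h16 | h16 | h16 | h16 | h16 | h16
      · exact absurd (by clear * - h25 h12 h16; omega) H.n570
      · exact absurd (by clear * - h25 h13 h16; omega) H.n563
      · exact absurd (by clear * - h25 h02 h13 h16; omega) H.d05
      · exact absurd (by clear * - h25 h12 h16; omega) H.n574
      · exact absurd (by clear * - h25 h02 h13 h16; omega) H.d06
      · exact absurd (by clear * - h12 h16; omega) H.d26
      · exact absurd (by clear * - h25 h12 h16; omega) H.n578
    · exact absurd (by clear * - h02 h13 h12; omega) H.n086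
  · exact absurd (by clear * - h01 h25 h02 h13; omega) H.d67
  · exact absurd (by clear * - h01 h25 h02 h13; omega) H.d68

theorem sub47 {x0 x1 x2 x3 x4 x5 x6 x7 x8 : ℕ} (H : Hyp x0 x1 x2 x3 x4 x5 x6 x7 x8)
    (h01 : x0 + x1 = x5) (h25 : x2 + x5 = x6) (h02 : x0 + x2 = x4) :
    2 * x1 = 3 * x0 ∧ x2 = 2 * x0 ∧ 2 * x3 = 5 * x0 ∧ x4 = 3 * x0 ∧ 2 * x5 = 7 * x0 ∧
      x6 = 4 * x0 ∧ 2 * x7 = 9 * x0 ∧ 2 * x8 = 11 * x0 := by
  rcases H.e14 with h14 | h14 | h14 | h14 | h14 | h14 | h14
  · exact absurd (by clear * - h01 h25 h02 h14; omega) H.d06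
  · exact absurd (by clear * - h01 h25 h02 h14; omega) H.d26
  · exact absurd (by clear * - h01 h25 h02 h14; omega) H.d36
  · exact absurd (by clear * - h01 h14; omega) H.d04
  · rcases H.e12 with h12 | h12 | h12 | h12 | h12 | h12 | h12
    · rcases H.e04 with h04 | h04 | h04 | h04 | h04 | h04 | h04
      · exact absurd (by clear * - h14 h12 h04; omega) H.n261
      · exact absurd (by clear * - h02 h14 h12 h04; omega) H.d06
      · exact absurd (by clear * - h14 h12 h04; omega) H.n263
      · exact absurd (by clear * - h25 h14 h12 h04; omega) H.d01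
      · exact absurd (by clear * - h14 h04; omega) H.d01
      · exact absurd (by clear * - h14 h12 h04; omega) H.n267
      · exact absurd (by clear * - h14 h12 h04; omega) H.n268
    · rcases H.e16 with h16 | h16 | h16 | h16 | h16 | h16 | h16
      · exact absurd (by clear * - h25 h12 h16; omega) H.n350
      · exact absurd (by clear * - h25 h12 h16; omega) H.n352
      · exact absurd (by clear * - h12 h16; omega) H.d26
      · exact absurd (by clear * - h25 h02 h14 h16; omega) H.d05
      · exact absurd (by clear * - h25 h02 h14 h16; omega) H.d06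
      · exact absurd (by clear * - h25 h12 h16; omega) H.n357
      · exact absurd (by clear * - h25 h12 h16; omega) H.n358
    · exact absurd (by clear * - h02 h12; omega) H.d01
    · exact absurd (by clear * - h25 h02 h14 h12; omega) H.d02
    · exact absurd (by clear * - h25 h12; omega) H.d15
    · rcases H.e16 with h16 | h16 | h16 | h16 | h16 | h16 | h16
      · exact absurd (by clear * - h25 h12 h16; omega) H.n570
      · exact absurd (by clear * - h25 h14 h16; omega) H.n564
      · exact absurd (by clear * - h25 h12 h16; omega) H.n573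
      · exact absurd (by clear * - h25 h02 h14 h16; omega) H.d05
      · exact absurd (by clear * - h25 h02 h14 h16; omega) H.d06
      · exact absurd (by clear * - h12 h16; omega) H.d26
      · exact absurd (by clear * - h25 h12 h16; omega) H.n578
    · exact absurd (by clear * - h02 h14 h12; omega) H.n086
  · exact absurd (by clear * - h01 h25 h02 h14; omega) H.d67
  · exact absurd (by clear * - h01 h25 h02 h14; omega) H.d68

theorem sub48 {x0 x1 x2 x3 x4 x5 x6 x7 x8 : ℕ} (H : Hyp x0 x1 x2 x3 x4 x5 x6 x7 x8)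
    (h01 : x0 + x1 = x5) (h25 : x2 + x5 = x7) (h12 : x1 + x2 = x0) :
    2 * x1 = 3 * x0 ∧ x2 = 2 * x0 ∧ 2 * x3 = 5 * x0 ∧ x4 = 3 * x0 ∧ 2 * x5 = 7 * x0 ∧
      x6 = 4 * x0 ∧ 2 * x7 = 9 * x0 ∧ 2 * x8 = 11 * x0 := by
  rcases H.e05 with h05 | h05 | h05 | h05 | h05 | h05 | h05
  · exact absurd (by clear * - h01 h25 h12 h05; omega) H.d07
  · exact absurd (by clear * - h25 h12 h05; omega) H.n172
  · exact absurd (by clear * - h25 h12 h05; omega) H.n173
  · exact absurd (by clear * - h25 h12 h05; omega) H.n174
  · exact absurd (by clear * - h25 h12 h05; omega) H.n176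
  · exact absurd (by clear * - h25 h05; omega) H.d02
  · exact absurd (by clear * - h25 h12 h05; omega) H.n178

theorem sub49 {x0 x1 x2 x3 x4 x5 x6 x7 x8 : ℕ} (H : Hyp x0 x1 x2 x3 x4 x5 x6 x7 x8)
    (h01 : x0 + x1 = x5) (h25 : x2 + x5 = x7) (h12 : x1 + x2 = x3) :
    2 * x1 = 3 * x0 ∧ x2 = 2 * x0 ∧ 2 * x3 = 5 * x0 ∧ x4 = 3 * x0 ∧ 2 * x5 = 7 * x0 ∧
      x6 = 4 * x0 ∧ 2 * x7 = 9 * x0 ∧ 2 * x8 = 11 * x0 := by
  rcases H.e03 with h03 | h03 | h03 | h03 | h03 | h03 | h03
  · exact absurd (by clear * - h01 h25 h12 h03; omega) H.d17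
  · exact absurd (by clear * - h01 h25 h12 h03; omega) H.d27
  · exact absurd (by clear * - h01 h25 h12 h03; omega) H.d47
  · exact absurd (by clear * - h01 h03; omega) H.d13
  · exact absurd (by clear * - h01 h25 h12 h03; omega) H.d67
  · rcases H.e02 with h02 | h02 | h02 | h02 | h02 | h02 | h02
    · rcases H.e07 with h07 | h07 | h07 | h07 | h07 | h07 | h07
      · exact absurd (by clear * - h02 h07; omega) H.d27
      · exact absurd (by clear * - h25 h02 h07; omega) H.n152
      · exact absurd (by clear * - h03 h02 h07; omega) H.d12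
      · exact absurd (by clear * - h25 h02 h07; omega) H.n154
      · exact absurd (by clear * - h25 h12 h03 h02 h07; omega) H.d05
      · exact absurd (by clear * - h25 h02 h07; omega) H.n156
      · exact absurd (by clear * - h25 h02 h07; omega) H.n158
    · exact absurd (by clear * - h12 h02; omega) H.d01
    · rcases H.e07 with h07 | h07 | h07 | h07 | h07 | h07 | h07
      · exact absurd (by clear * - h25 h02 h07; omega) H.n451
      · exact absurd (by clear * - h25 h02 h07; omega) H.n452
      · exact absurd (by clear * - h25 h12 h03 h07; omega) H.d15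
      · exact absurd (by clear * - h02 h07; omega) H.d27
      · exact absurd (by clear * - h25 h12 h03 h07; omega) H.d17
      · exact absurd (by clear * - h25 h02 h07; omega) H.n456
      · exact absurd (by clear * - h25 h02 h07; omega) H.n458
    · exact absurd (by clear * - h25 h12 h03 h02; omega) H.d12
    · rcases H.e07 with h07 | h07 | h07 | h07 | h07 | h07 | h07
      · exact absurd (by clear * - h25 h02 h07; omega) H.n561
      · exact absurd (by clear * - h25 h02 h07; omega) H.n562
      · exact absurd (by clear * - h25 h12 h03 h07; omega) H.d15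
      · exact absurd (by clear * - h25 h02 h07; omega) H.n564
      · exact absurd (by clear * - h25 h12 h03 h07; omega) H.d17
      · exact absurd (by clear * - h02 h07; omega) H.d27
      · exact absurd (by clear * - h25 h02 h07; omega) H.n568
    · exact absurd (by clear * - h25 h02; omega) H.d05
    · exact absurd (by clear * - h12 h03 h02; omega) H.n187
  · exact absurd (by clear * - h01 h25 h12 h03; omega) H.d78

theorem sub50 {x0 x1 x2 x3 x4 x5 x6 x7 x8 : ℕ} (H : Hyp x0 x1 x2 x3 x4 x5 x6 x7 x8)
    (h01 : x0 + x1 = x5) (h25 : x2 + x5 = x7) (h12 : x1 + x2 = x4) :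
    2 * x1 = 3 * x0 ∧ x2 = 2 * x0 ∧ 2 * x3 = 5 * x0 ∧ x4 = 3 * x0 ∧ 2 * x5 = 7 * x0 ∧
      x6 = 4 * x0 ∧ 2 * x7 = 9 * x0 ∧ 2 * x8 = 11 * x0 := by
  rcases H.e04 with h04 | h04 | h04 | h04 | h04 | h04 | h04
  · exact absurd (by clear * - h01 h25 h12 h04; omega) H.d17
  · exact absurd (by clear * - h01 h25 h12 h04; omega) H.d27
  · exact absurd (by clear * - h01 h25 h12 h04; omega) H.d37
  · exact absurd (by clear * - h01 h04; omega) H.d14
  · exact absurd (by clear * - h01 h25 h12 h04; omega) H.d67
  · rcases H.e02 with h02 | h02 | h02 | h02 | h02 | h02 | h02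
    · rcases H.e07 with h07 | h07 | h07 | h07 | h07 | h07 | h07
      · exact absurd (by clear * - h02 h07; omega) H.d27
      · exact absurd (by clear * - h25 h02 h07; omega) H.n152
      · exact absurd (by clear * - h25 h02 h07; omega) H.n153
      · exact absurd (by clear * - h04 h02 h07; omega) H.d12
      · exact absurd (by clear * - h25 h12 h04 h02 h07; omega) H.d05
      · exact absurd (by clear * - h25 h02 h07; omega) H.n156
      · exact absurd (by clear * - h25 h02 h07; omega) H.n158
    · rcases H.e07 with h07 | h07 | h07 | h07 | h07 | h07 | h07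
      · exact absurd (by clear * - h25 h02 h07; omega) H.n351
      · exact absurd (by clear * - h25 h02 h07; omega) H.n352
      · exact absurd (by clear * - h02 h07; omega) H.d27
      · exact absurd (by clear * - h25 h12 h04 h07; omega) H.d15
      · exact absurd (by clear * - h25 h12 h04 h07; omega) H.d17
      · exact absurd (by clear * - h25 h02 h07; omega) H.n356
      · exact absurd (by clear * - h25 h02 h07; omega) H.n358
    · exact absurd (by clear * - h12 h02; omega) H.d01
    · exact absurd (by clear * - h25 h12 h04 h02; omega) H.d12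
    · rcases H.e07 with h07 | h07 | h07 | h07 | h07 | h07 | h07
      · exact absurd (by clear * - h25 h02 h07; omega) H.n561
      · exact absurd (by clear * - h25 h02 h07; omega) H.n562
      · exact absurd (by clear * - h25 h02 h07; omega) H.n563
      · exact absurd (by clear * - h25 h12 h04 h07; omega) H.d15
      · exact absurd (by clear * - h25 h12 h04 h07; omega) H.d17
      · exact absurd (by clear * - h02 h07; omega) H.d27
      · exact absurd (by clear * - h25 h02 h07; omega) H.n568
    · exact absurd (by clear * - h25 h02; omega) H.d05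
    · exact absurd (by clear * - h12 h04 h02; omega) H.n187
  · exact absurd (by clear * - h01 h25 h12 h04; omega) H.d78

theorem sub51 {x0 x1 x2 x3 x4 x5 x6 x7 x8 : ℕ} (H : Hyp x0 x1 x2 x3 x4 x5 x6 x7 x8)
    (h01 : x0 + x1 = x5) (h25 : x2 + x5 = x8) (h02 : x0 + x2 = x1) :
    2 * x1 = 3 * x0 ∧ x2 = 2 * x0 ∧ 2 * x3 = 5 * x0 ∧ x4 = 3 * x0 ∧ 2 * x5 = 7 * x0 ∧
      x6 = 4 * x0 ∧ 2 * x7 = 9 * x0 ∧ 2 * x8 = 11 * x0 := by
  rcases H.e12 with h12 | h12 | h12 | h12 | h12 | h12 | h12
  · exact absurd (by clear * - h02 h12; omega) H.d01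
  · rcases H.e13 with h13 | h13 | h13 | h13 | h13 | h13 | h13
    · exact absurd (by clear * - h01 h25 h02 h12 h13; omega) H.n280
    · exact absurd (by clear * - h01 h12 h13; omega) H.d05
    · exact absurd (by clear * - h01 h25 h02 h12 h13; omega) H.n284
    · exact absurd (by clear * - h01 h02 h12 h13; omega) H.d01
    · exact absurd (by clear * - h01 h25 h02 h12 h13; omega) H.n286
    · exact absurd (by clear * - h01 h25 h02 h12 h13; omega) H.n287
    · exact absurd (by clear * - h01 h25 h12 h13; omega) H.d01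
  · rcases H.e14 with h14 | h14 | h14 | h14 | h14 | h14 | h14
    · exact absurd (by clear * - h01 h25 h02 h12 h14; omega) H.n280
    · exact absurd (by clear * - h01 h12 h14; omega) H.d05
    · exact absurd (by clear * - h01 h25 h02 h12 h14; omega) H.n283
    · exact absurd (by clear * - h01 h02 h12 h14; omega) H.d01
    · exact absurd (by clear * - h01 h25 h02 h12 h14; omega) H.n286
    · exact absurd (by clear * - h01 h25 h02 h12 h14; omega) H.n287
    · exact absurd (by clear * - h01 h25 h12 h14; omega) H.d01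
  · exact absurd (by clear * - h01 h12; omega) H.d02
  · exact absurd (by clear * - h01 h25 h12; omega) H.n068
  · rcases H.e07 with h07 | h07 | h07 | h07 | h07 | h07 | h07
    · exact absurd (by clear * - h01 h02 h12 h07; omega) H.d05
    · exact absurd (by clear * - h01 h25 h12 h07; omega) H.d28
    · exact absurd (by clear * - h01 h25 h12 h07; omega) H.d38
    · exact absurd (by clear * - h01 h25 h12 h07; omega) H.d48
    · exact absurd (by clear * - h01 h02 h12 h07; omega) H.d01
    · exact absurd (by clear * - h01 h25 h12 h07; omega) H.d68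
    · rcases H.e13 with h13 | h13 | h13 | h13 | h13 | h13 | h13
      · exact absurd (by clear * - h02 h12 h13; omega) H.n371
      · exact absurd (by clear * - h25 h02 h12 h07 h13; omega) H.n351
      · rcases H.e03 with h03 | h03 | h03 | h03 | h03 | h03 | h03
        · exact absurd (by clear * - h02 h03; omega) H.d23
        · exact absurd (by clear * - h25 h07 h03; omega) H.n357
        · exact absurd (by clear * - h13 h03; omega) H.d01
        · exact absurd (by clear * - h25 h12 h07 h03; omega) H.d13
        · exact absurd (by clear * - h02 h13 h03; omega) H.n264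
        · exact absurd (by clear * - h02 h13 h03; omega) H.n274
        · exact absurd (by clear * - h07 h03; omega) H.d37
      · exact absurd (by clear * - h25 h12 h07 h13; omega) H.d03
      · rcases H.e03 with h03 | h03 | h03 | h03 | h03 | h03 | h03
        · exact absurd (by clear * - h02 h03; omega) H.d23
        · exact absurd (by clear * - h12 h13 h03; omega) H.n067
        · exact absurd (by clear * - h02 h13 h03; omega) H.n246
        · exact absurd (by clear * - h25 h12 h07 h03; omega) H.d13
        · exact absurd (by clear * - h13 h03; omega) H.d01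
        · exact absurd (by clear * - h02 h13 h03; omega) H.n276
        · exact absurd (by clear * - h07 h03; omega) H.d37
      · exact absurd (by clear * - h12 h13; omega) H.d23
      · exact absurd (by clear * - h02 h12 h07 h13; omega) H.d13
  · exact absurd (by clear * - h01 h25 h02 h12; omega) H.d12

theorem sub52 {x0 x1 x2 x3 x4 x5 x6 x7 x8 : ℕ} (H : Hyp x0 x1 x2 x3 x4 x5 x6 x7 x8)
    (h01 : x0 + x1 = x5) (h25 : x2 + x5 = x8) (h02 : x0 + x2 = x3) :
    2 * x1 = 3 * x0 ∧ x2 = 2 * x0 ∧ 2 * x3 = 5 * x0 ∧ x4 = 3 * x0 ∧ 2 * x5 = 7 * x0 ∧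
      x6 = 4 * x0 ∧ 2 * x7 = 9 * x0 ∧ 2 * x8 = 11 * x0 := by
  rcases H.e13 with h13 | h13 | h13 | h13 | h13 | h13 | h13
  · exact absurd (by clear * - h01 h25 h02 h13; omega) H.d08
  · exact absurd (by clear * - h01 h25 h02 h13; omega) H.d28
  · exact absurd (by clear * - h01 h25 h02 h13; omega) H.d48
  · exact absurd (by clear * - h01 h13; omega) H.d03
  · exact absurd (by clear * - h01 h25 h02 h13; omega) H.d68
  · exact absurd (by clear * - h01 h25 h02 h13; omega) H.d78
  · rcases H.e12 with h12 | h12 | h12 | h12 | h12 | h12 | h12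
    · rcases H.e03 with h03 | h03 | h03 | h03 | h03 | h03 | h03
      · exact absurd (by clear * - h13 h12 h03; omega) H.n281
      · exact absurd (by clear * - h02 h13 h12 h03; omega) H.d08
      · exact absurd (by clear * - h13 h12 h03; omega) H.n284
      · exact absurd (by clear * - h25 h13 h12 h03; omega) H.d01
      · exact absurd (by clear * - h13 h12 h03; omega) H.n286
      · exact absurd (by clear * - h13 h12 h03; omega) H.n287
      · exact absurd (by clear * - h13 h03; omega) H.d01
    · exact absurd (by clear * - h02 h12; omega) H.d01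
    · rcases H.e34 with h34 | h34 | h34 | h34 | h34 | h34 | h34
      · exact absurd (by clear * - h13 h12 h34; omega) H.n280
      · exact absurd (by clear * - h13 h12 h34; omega) H.n281
      · exact absurd (by clear * - h13 h12 h34; omega) H.n080
      · exact absurd (by clear * - h25 h02 h13 h12 h34; omega) H.d03
      · exact absurd (by clear * - h13 h12 h34; omega) H.n286
      · exact absurd (by clear * - h13 h12 h34; omega) H.n287
      · exact absurd (by clear * - h02 h13 h12 h34; omega) H.d03
    · exact absurd (by clear * - h25 h02 h13 h12; omega) H.d02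
    · exact absurd (by clear * - h02 h13 h12; omega) H.n068
    · rcases H.e07 with h07 | h07 | h07 | h07 | h07 | h07 | h07
      · exact absurd (by clear * - h02 h13 h12 h07; omega) H.d18
      · exact absurd (by clear * - h02 h13 h12 h07; omega) H.d28
      · exact absurd (by clear * - h25 h02 h13 h12 h07; omega) H.d05
      · exact absurd (by clear * - h02 h13 h12 h07; omega) H.d48
      · exact absurd (by clear * - h25 h02 h13 h12 h07; omega) H.d03
      · exact absurd (by clear * - h02 h13 h12 h07; omega) H.d68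
      · rcases H.e14 with h14 | h14 | h14 | h14 | h14 | h14 | h14
        · exact absurd (by clear * - h13 h07 h14; omega) H.n473
        · exact absurd (by clear * - h25 h13 h14; omega) H.n453
        · rcases H.e03 with h03 | h03 | h03 | h03 | h03 | h03 | h03
          · exact absurd (by clear * - h25 h12 h07 h14 h03; omega) H.n451
          · exact absurd (by clear * - h25 h13 h12 h07 h03; omega) H.d15
          · exact absurd (by clear * - h12 h07 h14 h03; omega) H.d28
          · exact absurd (by clear * - h25 h12 h07 h03; omega) H.d13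
          · exact absurd (by clear * - h25 h12 h07 h14 h03; omega) H.n456
          · exact absurd (by clear * - h25 h12 h07 h14 h03; omega) H.n457
          · exact absurd (by clear * - h13 h03; omega) H.d01
        · exact absurd (by clear * - h25 h12 h07 h14; omega) H.d04
        · rcases H.e16 with h16 | h16 | h16 | h16 | h16 | h16 | h16
          · exact absurd (by clear * - h13 h07 h16; omega) H.n673
          · exact absurd (by clear * - h25 h13 h16; omega) H.n563
          · rcases H.e03 with h03 | h03 | h03 | h03 | h03 | h03 | h03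
            · exact absurd (by clear * - h13 h12 h07 h16 h03; omega) H.n362
            · exact absurd (by clear * - h25 h13 h12 h07 h03; omega) H.d15
            · exact absurd (by clear * - h13 h14 h03; omega) H.n086
            · exact absurd (by clear * - h25 h12 h07 h03; omega) H.d13
            · exact absurd (by clear * - h12 h07 h16 h03; omega) H.d28
            · exact absurd (by clear * - h12 h16 h03; omega) H.n062
            · exact absurd (by clear * - h13 h03; omega) H.d01
          · exact absurd (by clear * - h25 h12 h07 h14 h16; omega) H.d05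
          · exact absurd (by clear * - h25 h12 h07 h16; omega) H.d06
          · exact absurd (by clear * - h12 h16; omega) H.d26
          · exact absurd (by clear * - h13 h16; omega) H.d36
        · exact absurd (by clear * - h12 h14; omega) H.d24
        · exact absurd (by clear * - h13 h14; omega) H.d34
    · exact absurd (by clear * - h25 h12; omega) H.d15

theorem sub53 {x0 x1 x2 x3 x4 x5 x6 x7 x8 : ℕ} (H : Hyp x0 x1 x2 x3 x4 x5 x6 x7 x8)
    (h01 : x0 + x1 = x5) (h25 : x2 + x5 = x8) (h02 : x0 + x2 = x4) :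
    2 * x1 = 3 * x0 ∧ x2 = 2 * x0 ∧ 2 * x3 = 5 * x0 ∧ x4 = 3 * x0 ∧ 2 * x5 = 7 * x0 ∧
      x6 = 4 * x0 ∧ 2 * x7 = 9 * x0 ∧ 2 * x8 = 11 * x0 := by
  rcases H.e14 with h14 | h14 | h14 | h14 | h14 | h14 | h14
  · exact absurd (by clear * - h01 h25 h02 h14; omega) H.d08
  · exact absurd (by clear * - h01 h25 h02 h14; omega) H.d28
  · exact absurd (by clear * - h01 h25 h02 h14; omega) H.d38
  · exact absurd (by clear * - h01 h14; omega) H.d04
  · exact absurd (by clear * - h01 h25 h02 h14; omega) H.d68
  · exact absurd (by clear * - h01 h25 h02 h14; omega) H.d78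
  · rcases H.e12 with h12 | h12 | h12 | h12 | h12 | h12 | h12
    · rcases H.e04 with h04 | h04 | h04 | h04 | h04 | h04 | h04
      · exact absurd (by clear * - h14 h12 h04; omega) H.n281
      · exact absurd (by clear * - h02 h14 h12 h04; omega) H.d08
      · exact absurd (by clear * - h14 h12 h04; omega) H.n283
      · exact absurd (by clear * - h25 h14 h12 h04; omega) H.d01
      · exact absurd (by clear * - h14 h12 h04; omega) H.n286
      · exact absurd (by clear * - h14 h12 h04; omega) H.n287
      · exact absurd (by clear * - h14 h04; omega) H.d01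
    · rcases H.e34 with h34 | h34 | h34 | h34 | h34 | h34 | h34
      · exact absurd (by clear * - h14 h12 h34; omega) H.n280
      · exact absurd (by clear * - h14 h12 h34; omega) H.n281
      · exact absurd (by clear * - h14 h12 h34; omega) H.n080
      · exact absurd (by clear * - h25 h02 h14 h12 h34; omega) H.d04
      · exact absurd (by clear * - h14 h12 h34; omega) H.n286
      · exact absurd (by clear * - h14 h12 h34; omega) H.n287
      · exact absurd (by clear * - h02 h14 h12 h34; omega) H.d04
    · exact absurd (by clear * - h02 h12; omega) H.d01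
    · exact absurd (by clear * - h25 h02 h14 h12; omega) H.d02
    · exact absurd (by clear * - h02 h14 h12; omega) H.n068
    · rcases H.e07 with h07 | h07 | h07 | h07 | h07 | h07 | h07
      · exact absurd (by clear * - h02 h14 h12 h07; omega) H.d18
      · exact absurd (by clear * - h02 h14 h12 h07; omega) H.d28
      · exact absurd (by clear * - h02 h14 h12 h07; omega) H.d38
      · exact absurd (by clear * - h25 h02 h14 h12 h07; omega) H.d05
      · exact absurd (by clear * - h25 h02 h14 h12 h07; omega) H.d04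
      · exact absurd (by clear * - h02 h14 h12 h07; omega) H.d68
      · rcases H.e13 with h13 | h13 | h13 | h13 | h13 | h13 | h13
        · exact absurd (by clear * - h14 h07 h13; omega) H.n374
        · exact absurd (by clear * - h25 h14 h13; omega) H.n354
        · rcases H.e04 with h04 | h04 | h04 | h04 | h04 | h04 | h04
          · exact absurd (by clear * - h25 h12 h07 h13 h04; omega) H.n351
          · exact absurd (by clear * - h25 h14 h12 h07 h04; omega) H.d15
          · exact absurd (by clear * - h12 h07 h13 h04; omega) H.d28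
          · exact absurd (by clear * - h25 h12 h07 h04; omega) H.d14
          · exact absurd (by clear * - h25 h12 h07 h13 h04; omega) H.n356
          · exact absurd (by clear * - h25 h12 h07 h13 h04; omega) H.n357
          · exact absurd (by clear * - h14 h04; omega) H.d01
        · exact absurd (by clear * - h25 h12 h07 h13; omega) H.d03
        · rcases H.e16 with h16 | h16 | h16 | h16 | h16 | h16 | h16
          · exact absurd (by clear * - h14 h07 h16; omega) H.n674
          · exact absurd (by clear * - h25 h14 h16; omega) H.n564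
          · exact absurd (by clear * - h25 h12 h07 h13 h16; omega) H.d05
          · rcases H.e04 with h04 | h04 | h04 | h04 | h04 | h04 | h04
            · exact absurd (by clear * - h12 h07 h13 h16 h04; omega) H.n382
            · exact absurd (by clear * - h25 h14 h12 h07 h04; omega) H.d15
            · exact absurd (by clear * - h14 h13 h04; omega) H.n086
            · exact absurd (by clear * - h25 h12 h07 h04; omega) H.d14
            · exact absurd (by clear * - h12 h07 h16 h04; omega) H.d28
            · exact absurd (by clear * - h12 h16 h04; omega) H.n062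
            · exact absurd (by clear * - h14 h04; omega) H.d01
          · exact absurd (by clear * - h25 h12 h07 h16; omega) H.d06
          · exact absurd (by clear * - h12 h16; omega) H.d26
          · exact absurd (by clear * - h14 h16; omega) H.d46
        · exact absurd (by clear * - h12 h13; omega) H.d23
        · exact absurd (by clear * - h14 h13; omega) H.d34
    · exact absurd (by clear * - h25 h12; omega) H.d15

theorem sub54 {x0 x1 x2 x3 x4 x5 x6 x7 x8 : ℕ} (H : Hyp x0 x1 x2 x3 x4 x5 x6 x7 x8)
    (h01 : x0 + x1 = x5) (h25 : x2 + x5 = x8) (h02 : x0 + x2 = x6) :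
    2 * x1 = 3 * x0 ∧ x2 = 2 * x0 ∧ 2 * x3 = 5 * x0 ∧ x4 = 3 * x0 ∧ 2 * x5 = 7 * x0 ∧
      x6 = 4 * x0 ∧ 2 * x7 = 9 * x0 ∧ 2 * x8 = 11 * x0 := by
  rcases H.e16 with h16 | h16 | h16 | h16 | h16 | h16 | h16
  · exact absurd (by clear * - h01 h25 h02 h16; omega) H.d08
  · exact absurd (by clear * - h01 h25 h02 h16; omega) H.d28
  · exact absurd (by clear * - h01 h25 h02 h16; omega) H.d38
  · exact absurd (by clear * - h01 h25 h02 h16; omega) H.d48
  · exact absurd (by clear * - h01 h16; omega) H.d06
  · exact absurd (by clear * - h01 h25 h02 h16; omega) H.d78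
  · rcases H.e05 with h05 | h05 | h05 | h05 | h05 | h05 | h05
    · exact absurd (by clear * - h25 h02 h16 h05; omega) H.d15
    · rcases H.e23 with h23 | h23 | h23 | h23 | h23 | h23 | h23
      · exact absurd (by clear * - h25 h05 h23; omega) H.n382
      · exact absurd (by clear * - h25 h16 h23; omega) H.n365
      · rcases H.e03 with h03 | h03 | h03 | h03 | h03 | h03 | h03
        · exact absurd (by clear * - h05 h23 h03; omega) H.n154
        · exact absurd (by clear * - h05 h03; omega) H.d35
        · exact absurd (by clear * - h23 h03; omega) H.d02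
        · exact absurd (by clear * - h25 h02 h16 h03; omega) H.d13
        · exact absurd (by clear * - h02 h03; omega) H.d23
        · exact absurd (by clear * - h05 h23 h03; omega) H.n574
        · exact absurd (by clear * - h05 h23 h03; omega) H.n584
      · exact absurd (by clear * - h25 h02 h16 h05 h23; omega) H.n351
      · exact absurd (by clear * - h02 h23; omega) H.d03
      · rcases H.e03 with h03 | h03 | h03 | h03 | h03 | h03 | h03
        · exact absurd (by clear * - h05 h23 h03; omega) H.n157
        · exact absurd (by clear * - h05 h03; omega) H.d35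
        · exact absurd (by clear * - h05 h23 h03; omega) H.n457
        · exact absurd (by clear * - h25 h02 h16 h03; omega) H.d13
        · exact absurd (by clear * - h02 h03; omega) H.d23
        · exact absurd (by clear * - h23 h03; omega) H.d02
        · exact absurd (by clear * - h05 h23 h03; omega) H.n587
      · exact absurd (by clear * - h25 h23; omega) H.d35
    · rcases H.e23 with h23 | h23 | h23 | h23 | h23 | h23 | h23
      · exact absurd (by clear * - h25 h05 h23; omega) H.n080
      · exact absurd (by clear * - h25 h05 h23; omega) H.n081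
      · exact absurd (by clear * - h25 h05 h23; omega) H.n084
      · exact absurd (by clear * - h02 h16 h05 h23; omega) H.d18
      · exact absurd (by clear * - h02 h23; omega) H.d03
      · exact absurd (by clear * - h25 h05 h23; omega) H.n087
      · exact absurd (by clear * - h25 h02 h16 h05 h23; omega) H.d13
    · rcases H.e14 with h14 | h14 | h14 | h14 | h14 | h14 | h14
      · exact absurd (by clear * - h25 h05 h14; omega) H.n182
      · exact absurd (by clear * - h25 h16 h14; omega) H.n456
      · rcases H.e03 with h03 | h03 | h03 | h03 | h03 | h03 | h03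
        · exact absurd (by clear * - h25 h02 h16 h14 h03; omega) H.n451
        · exact absurd (by clear * - h25 h02 h16 h14 h03; omega) H.n452
        · exact absurd (by clear * - h25 h02 h16 h05 h14 h03; omega) H.d04
        · exact absurd (by clear * - h25 h02 h16 h03; omega) H.d13
        · exact absurd (by clear * - h02 h03; omega) H.d23
        · exact absurd (by clear * - h25 h02 h16 h14 h03; omega) H.n457
        · exact absurd (by clear * - h02 h16 h14 h03; omega) H.d24
      · exact absurd (by clear * - h25 h02 h16 h14; omega) H.d04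
      · exact absurd (by clear * - h02 h05 h14; omega) H.n152
      · rcases H.e07 with h07 | h07 | h07 | h07 | h07 | h07 | h07
        · exact absurd (by clear * - h25 h02 h16 h14 h07; omega) H.n451
        · exact absurd (by clear * - h25 h02 h16 h14 h07; omega) H.n452
        · exact absurd (by clear * - h25 h02 h16 h14 h07; omega) H.n453
        · exact absurd (by clear * - h25 h02 h16 h05 h14 h07; omega) H.d04
        · exact absurd (by clear * - h25 h02 h16 h07; omega) H.d17
        · exact absurd (by clear * - h02 h07; omega) H.d27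
        · exact absurd (by clear * - h02 h16 h14 h07; omega) H.d24
      · exact absurd (by clear * - h02 h16 h05 h14; omega) H.d25
    · exact absurd (by clear * - h02 h05; omega) H.d25
    · rcases H.e23 with h23 | h23 | h23 | h23 | h23 | h23 | h23
      · exact absurd (by clear * - h25 h05 h23; omega) H.n387
      · exact absurd (by clear * - h25 h16 h23; omega) H.n365
      · rcases H.e04 with h04 | h04 | h04 | h04 | h04 | h04 | h04
        · exact absurd (by clear * - h02 h23 h04; omega) H.n361
        · exact absurd (by clear * - h25 h02 h16 h23 h04; omega) H.n351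
        · exact absurd (by clear * - h02 h16 h23 h04; omega) H.d18
        · exact absurd (by clear * - h25 h02 h16 h04; omega) H.d14
        · exact absurd (by clear * - h02 h04; omega) H.d24
        · exact absurd (by clear * - h05 h04; omega) H.d45
        · exact absurd (by clear * - h02 h16 h23 h04; omega) H.d13
      · exact absurd (by clear * - h02 h05 h23; omega) H.n367
      · exact absurd (by clear * - h02 h23; omega) H.d03
      · rcases H.e07 with h07 | h07 | h07 | h07 | h07 | h07 | h07
        · exact absurd (by clear * - h25 h02 h16 h05 h07; omega) H.d15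
        · exact absurd (by clear * - h25 h02 h16 h23 h07; omega) H.n351
        · exact absurd (by clear * - h02 h16 h23 h07; omega) H.d18
        · exact absurd (by clear * - h02 h23 h07; omega) H.n364
        · exact absurd (by clear * - h25 h02 h16 h05 h07; omega) H.d15
        · exact absurd (by clear * - h02 h07; omega) H.d27
        · exact absurd (by clear * - h02 h16 h23 h07; omega) H.d13
      · exact absurd (by clear * - h25 h23; omega) H.d35
    · exact absurd (by clear * - h25 h05; omega) H.d02

theorem sub55 {x0 x1 x2 x3 x4 x5 x6 x7 x8 : ℕ} (H : Hyp x0 x1 x2 x3 x4 x5 x6 x7 x8)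
    (h01 : x0 + x1 = x6) (h02 : x0 + x2 = x1) (h13 : x1 + x3 = x4) :
    2 * x1 = 3 * x0 ∧ x2 = 2 * x0 ∧ 2 * x3 = 5 * x0 ∧ x4 = 3 * x0 ∧ 2 * x5 = 7 * x0 ∧
      x6 = 4 * x0 ∧ 2 * x7 = 9 * x0 ∧ 2 * x8 = 11 * x0 := by
  rcases H.e04 with h04 | h04 | h04 | h04 | h04 | h04 | h04
  · exact absurd (by clear * - h02 h04; omega) H.d24
  · exact absurd (by clear * - h01 h13 h04; omega) H.n362
  · exact absurd (by clear * - h01 h13 h04; omega) H.n060
  · exact absurd (by clear * - h01 h13 h04; omega) H.n365
  · exact absurd (by clear * - h01 h04; omega) H.d14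
  · exact absurd (by clear * - h01 h13 h04; omega) H.n367
  · exact absurd (by clear * - h01 h13 h04; omega) H.n368

theorem sub56 {x0 x1 x2 x3 x4 x5 x6 x7 x8 : ℕ} (H : Hyp x0 x1 x2 x3 x4 x5 x6 x7 x8)
    (h01 : x0 + x1 = x6) (h02 : x0 + x2 = x1) (h13 : x1 + x3 = x5) :
    2 * x1 = 3 * x0 ∧ x2 = 2 * x0 ∧ 2 * x3 = 5 * x0 ∧ x4 = 3 * x0 ∧ 2 * x5 = 7 * x0 ∧
      x6 = 4 * x0 ∧ 2 * x7 = 9 * x0 ∧ 2 * x8 = 11 * x0 := by
  rcases H.e05 with h05 | h05 | h05 | h05 | h05 | h05 | h05
  · exact absurd (by clear * - h02 h05; omega) H.d25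
  · exact absurd (by clear * - h01 h13 h05; omega) H.n362
  · exact absurd (by clear * - h01 h13 h05; omega) H.n060
  · exact absurd (by clear * - h01 h13 h05; omega) H.n364
  · exact absurd (by clear * - h01 h05; omega) H.d15
  · exact absurd (by clear * - h01 h13 h05; omega) H.n367
  · exact absurd (by clear * - h01 h13 h05; omega) H.n368

theorem sub57 {x0 x1 x2 x3 x4 x5 x6 x7 x8 : ℕ} (H : Hyp x0 x1 x2 x3 x4 x5 x6 x7 x8)
    (h01 : x0 + x1 = x6) (h02 : x0 + x2 = x1) (h13 : x1 + x3 = x7) :
    2 * x1 = 3 * x0 ∧ x2 = 2 * x0 ∧ 2 * x3 = 5 * x0 ∧ x4 = 3 * x0 ∧ 2 * x5 = 7 * x0 ∧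
      x6 = 4 * x0 ∧ 2 * x7 = 9 * x0 ∧ 2 * x8 = 11 * x0 := by
  rcases H.e07 with h07 | h07 | h07 | h07 | h07 | h07 | h07
  · exact absurd (by clear * - h02 h07; omega) H.d27
  · exact absurd (by clear * - h01 h13 h07; omega) H.n362
  · exact absurd (by clear * - h01 h13 h07; omega) H.n060
  · exact absurd (by clear * - h01 h13 h07; omega) H.n364
  · exact absurd (by clear * - h01 h13 h07; omega) H.n365
  · exact absurd (by clear * - h01 h07; omega) H.d17
  · exact absurd (by clear * - h01 h13 h07; omega) H.n368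

theorem sub58 {x0 x1 x2 x3 x4 x5 x6 x7 x8 : ℕ} (H : Hyp x0 x1 x2 x3 x4 x5 x6 x7 x8)
    (h01 : x0 + x1 = x6) (h02 : x0 + x2 = x1) (h13 : x1 + x3 = x8) :
    2 * x1 = 3 * x0 ∧ x2 = 2 * x0 ∧ 2 * x3 = 5 * x0 ∧ x4 = 3 * x0 ∧ 2 * x5 = 7 * x0 ∧
      x6 = 4 * x0 ∧ 2 * x7 = 9 * x0 ∧ 2 * x8 = 11 * x0 := by
  rcases H.e03 with h03 | h03 | h03 | h03 | h03 | h03 | h03
  · exact absurd (by clear * - h02 h03; omega) H.d23
  · rcases H.e12 with h12 | h12 | h12 | h12 | h12 | h12 | h12
    · exact absurd (by clear * - h02 h12; omega) H.d01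
    · exact absurd (by clear * - h01 h03 h12; omega) H.n060
    · exact absurd (by clear * - h13 h03 h12; omega) H.n084
    · exact absurd (by clear * - h13 h03 h12; omega) H.n085
    · exact absurd (by clear * - h01 h12; omega) H.d02
    · exact absurd (by clear * - h13 h03 h12; omega) H.n087
    · exact absurd (by clear * - h02 h13 h03 h12; omega) H.d12
  · exact absurd (by clear * - h02 h13 h03; omega) H.n248
  · rcases H.e14 with h14 | h14 | h14 | h14 | h14 | h14 | h14
    · exact absurd (by clear * - h13 h03 h14; omega) H.n485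
    · exact absurd (by clear * - h02 h03 h14; omega) H.n453
    · exact absurd (by clear * - h01 h03 h14; omega) H.n465
    · exact absurd (by clear * - h02 h03 h14; omega) H.n243
    · exact absurd (by clear * - h01 h14; omega) H.d04
    · rcases H.e07 with h07 | h07 | h07 | h07 | h07 | h07 | h07
      · exact absurd (by clear * - h02 h07; omega) H.d27
      · exact absurd (by clear * - h01 h14 h07; omega) H.n462
      · exact absurd (by clear * - h01 h14 h07; omega) H.n463
      · exact absurd (by clear * - h01 h14 h07; omega) H.n060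
      · exact absurd (by clear * - h03 h07; omega) H.d37
      · exact absurd (by clear * - h01 h07; omega) H.d17
      · exact absurd (by clear * - h01 h14 h07; omega) H.n468
    · exact absurd (by clear * - h13 h14; omega) H.d34
  · exact absurd (by clear * - h01 h03; omega) H.d13
  · exact absurd (by clear * - h02 h13 h03; omega) H.n278
  · exact absurd (by clear * - h13 h03; omega) H.d01

theorem sub59 {x0 x1 x2 x3 x4 x5 x6 x7 x8 : ℕ} (H : Hyp x0 x1 x2 x3 x4 x5 x6 x7 x8)
    (h01 : x0 + x1 = x6) (h02 : x0 + x2 = x5) (h03 : x0 + x3 = x1) :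
    2 * x1 = 3 * x0 ∧ x2 = 2 * x0 ∧ 2 * x3 = 5 * x0 ∧ x4 = 3 * x0 ∧ 2 * x5 = 7 * x0 ∧
      x6 = 4 * x0 ∧ 2 * x7 = 9 * x0 ∧ 2 * x8 = 11 * x0 := by
  rcases H.e12 with h12 | h12 | h12 | h12 | h12 | h12 | h12
  · exact absurd (by clear * - h02 h03 h12; omega) H.n350
  · exact absurd (by clear * - h02 h03 h12; omega) H.n151
  · exact absurd (by clear * - h02 h03 h12; omega) H.n354
  · exact absurd (by clear * - h02 h12; omega) H.d01
  · exact absurd (by clear * - h01 h12; omega) H.d02
  · exact absurd (by clear * - h02 h03 h12; omega) H.n357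
  · exact absurd (by clear * - h02 h03 h12; omega) H.n358

theorem sub60 {x0 x1 x2 x3 x4 x5 x6 x7 x8 : ℕ} (H : Hyp x0 x1 x2 x3 x4 x5 x6 x7 x8)
    (h01 : x0 + x1 = x6) (h02 : x0 + x2 = x5) (h03 : x0 + x3 = x2) :
    2 * x1 = 3 * x0 ∧ x2 = 2 * x0 ∧ 2 * x3 = 5 * x0 ∧ x4 = 3 * x0 ∧ 2 * x5 = 7 * x0 ∧
      x6 = 4 * x0 ∧ 2 * x7 = 9 * x0 ∧ 2 * x8 = 11 * x0 := by
  rcases H.e12 with h12 | h12 | h12 | h12 | h12 | h12 | h12
  · exact absurd (by clear * - h01 h03 h12; omega) H.n360
  · exact absurd (by clear * - h01 h03 h12; omega) H.n060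
  · exact absurd (by clear * - h01 h03 h12; omega) H.n364
  · exact absurd (by clear * - h02 h12; omega) H.d01
  · exact absurd (by clear * - h01 h12; omega) H.d02
  · exact absurd (by clear * - h01 h03 h12; omega) H.n367
  · exact absurd (by clear * - h01 h03 h12; omega) H.n368

theorem sub61 {x0 x1 x2 x3 x4 x5 x6 x7 x8 : ℕ} (H : Hyp x0 x1 x2 x3 x4 x5 x6 x7 x8)
    (h01 : x0 + x1 = x6) (h02 : x0 + x2 = x5) (h03 : x0 + x3 = x4) :
    2 * x1 = 3 * x0 ∧ x2 = 2 * x0 ∧ 2 * x3 = 5 * x0 ∧ x4 = 3 * x0 ∧ 2 * x5 = 7 * x0 ∧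
      x6 = 4 * x0 ∧ 2 * x7 = 9 * x0 ∧ 2 * x8 = 11 * x0 := by
  rcases H.e14 with h14 | h14 | h14 | h14 | h14 | h14 | h14
  · exact absurd (by clear * - h01 h03 h14; omega) H.n360
  · exact absurd (by clear * - h01 h03 h14; omega) H.n362
  · exact absurd (by clear * - h01 h03 h14; omega) H.n060
  · exact absurd (by clear * - h01 h03 h14; omega) H.n365
  · exact absurd (by clear * - h01 h14; omega) H.d04
  · exact absurd (by clear * - h01 h03 h14; omega) H.n367
  · exact absurd (by clear * - h01 h03 h14; omega) H.n368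

theorem sub62 {x0 x1 x2 x3 x4 x5 x6 x7 x8 : ℕ} (H : Hyp x0 x1 x2 x3 x4 x5 x6 x7 x8)
    (h01 : x0 + x1 = x6) (h02 : x0 + x2 = x5) (h03 : x0 + x3 = x7) :
    2 * x1 = 3 * x0 ∧ x2 = 2 * x0 ∧ 2 * x3 = 5 * x0 ∧ x4 = 3 * x0 ∧ 2 * x5 = 7 * x0 ∧
      x6 = 4 * x0 ∧ 2 * x7 = 9 * x0 ∧ 2 * x8 = 11 * x0 := by
  rcases H.e04 with h04 | h04 | h04 | h04 | h04 | h04 | h04
  · rcases H.e12 with h12 | h12 | h12 | h12 | h12 | h12 | h12
    · exact absurd (by clear * - h02 h04 h12; omega) H.n450
    · exact absurd (by clear * - h02 h03 h12; omega) H.n157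
    · exact absurd (by clear * - h02 h04 h12; omega) H.n151
    · exact absurd (by clear * - h02 h12; omega) H.d01
    · exact absurd (by clear * - h01 h12; omega) H.d02
    · exact absurd (by clear * - h03 h04 h12; omega) H.n243
    · exact absurd (by clear * - h02 h04 h12; omega) H.n458
  · rcases H.e12 with h12 | h12 | h12 | h12 | h12 | h12 | h12
    · exact absurd (by clear * - h01 h04 h12; omega) H.n460
    · exact absurd (by clear * - h02 h03 h12; omega) H.n157
    · exact absurd (by clear * - h01 h04 h12; omega) H.n060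
    · exact absurd (by clear * - h02 h12; omega) H.d01
    · exact absurd (by clear * - h01 h12; omega) H.d02
    · exact absurd (by clear * - h01 h04 h12; omega) H.n467
    · exact absurd (by clear * - h01 h04 h12; omega) H.n468
  · rcases H.e13 with h13 | h13 | h13 | h13 | h13 | h13 | h13
    · exact absurd (by clear * - h01 h04 h13; omega) H.n460
    · exact absurd (by clear * - h02 h03 h13; omega) H.n175
    · exact absurd (by clear * - h01 h04 h13; omega) H.n060
    · exact absurd (by clear * - h01 h04 h13; omega) H.n465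
    · exact absurd (by clear * - h01 h13; omega) H.d03
    · exact absurd (by clear * - h03 h13; omega) H.d01
    · exact absurd (by clear * - h01 h04 h13; omega) H.n468
  · exact absurd (by clear * - h02 h04; omega) H.d24
  · exact absurd (by clear * - h01 h04; omega) H.d14
  · exact absurd (by clear * - h03 h04; omega) H.d34
  · rcases H.e05 with h05 | h05 | h05 | h05 | h05 | h05 | h05
    · rcases H.e13 with h13 | h13 | h13 | h13 | h13 | h13 | h13
      · exact absurd (by clear * - h03 h05 h13; omega) H.n570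
      · exact absurd (by clear * - h02 h03 h13; omega) H.n175
      · exact absurd (by clear * - h03 h04 h13; omega) H.n178
      · exact absurd (by clear * - h03 h05 h13; omega) H.n171
      · exact absurd (by clear * - h01 h13; omega) H.d03
      · exact absurd (by clear * - h03 h13; omega) H.d01
      · exact absurd (by clear * - h02 h03 h04 h05 h13; omega) H.n274
    · exact absurd (by clear * - h01 h02 h05; omega) H.d16
    · rcases H.e13 with h13 | h13 | h13 | h13 | h13 | h13 | h13
      · exact absurd (by clear * - h01 h05 h13; omega) H.n560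
      · exact absurd (by clear * - h02 h03 h13; omega) H.n175
      · exact absurd (by clear * - h03 h04 h13; omega) H.n178
      · exact absurd (by clear * - h01 h05 h13; omega) H.n060
      · exact absurd (by clear * - h01 h13; omega) H.d03
      · exact absurd (by clear * - h03 h13; omega) H.d01
      · exact absurd (by clear * - h04 h05 h13; omega) H.n154
    · rcases H.e14 with h14 | h14 | h14 | h14 | h14 | h14 | h14
      · exact absurd (by clear * - h01 h05 h14; omega) H.n560
      · exact absurd (by clear * - h02 h04 h14; omega) H.n185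
      · exact absurd (by clear * - h03 h04 h14; omega) H.n187
      · exact absurd (by clear * - h01 h05 h14; omega) H.n060
      · exact absurd (by clear * - h01 h14; omega) H.d04
      · exact absurd (by clear * - h03 h05 h14; omega) H.n153
      · exact absurd (by clear * - h04 h14; omega) H.d01
    · exact absurd (by clear * - h01 h05; omega) H.d15
    · exact absurd (by clear * - h03 h05; omega) H.d35
    · exact absurd (by clear * - h04 h05; omega) H.d45

theorem sub63 {x0 x1 x2 x3 x4 x5 x6 x7 x8 : ℕ} (H : Hyp x0 x1 x2 x3 x4 x5 x6 x7 x8)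
    (h01 : x0 + x1 = x6) (h02 : x0 + x2 = x5) (h03 : x0 + x3 = x8) :
    2 * x1 = 3 * x0 ∧ x2 = 2 * x0 ∧ 2 * x3 = 5 * x0 ∧ x4 = 3 * x0 ∧ 2 * x5 = 7 * x0 ∧
      x6 = 4 * x0 ∧ 2 * x7 = 9 * x0 ∧ 2 * x8 = 11 * x0 := by
  rcases H.e04 with h04 | h04 | h04 | h04 | h04 | h04 | h04
  · rcases H.e12 with h12 | h12 | h12 | h12 | h12 | h12 | h12
    · exact absurd (by clear * - h02 h04 h12; omega) H.n450
    · exact absurd (by clear * - h02 h03 h12; omega) H.n158
    · exact absurd (by clear * - h02 h04 h12; omega) H.n151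
    · exact absurd (by clear * - h02 h12; omega) H.d01
    · exact absurd (by clear * - h01 h12; omega) H.d02
    · exact absurd (by clear * - h02 h04 h12; omega) H.n457
    · exact absurd (by clear * - h03 h04 h12; omega) H.n243
  · rcases H.e12 with h12 | h12 | h12 | h12 | h12 | h12 | h12
    · exact absurd (by clear * - h01 h04 h12; omega) H.n460
    · exact absurd (by clear * - h02 h03 h12; omega) H.n158
    · exact absurd (by clear * - h01 h04 h12; omega) H.n060
    · exact absurd (by clear * - h02 h12; omega) H.d01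
    · exact absurd (by clear * - h01 h12; omega) H.d02
    · exact absurd (by clear * - h01 h04 h12; omega) H.n467
    · exact absurd (by clear * - h01 h04 h12; omega) H.n468
  · rcases H.e13 with h13 | h13 | h13 | h13 | h13 | h13 | h13
    · exact absurd (by clear * - h01 h04 h13; omega) H.n460
    · exact absurd (by clear * - h02 h03 h13; omega) H.n185
    · exact absurd (by clear * - h01 h04 h13; omega) H.n060
    · exact absurd (by clear * - h01 h04 h13; omega) H.n465
    · exact absurd (by clear * - h01 h13; omega) H.d03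
    · exact absurd (by clear * - h01 h04 h13; omega) H.n467
    · exact absurd (by clear * - h03 h13; omega) H.d01
  · exact absurd (by clear * - h02 h04; omega) H.d24
  · exact absurd (by clear * - h01 h04; omega) H.d14
  · rcases H.e05 with h05 | h05 | h05 | h05 | h05 | h05 | h05
    · rcases H.e13 with h13 | h13 | h13 | h13 | h13 | h13 | h13
      · exact absurd (by clear * - h03 h05 h13; omega) H.n580
      · exact absurd (by clear * - h02 h03 h13; omega) H.n185
      · exact absurd (by clear * - h03 h04 h13; omega) H.n187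
      · exact absurd (by clear * - h03 h05 h13; omega) H.n080
      · exact absurd (by clear * - h01 h13; omega) H.d03
      · exact absurd (by clear * - h02 h03 h04 h05 h13; omega) H.n284
      · exact absurd (by clear * - h03 h13; omega) H.d01
    · exact absurd (by clear * - h01 h02 h05; omega) H.d16
    · rcases H.e13 with h13 | h13 | h13 | h13 | h13 | h13 | h13
      · exact absurd (by clear * - h01 h05 h13; omega) H.n560
      · exact absurd (by clear * - h02 h03 h13; omega) H.n185
      · exact absurd (by clear * - h03 h04 h13; omega) H.n187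
      · exact absurd (by clear * - h01 h05 h13; omega) H.n060
      · exact absurd (by clear * - h01 h13; omega) H.d03
      · exact absurd (by clear * - h04 h05 h13; omega) H.n154
      · exact absurd (by clear * - h03 h13; omega) H.d01
    · rcases H.e14 with h14 | h14 | h14 | h14 | h14 | h14 | h14
      · exact absurd (by clear * - h01 h05 h14; omega) H.n560
      · exact absurd (by clear * - h02 h04 h14; omega) H.n175
      · exact absurd (by clear * - h03 h04 h14; omega) H.n178
      · exact absurd (by clear * - h01 h05 h14; omega) H.n060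
      · exact absurd (by clear * - h01 h14; omega) H.d04
      · exact absurd (by clear * - h04 h14; omega) H.d01
      · exact absurd (by clear * - h03 h05 h14; omega) H.n153
    · exact absurd (by clear * - h01 h05; omega) H.d15
    · exact absurd (by clear * - h04 h05; omega) H.d45
    · exact absurd (by clear * - h03 h05; omega) H.d35
  · exact absurd (by clear * - h03 h04; omega) H.d34

theorem sub64 {x0 x1 x2 x3 x4 x5 x6 x7 x8 : ℕ} (H : Hyp x0 x1 x2 x3 x4 x5 x6 x7 x8)
    (h01 : x0 + x1 = x6) (h02 : x0 + x2 = x7) (h03 : x0 + x3 = x1) :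
    2 * x1 = 3 * x0 ∧ x2 = 2 * x0 ∧ 2 * x3 = 5 * x0 ∧ x4 = 3 * x0 ∧ 2 * x5 = 7 * x0 ∧
      x6 = 4 * x0 ∧ 2 * x7 = 9 * x0 ∧ 2 * x8 = 11 * x0 := by
  rcases H.e12 with h12 | h12 | h12 | h12 | h12 | h12 | h12
  · exact absurd (by clear * - h02 h03 h12; omega) H.n370
  · exact absurd (by clear * - h02 h03 h12; omega) H.n171
  · exact absurd (by clear * - h02 h03 h12; omega) H.n374
  · exact absurd (by clear * - h02 h03 h12; omega) H.n375
  · exact absurd (by clear * - h01 h12; omega) H.d02
  · exact absurd (by clear * - h02 h12; omega) H.d01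
  · exact absurd (by clear * - h02 h03 h12; omega) H.n378

theorem sub65 {x0 x1 x2 x3 x4 x5 x6 x7 x8 : ℕ} (H : Hyp x0 x1 x2 x3 x4 x5 x6 x7 x8)
    (h01 : x0 + x1 = x6) (h02 : x0 + x2 = x7) (h03 : x0 + x3 = x2) :
    2 * x1 = 3 * x0 ∧ x2 = 2 * x0 ∧ 2 * x3 = 5 * x0 ∧ x4 = 3 * x0 ∧ 2 * x5 = 7 * x0 ∧
      x6 = 4 * x0 ∧ 2 * x7 = 9 * x0 ∧ 2 * x8 = 11 * x0 := by
  rcases H.e12 with h12 | h12 | h12 | h12 | h12 | h12 | h12
  · exact absurd (by clear * - h01 h03 h12; omega) H.n360
  · exact absurd (by clear * - h01 h03 h12; omega) H.n060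
  · exact absurd (by clear * - h01 h03 h12; omega) H.n364
  · exact absurd (by clear * - h01 h03 h12; omega) H.n365
  · exact absurd (by clear * - h01 h12; omega) H.d02
  · exact absurd (by clear * - h02 h12; omega) H.d01
  · exact absurd (by clear * - h01 h03 h12; omega) H.n368

theorem sub66 {x0 x1 x2 x3 x4 x5 x6 x7 x8 : ℕ} (H : Hyp x0 x1 x2 x3 x4 x5 x6 x7 x8)
    (h01 : x0 + x1 = x6) (h02 : x0 + x2 = x7) (h03 : x0 + x3 = x4) :
    2 * x1 = 3 * x0 ∧ x2 = 2 * x0 ∧ 2 * x3 = 5 * x0 ∧ x4 = 3 * x0 ∧ 2 * x5 = 7 * x0 ∧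
      x6 = 4 * x0 ∧ 2 * x7 = 9 * x0 ∧ 2 * x8 = 11 * x0 := by
  rcases H.e14 with h14 | h14 | h14 | h14 | h14 | h14 | h14
  · exact absurd (by clear * - h01 h03 h14; omega) H.n360
  · exact absurd (by clear * - h01 h03 h14; omega) H.n362
  · exact absurd (by clear * - h01 h03 h14; omega) H.n060
  · exact absurd (by clear * - h01 h03 h14; omega) H.n365
  · exact absurd (by clear * - h01 h14; omega) H.d04
  · exact absurd (by clear * - h01 h03 h14; omega) H.n367
  · exact absurd (by clear * - h01 h03 h14; omega) H.n368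

theorem sub67 {x0 x1 x2 x3 x4 x5 x6 x7 x8 : ℕ} (H : Hyp x0 x1 x2 x3 x4 x5 x6 x7 x8)
    (h01 : x0 + x1 = x6) (h02 : x0 + x2 = x7) (h03 : x0 + x3 = x5) :
    2 * x1 = 3 * x0 ∧ x2 = 2 * x0 ∧ 2 * x3 = 5 * x0 ∧ x4 = 3 * x0 ∧ 2 * x5 = 7 * x0 ∧
      x6 = 4 * x0 ∧ 2 * x7 = 9 * x0 ∧ 2 * x8 = 11 * x0 := by
  rcases H.e25 with h25 | h25 | h25 | h25 | h25 | h25 | h25
  · exact absurd (by clear * - h02 h03 h25; omega) H.n370
  · exact absurd (by clear * - h02 h03 h25; omega) H.n371
  · exact absurd (by clear * - h02 h03 h25; omega) H.n171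
  · exact absurd (by clear * - h02 h03 h25; omega) H.n374
  · exact absurd (by clear * - h02 h03 h25; omega) H.n376
  · exact absurd (by clear * - h02 h25; omega) H.d05
  · exact absurd (by clear * - h02 h03 h25; omega) H.n378

theorem sub68 {x0 x1 x2 x3 x4 x5 x6 x7 x8 : ℕ} (H : Hyp x0 x1 x2 x3 x4 x5 x6 x7 x8)
    (h01 : x0 + x1 = x6) (h02 : x0 + x2 = x7) (h03 : x0 + x3 = x8) :
    2 * x1 = 3 * x0 ∧ x2 = 2 * x0 ∧ 2 * x3 = 5 * x0 ∧ x4 = 3 * x0 ∧ 2 * x5 = 7 * x0 ∧
      x6 = 4 * x0 ∧ 2 * x7 = 9 * x0 ∧ 2 * x8 = 11 * x0 := by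
  rcases H.e04 with h04 | h04 | h04 | h04 | h04 | h04 | h04
  · rcases H.e12 with h12 | h12 | h12 | h12 | h12 | h12 | h12
    · exact absurd (by clear * - h02 h04 h12; omega) H.n470
    · exact absurd (by clear * - h02 h03 h12; omega) H.n178
    · exact absurd (by clear * - h02 h04 h12; omega) H.n171
    · exact absurd (by clear * - h02 h04 h12; omega) H.n475
    · exact absurd (by clear * - h01 h12; omega) H.d02
    · exact absurd (by clear * - h02 h12; omega) H.d01
    · exact absurd (by clear * - h03 h04 h12; omega) H.n243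
  · rcases H.e12 with h12 | h12 | h12 | h12 | h12 | h12 | h12
    · exact absurd (by clear * - h01 h04 h12; omega) H.n460
    · exact absurd (by clear * - h02 h03 h12; omega) H.n178
    · exact absurd (by clear * - h01 h04 h12; omega) H.n060
    · exact absurd (by clear * - h01 h04 h12; omega) H.n465
    · exact absurd (by clear * - h01 h12; omega) H.d02
    · exact absurd (by clear * - h02 h12; omega) H.d01
    · exact absurd (by clear * - h01 h04 h12; omega) H.n468
  · rcases H.e13 with h13 | h13 | h13 | h13 | h13 | h13 | h13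
    · exact absurd (by clear * - h01 h04 h13; omega) H.n460
    · exact absurd (by clear * - h02 h03 h13; omega) H.n187
    · exact absurd (by clear * - h01 h04 h13; omega) H.n060
    · exact absurd (by clear * - h01 h04 h13; omega) H.n465
    · exact absurd (by clear * - h01 h13; omega) H.d03
    · exact absurd (by clear * - h01 h04 h13; omega) H.n467
    · exact absurd (by clear * - h03 h13; omega) H.d01
  · rcases H.e25 with h25 | h25 | h25 | h25 | h25 | h25 | h25
    · exact absurd (by clear * - h02 h04 h25; omega) H.n470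
    · exact absurd (by clear * - h02 h04 h25; omega) H.n471
    · exact absurd (by clear * - h02 h04 h25; omega) H.n473
    · exact absurd (by clear * - h02 h04 h25; omega) H.n171
    · exact absurd (by clear * - h01 h04 h25; omega) H.n241
    · exact absurd (by clear * - h02 h25; omega) H.d05
    · exact absurd (by clear * - h03 h04 h25; omega) H.n243
  · exact absurd (by clear * - h01 h04; omega) H.d14
  · exact absurd (by clear * - h02 h04; omega) H.d24
  · exact absurd (by clear * - h03 h04; omega) H.d34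

theorem sub69 {x0 x1 x2 x3 x4 x5 x6 x7 x8 : ℕ} (H : Hyp x0 x1 x2 x3 x4 x5 x6 x7 x8)
    (h01 : x0 + x1 = x6) (h02 : x0 + x2 = x8) (h03 : x0 + x3 = x1) :
    2 * x1 = 3 * x0 ∧ x2 = 2 * x0 ∧ 2 * x3 = 5 * x0 ∧ x4 = 3 * x0 ∧ 2 * x5 = 7 * x0 ∧
      x6 = 4 * x0 ∧ 2 * x7 = 9 * x0 ∧ 2 * x8 = 11 * x0 := by
  rcases H.e12 with h12 | h12 | h12 | h12 | h12 | h12 | h12
  · exact absurd (by clear * - h02 h03 h12; omega) H.n380
  · exact absurd (by clear * - h02 h03 h12; omega) H.n080
  · exact absurd (by clear * - h02 h03 h12; omega) H.n384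
  · exact absurd (by clear * - h02 h03 h12; omega) H.n385
  · exact absurd (by clear * - h01 h12; omega) H.d02
  · exact absurd (by clear * - h02 h03 h12; omega) H.n387
  · exact absurd (by clear * - h02 h12; omega) H.d01

theorem sub70 {x0 x1 x2 x3 x4 x5 x6 x7 x8 : ℕ} (H : Hyp x0 x1 x2 x3 x4 x5 x6 x7 x8)
    (h01 : x0 + x1 = x6) (h02 : x0 + x2 = x8) (h03 : x0 + x3 = x2) :
    2 * x1 = 3 * x0 ∧ x2 = 2 * x0 ∧ 2 * x3 = 5 * x0 ∧ x4 = 3 * x0 ∧ 2 * x5 = 7 * x0 ∧
      x6 = 4 * x0 ∧ 2 * x7 = 9 * x0 ∧ 2 * x8 = 11 * x0 := by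
  rcases H.e12 with h12 | h12 | h12 | h12 | h12 | h12 | h12
  · exact absurd (by clear * - h01 h03 h12; omega) H.n360
  · exact absurd (by clear * - h01 h03 h12; omega) H.n060
  · exact absurd (by clear * - h01 h03 h12; omega) H.n364
  · exact absurd (by clear * - h01 h03 h12; omega) H.n365
  · exact absurd (by clear * - h01 h12; omega) H.d02
  · exact absurd (by clear * - h01 h03 h12; omega) H.n367
  · exact absurd (by clear * - h02 h12; omega) H.d01

theorem sub71 {x0 x1 x2 x3 x4 x5 x6 x7 x8 : ℕ} (H : Hyp x0 x1 x2 x3 x4 x5 x6 x7 x8)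
    (h01 : x0 + x1 = x6) (h02 : x0 + x2 = x8) (h03 : x0 + x3 = x4) :
    2 * x1 = 3 * x0 ∧ x2 = 2 * x0 ∧ 2 * x3 = 5 * x0 ∧ x4 = 3 * x0 ∧ 2 * x5 = 7 * x0 ∧
      x6 = 4 * x0 ∧ 2 * x7 = 9 * x0 ∧ 2 * x8 = 11 * x0 := by
  rcases H.e14 with h14 | h14 | h14 | h14 | h14 | h14 | h14
  · exact absurd (by clear * - h01 h03 h14; omega) H.n360
  · exact absurd (by clear * - h01 h03 h14; omega) H.n362
  · exact absurd (by clear * - h01 h03 h14; omega) H.n060
  · exact absurd (by clear * - h01 h03 h14; omega) H.n365
  · exact absurd (by clear * - h01 h14; omega) H.d04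
  · exact absurd (by clear * - h01 h03 h14; omega) H.n367
  · exact absurd (by clear * - h01 h03 h14; omega) H.n368

theorem sub72 {x0 x1 x2 x3 x4 x5 x6 x7 x8 : ℕ} (H : Hyp x0 x1 x2 x3 x4 x5 x6 x7 x8)
    (h01 : x0 + x1 = x6) (h02 : x0 + x2 = x8) (h03 : x0 + x3 = x5) :
    2 * x1 = 3 * x0 ∧ x2 = 2 * x0 ∧ 2 * x3 = 5 * x0 ∧ x4 = 3 * x0 ∧ 2 * x5 = 7 * x0 ∧
      x6 = 4 * x0 ∧ 2 * x7 = 9 * x0 ∧ 2 * x8 = 11 * x0 := by
  rcases H.e25 with h25 | h25 | h25 | h25 | h25 | h25 | h25
  · exact absurd (by clear * - h02 h03 h25; omega) H.n380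
  · exact absurd (by clear * - h02 h03 h25; omega) H.n381
  · exact absurd (by clear * - h02 h03 h25; omega) H.n080
  · exact absurd (by clear * - h02 h03 h25; omega) H.n384
  · exact absurd (by clear * - h02 h03 h25; omega) H.n386
  · exact absurd (by clear * - h02 h03 h25; omega) H.n387
  · exact absurd (by clear * - h02 h25; omega) H.d05

theorem sub73 {x0 x1 x2 x3 x4 x5 x6 x7 x8 : ℕ} (H : Hyp x0 x1 x2 x3 x4 x5 x6 x7 x8)
    (h01 : x0 + x1 = x6) (h02 : x0 + x2 = x8) (h03 : x0 + x3 = x7) :
    2 * x1 = 3 * x0 ∧ x2 = 2 * x0 ∧ 2 * x3 = 5 * x0 ∧ x4 = 3 * x0 ∧ 2 * x5 = 7 * x0 ∧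
      x6 = 4 * x0 ∧ 2 * x7 = 9 * x0 ∧ 2 * x8 = 11 * x0 := by
  rcases H.e04 with h04 | h04 | h04 | h04 | h04 | h04 | h04
  · rcases H.e12 with h12 | h12 | h12 | h12 | h12 | h12 | h12
    · exact absurd (by clear * - h02 h04 h12; omega) H.n480
    · exact absurd (by clear * - h02 h03 h12; omega) H.n187
    · exact absurd (by clear * - h02 h04 h12; omega) H.n080
    · exact absurd (by clear * - h02 h04 h12; omega) H.n485
    · exact absurd (by clear * - h01 h12; omega) H.d02
    · exact absurd (by clear * - h03 h04 h12; omega) H.n243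
    · exact absurd (by clear * - h02 h12; omega) H.d01
  · rcases H.e12 with h12 | h12 | h12 | h12 | h12 | h12 | h12
    · exact absurd (by clear * - h01 h04 h12; omega) H.n460
    · exact absurd (by clear * - h02 h03 h12; omega) H.n187
    · exact absurd (by clear * - h01 h04 h12; omega) H.n060
    · exact absurd (by clear * - h01 h04 h12; omega) H.n465
    · exact absurd (by clear * - h01 h12; omega) H.d02
    · exact absurd (by clear * - h01 h04 h12; omega) H.n467
    · exact absurd (by clear * - h02 h12; omega) H.d01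
  · rcases H.e13 with h13 | h13 | h13 | h13 | h13 | h13 | h13
    · exact absurd (by clear * - h01 h04 h13; omega) H.n460
    · exact absurd (by clear * - h02 h03 h13; omega) H.n178
    · exact absurd (by clear * - h01 h04 h13; omega) H.n060
    · exact absurd (by clear * - h01 h04 h13; omega) H.n465
    · exact absurd (by clear * - h01 h13; omega) H.d03
    · exact absurd (by clear * - h03 h13; omega) H.d01
    · exact absurd (by clear * - h01 h04 h13; omega) H.n468
  · rcases H.e25 with h25 | h25 | h25 | h25 | h25 | h25 | h25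
    · exact absurd (by clear * - h02 h04 h25; omega) H.n480
    · exact absurd (by clear * - h02 h04 h25; omega) H.n481
    · exact absurd (by clear * - h02 h04 h25; omega) H.n483
    · exact absurd (by clear * - h02 h04 h25; omega) H.n080
    · exact absurd (by clear * - h01 h04 h25; omega) H.n241
    · exact absurd (by clear * - h03 h04 h25; omega) H.n243
    · exact absurd (by clear * - h02 h25; omega) H.d05
  · exact absurd (by clear * - h01 h04; omega) H.d14
  · exact absurd (by clear * - h03 h04; omega) H.d34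
  · exact absurd (by clear * - h02 h04; omega) H.d24

theorem sub74 {x0 x1 x2 x3 x4 x5 x6 x7 x8 : ℕ} (H : Hyp x0 x1 x2 x3 x4 x5 x6 x7 x8)
    (h01 : x0 + x1 = x7) (h02 : x0 + x2 = x1) (h13 : x1 + x3 = x4) :
    2 * x1 = 3 * x0 ∧ x2 = 2 * x0 ∧ 2 * x3 = 5 * x0 ∧ x4 = 3 * x0 ∧ 2 * x5 = 7 * x0 ∧
      x6 = 4 * x0 ∧ 2 * x7 = 9 * x0 ∧ 2 * x8 = 11 * x0 := by
  rcases H.e04 with h04 | h04 | h04 | h04 | h04 | h04 | h04
  · exact absurd (by clear * - h02 h04; omega) H.d24
  · exact absurd (by clear * - h01 h13 h04; omega) H.n372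
  · exact absurd (by clear * - h01 h13 h04; omega) H.n171
  · exact absurd (by clear * - h01 h13 h04; omega) H.n375
  · exact absurd (by clear * - h01 h13 h04; omega) H.n376
  · exact absurd (by clear * - h01 h04; omega) H.d14
  · exact absurd (by clear * - h01 h13 h04; omega) H.n378

theorem sub75 {x0 x1 x2 x3 x4 x5 x6 x7 x8 : ℕ} (H : Hyp x0 x1 x2 x3 x4 x5 x6 x7 x8)
    (h01 : x0 + x1 = x7) (h02 : x0 + x2 = x1) (h13 : x1 + x3 = x5) :
    2 * x1 = 3 * x0 ∧ x2 = 2 * x0 ∧ 2 * x3 = 5 * x0 ∧ x4 = 3 * x0 ∧ 2 * x5 = 7 * x0 ∧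
      x6 = 4 * x0 ∧ 2 * x7 = 9 * x0 ∧ 2 * x8 = 11 * x0 := by
  rcases H.e05 with h05 | h05 | h05 | h05 | h05 | h05 | h05
  · exact absurd (by clear * - h02 h05; omega) H.d25
  · exact absurd (by clear * - h01 h13 h05; omega) H.n372
  · exact absurd (by clear * - h01 h13 h05; omega) H.n171
  · exact absurd (by clear * - h01 h13 h05; omega) H.n374
  · exact absurd (by clear * - h01 h13 h05; omega) H.n376
  · exact absurd (by clear * - h01 h05; omega) H.d15
  · exact absurd (by clear * - h01 h13 h05; omega) H.n378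

theorem sub76 {x0 x1 x2 x3 x4 x5 x6 x7 x8 : ℕ} (H : Hyp x0 x1 x2 x3 x4 x5 x6 x7 x8)
    (h01 : x0 + x1 = x7) (h02 : x0 + x2 = x1) (h13 : x1 + x3 = x6) :
    2 * x1 = 3 * x0 ∧ x2 = 2 * x0 ∧ 2 * x3 = 5 * x0 ∧ x4 = 3 * x0 ∧ 2 * x5 = 7 * x0 ∧
      x6 = 4 * x0 ∧ 2 * x7 = 9 * x0 ∧ 2 * x8 = 11 * x0 := by
  rcases H.e03 with h03 | h03 | h03 | h03 | h03 | h03 | h03
  · exact absurd (by clear * - h02 h03; omega) H.d23
  · rcases H.e12 with h12 | h12 | h12 | h12 | h12 | h12 | h12
    · exact absurd (by clear * - h02 h12; omega) H.d01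
    · exact absurd (by clear * - h13 h03 h12; omega) H.n063
    · exact absurd (by clear * - h13 h03 h12; omega) H.n064
    · exact absurd (by clear * - h13 h03 h12; omega) H.n065
    · exact absurd (by clear * - h02 h13 h03 h12; omega) H.d12
    · exact absurd (by clear * - h01 h12; omega) H.d02
    · exact absurd (by clear * - h13 h03 h12; omega) H.n068
  · exact absurd (by clear * - h02 h13 h03; omega) H.n246
  · rcases H.e14 with h14 | h14 | h14 | h14 | h14 | h14 | h14
    · exact absurd (by clear * - h13 h03 h14; omega) H.n465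
    · exact absurd (by clear * - h02 h03 h14; omega) H.n453
    · exact absurd (by clear * - h01 h03 h14; omega) H.n475
    · exact absurd (by clear * - h02 h03 h14; omega) H.n243
    · exact absurd (by clear * - h13 h14; omega) H.d34
    · exact absurd (by clear * - h01 h14; omega) H.d04
    · rcases H.e04 with h04 | h04 | h04 | h04 | h04 | h04 | h04
      · exact absurd (by clear * - h02 h04; omega) H.d24
      · rcases H.e05 with h05 | h05 | h05 | h05 | h05 | h05 | h05
        · exact absurd (by clear * - h02 h05; omega) H.d25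
        · exact absurd (by clear * - h04 h05; omega) H.d45
        · exact absurd (by clear * - h02 h03 h05; omega) H.d12
        · exact absurd (by clear * - h01 h14 h05; omega) H.n578
        · exact absurd (by clear * - h02 h13 h03 h05; omega) H.d02
        · exact absurd (by clear * - h01 h05; omega) H.d15
        · exact absurd (by clear * - h02 h14 h05; omega) H.n245
      · exact absurd (by clear * - h13 h14 h04; omega) H.n086
      · exact absurd (by clear * - h03 h04; omega) H.d34
      · exact absurd (by clear * - h02 h14 h04; omega) H.n268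
      · exact absurd (by clear * - h01 h04; omega) H.d14
      · exact absurd (by clear * - h14 h04; omega) H.d01
  · exact absurd (by clear * - h13 h03; omega) H.d01
  · exact absurd (by clear * - h01 h03; omega) H.d13
  · exact absurd (by clear * - h02 h13 h03; omega) H.n286

theorem sub77 {x0 x1 x2 x3 x4 x5 x6 x7 x8 : ℕ} (H : Hyp x0 x1 x2 x3 x4 x5 x6 x7 x8)
    (h01 : x0 + x1 = x7) (h02 : x0 + x2 = x1) (h13 : x1 + x3 = x8) :
    2 * x1 = 3 * x0 ∧ x2 = 2 * x0 ∧ 2 * x3 = 5 * x0 ∧ x4 = 3 * x0 ∧ 2 * x5 = 7 * x0 ∧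
      x6 = 4 * x0 ∧ 2 * x7 = 9 * x0 ∧ 2 * x8 = 11 * x0 := by
  rcases H.e03 with h03 | h03 | h03 | h03 | h03 | h03 | h03
  · exact absurd (by clear * - h02 h03; omega) H.d23
  · rcases H.e12 with h12 | h12 | h12 | h12 | h12 | h12 | h12
    · exact absurd (by clear * - h02 h12; omega) H.d01
    · exact absurd (by clear * - h13 h03 h12; omega) H.n083
    · exact absurd (by clear * - h13 h03 h12; omega) H.n084
    · exact absurd (by clear * - h13 h03 h12; omega) H.n085
    · exact absurd (by clear * - h13 h03 h12; omega) H.n086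
    · exact absurd (by clear * - h01 h12; omega) H.d02
    · exact absurd (by clear * - h02 h13 h03 h12; omega) H.d12
  · exact absurd (by clear * - h02 h13 h03; omega) H.n248
  · rcases H.e14 with h14 | h14 | h14 | h14 | h14 | h14 | h14
    · exact absurd (by clear * - h13 h03 h14; omega) H.n485
    · exact absurd (by clear * - h02 h03 h14; omega) H.n453
    · exact absurd (by clear * - h01 h03 h14; omega) H.n475
    · exact absurd (by clear * - h02 h03 h14; omega) H.n243
    · rcases H.e16 with h16 | h16 | h16 | h16 | h16 | h16 | h16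
      · exact absurd (by clear * - h13 h03 h16; omega) H.n685
      · exact absurd (by clear * - h02 h03 h16; omega) H.n563
      · exact absurd (by clear * - h01 h03 h16; omega) H.n675
      · exact absurd (by clear * - h01 h14 h16; omega) H.d07
      · exact absurd (by clear * - h02 h03 h16; omega) H.n263
      · exact absurd (by clear * - h01 h16; omega) H.d06
      · exact absurd (by clear * - h13 h16; omega) H.d36
    · exact absurd (by clear * - h01 h14; omega) H.d04
    · exact absurd (by clear * - h13 h14; omega) H.d34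
  · exact absurd (by clear * - h02 h13 h03; omega) H.n268
  · exact absurd (by clear * - h01 h03; omega) H.d13
  · exact absurd (by clear * - h13 h03; omega) H.d01

theorem sub78 {x0 x1 x2 x3 x4 x5 x6 x7 x8 : ℕ} (H : Hyp x0 x1 x2 x3 x4 x5 x6 x7 x8)
    (h01 : x0 + x1 = x7) (h02 : x0 + x2 = x5) (h03 : x0 + x3 = x1) :
    2 * x1 = 3 * x0 ∧ x2 = 2 * x0 ∧ 2 * x3 = 5 * x0 ∧ x4 = 3 * x0 ∧ 2 * x5 = 7 * x0 ∧
      x6 = 4 * x0 ∧ 2 * x7 = 9 * x0 ∧ 2 * x8 = 11 * x0 := by
  rcases H.e12 with h12 | h12 | h12 | h12 | h12 | h12 | h12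
  · exact absurd (by clear * - h02 h03 h12; omega) H.n350
  · exact absurd (by clear * - h02 h03 h12; omega) H.n151
  · exact absurd (by clear * - h02 h03 h12; omega) H.n354
  · exact absurd (by clear * - h02 h12; omega) H.d01
  · exact absurd (by clear * - h02 h03 h12; omega) H.n356
  · exact absurd (by clear * - h01 h12; omega) H.d02
  · exact absurd (by clear * - h02 h03 h12; omega) H.n358

theorem sub79 {x0 x1 x2 x3 x4 x5 x6 x7 x8 : ℕ} (H : Hyp x0 x1 x2 x3 x4 x5 x6 x7 x8)
    (h01 : x0 + x1 = x7) (h02 : x0 + x2 = x5) (h03 : x0 + x3 = x2) :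
    2 * x1 = 3 * x0 ∧ x2 = 2 * x0 ∧ 2 * x3 = 5 * x0 ∧ x4 = 3 * x0 ∧ 2 * x5 = 7 * x0 ∧
      x6 = 4 * x0 ∧ 2 * x7 = 9 * x0 ∧ 2 * x8 = 11 * x0 := by
  rcases H.e12 with h12 | h12 | h12 | h12 | h12 | h12 | h12
  · exact absurd (by clear * - h01 h03 h12; omega) H.n370
  · exact absurd (by clear * - h02 h03 h12; omega) H.n152
  · exact absurd (by clear * - h01 h03 h12; omega) H.n374
  · exact absurd (by clear * - h02 h12; omega) H.d01
  · exact absurd (by clear * - h01 h03 h12; omega) H.n376
  · exact absurd (by clear * - h01 h12; omega) H.d02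
  · exact absurd (by clear * - h01 h03 h12; omega) H.n378

theorem sub80 {x0 x1 x2 x3 x4 x5 x6 x7 x8 : ℕ} (H : Hyp x0 x1 x2 x3 x4 x5 x6 x7 x8)
    (h01 : x0 + x1 = x7) (h02 : x0 + x2 = x5) (h03 : x0 + x3 = x4) :
    2 * x1 = 3 * x0 ∧ x2 = 2 * x0 ∧ 2 * x3 = 5 * x0 ∧ x4 = 3 * x0 ∧ 2 * x5 = 7 * x0 ∧
      x6 = 4 * x0 ∧ 2 * x7 = 9 * x0 ∧ 2 * x8 = 11 * x0 := by
  rcases H.e14 with h14 | h14 | h14 | h14 | h14 | h14 | h14
  · exact absurd (by clear * - h01 h03 h14; omega) H.n370
  · exact absurd (by clear * - h01 h03 h14; omega) H.n372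
  · exact absurd (by clear * - h02 h03 h14; omega) H.n152
  · exact absurd (by clear * - h01 h03 h14; omega) H.n375
  · exact absurd (by clear * - h01 h03 h14; omega) H.n376
  · exact absurd (by clear * - h01 h14; omega) H.d04
  · exact absurd (by clear * - h01 h03 h14; omega) H.n378

theorem sub81 {x0 x1 x2 x3 x4 x5 x6 x7 x8 : ℕ} (H : Hyp x0 x1 x2 x3 x4 x5 x6 x7 x8)
    (h01 : x0 + x1 = x7) (h02 : x0 + x2 = x5) (h03 : x0 + x3 = x6) :
    2 * x1 = 3 * x0 ∧ x2 = 2 * x0 ∧ 2 * x3 = 5 * x0 ∧ x4 = 3 * x0 ∧ 2 * x5 = 7 * x0 ∧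
      x6 = 4 * x0 ∧ 2 * x7 = 9 * x0 ∧ 2 * x8 = 11 * x0 := by
  rcases H.e16 with h16 | h16 | h16 | h16 | h16 | h16 | h16
  · exact absurd (by clear * - h01 h03 h16; omega) H.n370
  · exact absurd (by clear * - h01 h03 h16; omega) H.n372
  · exact absurd (by clear * - h02 h03 h16; omega) H.n152
  · exact absurd (by clear * - h01 h03 h16; omega) H.n374
  · exact absurd (by clear * - h01 h03 h16; omega) H.n375
  · exact absurd (by clear * - h01 h16; omega) H.d06
  · exact absurd (by clear * - h01 h03 h16; omega) H.n378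

theorem sub82 {x0 x1 x2 x3 x4 x5 x6 x7 x8 : ℕ} (H : Hyp x0 x1 x2 x3 x4 x5 x6 x7 x8)
    (h01 : x0 + x1 = x7) (h02 : x0 + x2 = x5) (h03 : x0 + x3 = x8) :
    2 * x1 = 3 * x0 ∧ x2 = 2 * x0 ∧ 2 * x3 = 5 * x0 ∧ x4 = 3 * x0 ∧ 2 * x5 = 7 * x0 ∧
      x6 = 4 * x0 ∧ 2 * x7 = 9 * x0 ∧ 2 * x8 = 11 * x0 := by
  rcases H.e04 with h04 | h04 | h04 | h04 | h04 | h04 | h04
  · rcases H.e12 with h12 | h12 | h12 | h12 | h12 | h12 | h12
    · exact absurd (by clear * - h02 h04 h12; omega) H.n450
    · exact absurd (by clear * - h02 h03 h12; omega) H.n158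
    · exact absurd (by clear * - h02 h04 h12; omega) H.n151
    · exact absurd (by clear * - h02 h12; omega) H.d01
    · exact absurd (by clear * - h02 h04 h12; omega) H.n456
    · exact absurd (by clear * - h01 h12; omega) H.d02
    · exact absurd (by clear * - h03 h04 h12; omega) H.n243
  · rcases H.e12 with h12 | h12 | h12 | h12 | h12 | h12 | h12
    · exact absurd (by clear * - h01 h04 h12; omega) H.n470
    · exact absurd (by clear * - h02 h03 h12; omega) H.n158
    · exact absurd (by clear * - h02 h04 h12; omega) H.n152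
    · exact absurd (by clear * - h02 h12; omega) H.d01
    · exact absurd (by clear * - h01 h04 h12; omega) H.n476
    · exact absurd (by clear * - h01 h12; omega) H.d02
    · exact absurd (by clear * - h01 h04 h12; omega) H.n478
  · rcases H.e13 with h13 | h13 | h13 | h13 | h13 | h13 | h13
    · exact absurd (by clear * - h01 h04 h13; omega) H.n470
    · exact absurd (by clear * - h02 h03 h13; omega) H.n185
    · exact absurd (by clear * - h02 h04 h13; omega) H.n152
    · exact absurd (by clear * - h01 h04 h13; omega) H.n475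
    · exact absurd (by clear * - h01 h04 h13; omega) H.n476
    · exact absurd (by clear * - h01 h13; omega) H.d03
    · exact absurd (by clear * - h03 h13; omega) H.d01
  · exact absurd (by clear * - h02 h04; omega) H.d24
  · rcases H.e16 with h16 | h16 | h16 | h16 | h16 | h16 | h16
    · exact absurd (by clear * - h01 h04 h16; omega) H.n470
    · exact absurd (by clear * - h01 h04 h16; omega) H.n472
    · exact absurd (by clear * - h01 h04 h16; omega) H.n473
    · exact absurd (by clear * - h02 h04 h16; omega) H.n152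
    · exact absurd (by clear * - h01 h04 h16; omega) H.n475
    · exact absurd (by clear * - h01 h16; omega) H.d06
    · exact absurd (by clear * - h01 h04 h16; omega) H.n478
  · exact absurd (by clear * - h01 h04; omega) H.d14
  · exact absurd (by clear * - h03 h04; omega) H.d34

theorem sub83 {x0 x1 x2 x3 x4 x5 x6 x7 x8 : ℕ} (H : Hyp x0 x1 x2 x3 x4 x5 x6 x7 x8)
    (h01 : x0 + x1 = x7) (h02 : x0 + x2 = x8) (h03 : x0 + x3 = x1) :
    2 * x1 = 3 * x0 ∧ x2 = 2 * x0 ∧ 2 * x3 = 5 * x0 ∧ x4 = 3 * x0 ∧ 2 * x5 = 7 * x0 ∧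
      x6 = 4 * x0 ∧ 2 * x7 = 9 * x0 ∧ 2 * x8 = 11 * x0 := by
  rcases H.e12 with h12 | h12 | h12 | h12 | h12 | h12 | h12
  · exact absurd (by clear * - h02 h03 h12; omega) H.n380
  · exact absurd (by clear * - h02 h03 h12; omega) H.n080
  · exact absurd (by clear * - h02 h03 h12; omega) H.n384
  · exact absurd (by clear * - h02 h03 h12; omega) H.n385
  · exact absurd (by clear * - h02 h03 h12; omega) H.n386
  · exact absurd (by clear * - h01 h12; omega) H.d02
  · exact absurd (by clear * - h02 h12; omega) H.d01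

theorem sub84 {x0 x1 x2 x3 x4 x5 x6 x7 x8 : ℕ} (H : Hyp x0 x1 x2 x3 x4 x5 x6 x7 x8)
    (h01 : x0 + x1 = x7) (h02 : x0 + x2 = x8) (h03 : x0 + x3 = x2) :
    2 * x1 = 3 * x0 ∧ x2 = 2 * x0 ∧ 2 * x3 = 5 * x0 ∧ x4 = 3 * x0 ∧ 2 * x5 = 7 * x0 ∧
      x6 = 4 * x0 ∧ 2 * x7 = 9 * x0 ∧ 2 * x8 = 11 * x0 := by
  rcases H.e12 with h12 | h12 | h12 | h12 | h12 | h12 | h12
  · exact absurd (by clear * - h01 h03 h12; omega) H.n370
  · exact absurd (by clear * - h01 h03 h12; omega) H.n171
  · exact absurd (by clear * - h01 h03 h12; omega) H.n374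
  · exact absurd (by clear * - h01 h03 h12; omega) H.n375
  · exact absurd (by clear * - h01 h03 h12; omega) H.n376
  · exact absurd (by clear * - h01 h12; omega) H.d02
  · exact absurd (by clear * - h02 h12; omega) H.d01

theorem sub85 {x0 x1 x2 x3 x4 x5 x6 x7 x8 : ℕ} (H : Hyp x0 x1 x2 x3 x4 x5 x6 x7 x8)
    (h01 : x0 + x1 = x7) (h02 : x0 + x2 = x8) (h03 : x0 + x3 = x4) :
    2 * x1 = 3 * x0 ∧ x2 = 2 * x0 ∧ 2 * x3 = 5 * x0 ∧ x4 = 3 * x0 ∧ 2 * x5 = 7 * x0 ∧
      x6 = 4 * x0 ∧ 2 * x7 = 9 * x0 ∧ 2 * x8 = 11 * x0 := by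
  rcases H.e14 with h14 | h14 | h14 | h14 | h14 | h14 | h14
  · exact absurd (by clear * - h01 h03 h14; omega) H.n370
  · exact absurd (by clear * - h01 h03 h14; omega) H.n372
  · exact absurd (by clear * - h01 h03 h14; omega) H.n171
  · exact absurd (by clear * - h01 h03 h14; omega) H.n375
  · exact absurd (by clear * - h01 h03 h14; omega) H.n376
  · exact absurd (by clear * - h01 h14; omega) H.d04
  · exact absurd (by clear * - h01 h03 h14; omega) H.n378

theorem sub86 {x0 x1 x2 x3 x4 x5 x6 x7 x8 : ℕ} (H : Hyp x0 x1 x2 x3 x4 x5 x6 x7 x8)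
    (h01 : x0 + x1 = x7) (h02 : x0 + x2 = x8) (h03 : x0 + x3 = x5) :
    2 * x1 = 3 * x0 ∧ x2 = 2 * x0 ∧ 2 * x3 = 5 * x0 ∧ x4 = 3 * x0 ∧ 2 * x5 = 7 * x0 ∧
      x6 = 4 * x0 ∧ 2 * x7 = 9 * x0 ∧ 2 * x8 = 11 * x0 := by
  rcases H.e25 with h25 | h25 | h25 | h25 | h25 | h25 | h25
  · exact absurd (by clear * - h02 h03 h25; omega) H.n380
  · exact absurd (by clear * - h02 h03 h25; omega) H.n381
  · exact absurd (by clear * - h02 h03 h25; omega) H.n080
  · exact absurd (by clear * - h02 h03 h25; omega) H.n384
  · exact absurd (by clear * - h02 h03 h25; omega) H.n386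
  · exact absurd (by clear * - h02 h03 h25; omega) H.n387
  · exact absurd (by clear * - h02 h25; omega) H.d05

theorem sub87 {x0 x1 x2 x3 x4 x5 x6 x7 x8 : ℕ} (H : Hyp x0 x1 x2 x3 x4 x5 x6 x7 x8)
    (h01 : x0 + x1 = x7) (h02 : x0 + x2 = x8) (h03 : x0 + x3 = x6) :
    2 * x1 = 3 * x0 ∧ x2 = 2 * x0 ∧ 2 * x3 = 5 * x0 ∧ x4 = 3 * x0 ∧ 2 * x5 = 7 * x0 ∧
      x6 = 4 * x0 ∧ 2 * x7 = 9 * x0 ∧ 2 * x8 = 11 * x0 := by
  rcases H.e16 with h16 | h16 | h16 | h16 | h16 | h16 | h16
  · exact absurd (by clear * - h01 h03 h16; omega) H.n370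
  · exact absurd (by clear * - h01 h03 h16; omega) H.n372
  · exact absurd (by clear * - h01 h03 h16; omega) H.n171
  · exact absurd (by clear * - h01 h03 h16; omega) H.n374
  · exact absurd (by clear * - h01 h03 h16; omega) H.n375
  · exact absurd (by clear * - h01 h16; omega) H.d06
  · exact absurd (by clear * - h01 h03 h16; omega) H.n378

theorem sub88 {x0 x1 x2 x3 x4 x5 x6 x7 x8 : ℕ} (H : Hyp x0 x1 x2 x3 x4 x5 x6 x7 x8)
    (h01 : x0 + x1 = x8) (h02 : x0 + x2 = x1) (h13 : x1 + x3 = x4) :
    2 * x1 = 3 * x0 ∧ x2 = 2 * x0 ∧ 2 * x3 = 5 * x0 ∧ x4 = 3 * x0 ∧ 2 * x5 = 7 * x0 ∧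
      x6 = 4 * x0 ∧ 2 * x7 = 9 * x0 ∧ 2 * x8 = 11 * x0 := by
  rcases H.e04 with h04 | h04 | h04 | h04 | h04 | h04 | h04
  · exact absurd (by clear * - h02 h04; omega) H.d24
  · exact absurd (by clear * - h01 h13 h04; omega) H.n382
  · exact absurd (by clear * - h01 h13 h04; omega) H.n080
  · exact absurd (by clear * - h01 h13 h04; omega) H.n385
  · exact absurd (by clear * - h01 h13 h04; omega) H.n386
  · exact absurd (by clear * - h01 h13 h04; omega) H.n387
  · exact absurd (by clear * - h01 h04; omega) H.d14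

theorem sub89 {x0 x1 x2 x3 x4 x5 x6 x7 x8 : ℕ} (H : Hyp x0 x1 x2 x3 x4 x5 x6 x7 x8)
    (h01 : x0 + x1 = x8) (h02 : x0 + x2 = x1) (h13 : x1 + x3 = x5) :
    2 * x1 = 3 * x0 ∧ x2 = 2 * x0 ∧ 2 * x3 = 5 * x0 ∧ x4 = 3 * x0 ∧ 2 * x5 = 7 * x0 ∧
      x6 = 4 * x0 ∧ 2 * x7 = 9 * x0 ∧ 2 * x8 = 11 * x0 := by
  rcases H.e05 with h05 | h05 | h05 | h05 | h05 | h05 | h05
  · exact absurd (by clear * - h02 h05; omega) H.d25
  · exact absurd (by clear * - h01 h13 h05; omega) H.n382
  · exact absurd (by clear * - h01 h13 h05; omega) H.n080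
  · exact absurd (by clear * - h01 h13 h05; omega) H.n384
  · exact absurd (by clear * - h01 h13 h05; omega) H.n386
  · exact absurd (by clear * - h01 h13 h05; omega) H.n387
  · exact absurd (by clear * - h01 h05; omega) H.d15

theorem sub90 {x0 x1 x2 x3 x4 x5 x6 x7 x8 : ℕ} (H : Hyp x0 x1 x2 x3 x4 x5 x6 x7 x8)
    (h01 : x0 + x1 = x8) (h02 : x0 + x2 = x1) (h13 : x1 + x3 = x6) :
    2 * x1 = 3 * x0 ∧ x2 = 2 * x0 ∧ 2 * x3 = 5 * x0 ∧ x4 = 3 * x0 ∧ 2 * x5 = 7 * x0 ∧
      x6 = 4 * x0 ∧ 2 * x7 = 9 * x0 ∧ 2 * x8 = 11 * x0 := by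
  rcases H.e16 with h16 | h16 | h16 | h16 | h16 | h16 | h16
  · exfalso; have p2 := H.p2; have p6 := H.p6; clear * - h02 h16 p2 p6; omega
  · exact absurd (by clear * - h01 h02 h16; omega) H.n681
  · exact absurd (by clear * - h01 h13 h16; omega) H.d08
  · exfalso; have p2 := H.p2; have p3 := H.p3; have t4 := H.t4; clear * - h01 h02 h13 h16 p2 p3 t4; omega
  · exfalso; have p2 := H.p2; have p3 := H.p3; have t5 := H.t5; clear * - h01 h02 h13 h16 p2 p3 t5; omega
  · exfalso; have p2 := H.p2; have p3 := H.p3; have t7 := H.t7; clear * - h01 h02 h13 h16 p2 p3 t7; omega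
  · exact absurd (by clear * - h01 h16; omega) H.d06

theorem sub91 {x0 x1 x2 x3 x4 x5 x6 x7 x8 : ℕ} (H : Hyp x0 x1 x2 x3 x4 x5 x6 x7 x8)
    (h01 : x0 + x1 = x8) (h02 : x0 + x2 = x1) (h13 : x1 + x3 = x7) :
    2 * x1 = 3 * x0 ∧ x2 = 2 * x0 ∧ 2 * x3 = 5 * x0 ∧ x4 = 3 * x0 ∧ 2 * x5 = 7 * x0 ∧
      x6 = 4 * x0 ∧ 2 * x7 = 9 * x0 ∧ 2 * x8 = 11 * x0 := by
  rcases H.e07 with h07 | h07 | h07 | h07 | h07 | h07 | h07
  · exact absurd (by clear * - h02 h07; omega) H.d27
  · exact absurd (by clear * - h01 h13 h07; omega) H.n382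
  · exact absurd (by clear * - h01 h13 h07; omega) H.n080
  · exact absurd (by clear * - h01 h13 h07; omega) H.n384
  · exact absurd (by clear * - h01 h13 h07; omega) H.n385
  · exact absurd (by clear * - h01 h13 h07; omega) H.n386
  · exact absurd (by clear * - h01 h07; omega) H.d17

theorem sub92 {x0 x1 x2 x3 x4 x5 x6 x7 x8 : ℕ} (H : Hyp x0 x1 x2 x3 x4 x5 x6 x7 x8)
    (h01 : x0 + x1 = x8) (h02 : x0 + x2 = x5) (h03 : x0 + x3 = x1) :
    2 * x1 = 3 * x0 ∧ x2 = 2 * x0 ∧ 2 * x3 = 5 * x0 ∧ x4 = 3 * x0 ∧ 2 * x5 = 7 * x0 ∧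
      x6 = 4 * x0 ∧ 2 * x7 = 9 * x0 ∧ 2 * x8 = 11 * x0 := by
  rcases H.e12 with h12 | h12 | h12 | h12 | h12 | h12 | h12
  · exact absurd (by clear * - h02 h03 h12; omega) H.n350
  · exact absurd (by clear * - h02 h03 h12; omega) H.n151
  · exact absurd (by clear * - h02 h03 h12; omega) H.n354
  · exact absurd (by clear * - h02 h12; omega) H.d01
  · exact absurd (by clear * - h02 h03 h12; omega) H.n356
  · exact absurd (by clear * - h02 h03 h12; omega) H.n357
  · exact absurd (by clear * - h01 h12; omega) H.d02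

theorem sub93 {x0 x1 x2 x3 x4 x5 x6 x7 x8 : ℕ} (H : Hyp x0 x1 x2 x3 x4 x5 x6 x7 x8)
    (h01 : x0 + x1 = x8) (h02 : x0 + x2 = x5) (h03 : x0 + x3 = x2) :
    2 * x1 = 3 * x0 ∧ x2 = 2 * x0 ∧ 2 * x3 = 5 * x0 ∧ x4 = 3 * x0 ∧ 2 * x5 = 7 * x0 ∧
      x6 = 4 * x0 ∧ 2 * x7 = 9 * x0 ∧ 2 * x8 = 11 * x0 := by
  rcases H.e12 with h12 | h12 | h12 | h12 | h12 | h12 | h12
  · exact absurd (by clear * - h01 h03 h12; omega) H.n380
  · exact absurd (by clear * - h01 h03 h12; omega) H.n080
  · exact absurd (by clear * - h01 h03 h12; omega) H.n384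
  · exact absurd (by clear * - h02 h12; omega) H.d01
  · exact absurd (by clear * - h01 h03 h12; omega) H.n386
  · exact absurd (by clear * - h01 h03 h12; omega) H.n387
  · exact absurd (by clear * - h01 h12; omega) H.d02

theorem sub94 {x0 x1 x2 x3 x4 x5 x6 x7 x8 : ℕ} (H : Hyp x0 x1 x2 x3 x4 x5 x6 x7 x8)
    (h01 : x0 + x1 = x8) (h02 : x0 + x2 = x5) (h03 : x0 + x3 = x4) :
    2 * x1 = 3 * x0 ∧ x2 = 2 * x0 ∧ 2 * x3 = 5 * x0 ∧ x4 = 3 * x0 ∧ 2 * x5 = 7 * x0 ∧
      x6 = 4 * x0 ∧ 2 * x7 = 9 * x0 ∧ 2 * x8 = 11 * x0 := by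
  rcases H.e14 with h14 | h14 | h14 | h14 | h14 | h14 | h14
  · exact absurd (by clear * - h01 h03 h14; omega) H.n380
  · exact absurd (by clear * - h01 h03 h14; omega) H.n382
  · exact absurd (by clear * - h01 h03 h14; omega) H.n080
  · exact absurd (by clear * - h01 h03 h14; omega) H.n385
  · exact absurd (by clear * - h01 h03 h14; omega) H.n386
  · exact absurd (by clear * - h01 h03 h14; omega) H.n387
  · exact absurd (by clear * - h01 h14; omega) H.d04

theorem sub95 {x0 x1 x2 x3 x4 x5 x6 x7 x8 : ℕ} (H : Hyp x0 x1 x2 x3 x4 x5 x6 x7 x8)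
    (h01 : x0 + x1 = x8) (h02 : x0 + x2 = x5) (h03 : x0 + x3 = x6) :
    2 * x1 = 3 * x0 ∧ x2 = 2 * x0 ∧ 2 * x3 = 5 * x0 ∧ x4 = 3 * x0 ∧ 2 * x5 = 7 * x0 ∧
      x6 = 4 * x0 ∧ 2 * x7 = 9 * x0 ∧ 2 * x8 = 11 * x0 := by
  rcases H.e16 with h16 | h16 | h16 | h16 | h16 | h16 | h16
  · exact absurd (by clear * - h01 h03 h16; omega) H.n380
  · exact absurd (by clear * - h01 h03 h16; omega) H.n382
  · exact absurd (by clear * - h01 h03 h16; omega) H.n080
  · exact absurd (by clear * - h01 h03 h16; omega) H.n384
  · exact absurd (by clear * - h01 h03 h16; omega) H.n385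
  · exact absurd (by clear * - h01 h03 h16; omega) H.n387
  · exact absurd (by clear * - h01 h16; omega) H.d06

theorem sub96 {x0 x1 x2 x3 x4 x5 x6 x7 x8 : ℕ} (H : Hyp x0 x1 x2 x3 x4 x5 x6 x7 x8)
    (h01 : x0 + x1 = x8) (h02 : x0 + x2 = x5) (h03 : x0 + x3 = x7) :
    2 * x1 = 3 * x0 ∧ x2 = 2 * x0 ∧ 2 * x3 = 5 * x0 ∧ x4 = 3 * x0 ∧ 2 * x5 = 7 * x0 ∧
      x6 = 4 * x0 ∧ 2 * x7 = 9 * x0 ∧ 2 * x8 = 11 * x0 := by
  rcases H.e04 with h04 | h04 | h04 | h04 | h04 | h04 | h04
  · rcases H.e12 with h12 | h12 | h12 | h12 | h12 | h12 | h12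
    · exact absurd (by clear * - h02 h04 h12; omega) H.n450
    · exact absurd (by clear * - h02 h03 h12; omega) H.n157
    · exact absurd (by clear * - h02 h04 h12; omega) H.n151
    · exact absurd (by clear * - h02 h12; omega) H.d01
    · exact absurd (by clear * - h02 h04 h12; omega) H.n456
    · exact absurd (by clear * - h03 h04 h12; omega) H.n243
    · exact absurd (by clear * - h01 h12; omega) H.d02
  · rcases H.e12 with h12 | h12 | h12 | h12 | h12 | h12 | h12
    · exact absurd (by clear * - h01 h04 h12; omega) H.n480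
    · exact absurd (by clear * - h02 h03 h12; omega) H.n157
    · exact absurd (by clear * - h01 h04 h12; omega) H.n080
    · exact absurd (by clear * - h02 h12; omega) H.d01
    · exact absurd (by clear * - h01 h04 h12; omega) H.n486
    · exact absurd (by clear * - h01 h04 h12; omega) H.n487
    · exact absurd (by clear * - h01 h12; omega) H.d02
  · rcases H.e13 with h13 | h13 | h13 | h13 | h13 | h13 | h13
    · exact absurd (by clear * - h01 h04 h13; omega) H.n480
    · exact absurd (by clear * - h02 h03 h13; omega) H.n175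
    · exact absurd (by clear * - h01 h04 h13; omega) H.n080
    · exact absurd (by clear * - h01 h04 h13; omega) H.n485
    · exact absurd (by clear * - h01 h04 h13; omega) H.n486
    · exact absurd (by clear * - h03 h13; omega) H.d01
    · exact absurd (by clear * - h01 h13; omega) H.d03
  · exact absurd (by clear * - h02 h04; omega) H.d24
  · rcases H.e16 with h16 | h16 | h16 | h16 | h16 | h16 | h16
    · exact absurd (by clear * - h01 h04 h16; omega) H.n480
    · exact absurd (by clear * - h01 h04 h16; omega) H.n482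
    · exact absurd (by clear * - h01 h04 h16; omega) H.n483
    · exact absurd (by clear * - h01 h04 h16; omega) H.n080
    · exact absurd (by clear * - h01 h04 h16; omega) H.n485
    · exact absurd (by clear * - h01 h04 h16; omega) H.n487
    · exact absurd (by clear * - h01 h16; omega) H.d06
  · exact absurd (by clear * - h03 h04; omega) H.d34
  · exact absurd (by clear * - h01 h04; omega) H.d14

theorem sub97 {x0 x1 x2 x3 x4 x5 x6 x7 x8 : ℕ} (H : Hyp x0 x1 x2 x3 x4 x5 x6 x7 x8)
    (h01 : x0 + x1 = x8) (h02 : x0 + x2 = x7) (h03 : x0 + x3 = x1) :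
    2 * x1 = 3 * x0 ∧ x2 = 2 * x0 ∧ 2 * x3 = 5 * x0 ∧ x4 = 3 * x0 ∧ 2 * x5 = 7 * x0 ∧
      x6 = 4 * x0 ∧ 2 * x7 = 9 * x0 ∧ 2 * x8 = 11 * x0 := by
  rcases H.e12 with h12 | h12 | h12 | h12 | h12 | h12 | h12
  · exact absurd (by clear * - h02 h03 h12; omega) H.n370
  · exact absurd (by clear * - h02 h03 h12; omega) H.n171
  · exact absurd (by clear * - h02 h03 h12; omega) H.n374
  · exact absurd (by clear * - h02 h03 h12; omega) H.n375
  · exact absurd (by clear * - h02 h03 h12; omega) H.n376
  · exact absurd (by clear * - h02 h12; omega) H.d01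
  · exact absurd (by clear * - h01 h12; omega) H.d02

theorem sub98 {x0 x1 x2 x3 x4 x5 x6 x7 x8 : ℕ} (H : Hyp x0 x1 x2 x3 x4 x5 x6 x7 x8)
    (h01 : x0 + x1 = x8) (h02 : x0 + x2 = x7) (h03 : x0 + x3 = x2) :
    2 * x1 = 3 * x0 ∧ x2 = 2 * x0 ∧ 2 * x3 = 5 * x0 ∧ x4 = 3 * x0 ∧ 2 * x5 = 7 * x0 ∧
      x6 = 4 * x0 ∧ 2 * x7 = 9 * x0 ∧ 2 * x8 = 11 * x0 := by
  rcases H.e12 with h12 | h12 | h12 | h12 | h12 | h12 | h12
  · exact absurd (by clear * - h01 h03 h12; omega) H.n380
  · exact absurd (by clear * - h01 h03 h12; omega) H.n080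
  · exact absurd (by clear * - h01 h03 h12; omega) H.n384
  · exact absurd (by clear * - h01 h03 h12; omega) H.n385
  · exact absurd (by clear * - h01 h03 h12; omega) H.n386
  · exact absurd (by clear * - h02 h12; omega) H.d01
  · exact absurd (by clear * - h01 h12; omega) H.d02

theorem sub99 {x0 x1 x2 x3 x4 x5 x6 x7 x8 : ℕ} (H : Hyp x0 x1 x2 x3 x4 x5 x6 x7 x8)
    (h01 : x0 + x1 = x8) (h02 : x0 + x2 = x7) (h03 : x0 + x3 = x4) :
    2 * x1 = 3 * x0 ∧ x2 = 2 * x0 ∧ 2 * x3 = 5 * x0 ∧ x4 = 3 * x0 ∧ 2 * x5 = 7 * x0 ∧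
      x6 = 4 * x0 ∧ 2 * x7 = 9 * x0 ∧ 2 * x8 = 11 * x0 := by
  rcases H.e14 with h14 | h14 | h14 | h14 | h14 | h14 | h14
  · exact absurd (by clear * - h01 h03 h14; omega) H.n380
  · exact absurd (by clear * - h01 h03 h14; omega) H.n382
  · exact absurd (by clear * - h01 h03 h14; omega) H.n080
  · exact absurd (by clear * - h01 h03 h14; omega) H.n385
  · exact absurd (by clear * - h01 h03 h14; omega) H.n386
  · exact absurd (by clear * - h01 h03 h14; omega) H.n387
  · exact absurd (by clear * - h01 h14; omega) H.d04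

theorem sub100 {x0 x1 x2 x3 x4 x5 x6 x7 x8 : ℕ} (H : Hyp x0 x1 x2 x3 x4 x5 x6 x7 x8)
    (h01 : x0 + x1 = x8) (h02 : x0 + x2 = x7) (h03 : x0 + x3 = x5) :
    2 * x1 = 3 * x0 ∧ x2 = 2 * x0 ∧ 2 * x3 = 5 * x0 ∧ x4 = 3 * x0 ∧ 2 * x5 = 7 * x0 ∧
      x6 = 4 * x0 ∧ 2 * x7 = 9 * x0 ∧ 2 * x8 = 11 * x0 := by
  rcases H.e25 with h25 | h25 | h25 | h25 | h25 | h25 | h25
  · exact absurd (by clear * - h02 h03 h25; omega) H.n370
  · exact absurd (by clear * - h02 h03 h25; omega) H.n371
  · exact absurd (by clear * - h02 h03 h25; omega) H.n171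
  · exact absurd (by clear * - h02 h03 h25; omega) H.n374
  · exact absurd (by clear * - h02 h03 h25; omega) H.n376
  · exact absurd (by clear * - h02 h25; omega) H.d05
  · exact absurd (by clear * - h02 h03 h25; omega) H.n378

theorem sub101 {x0 x1 x2 x3 x4 x5 x6 x7 x8 : ℕ} (H : Hyp x0 x1 x2 x3 x4 x5 x6 x7 x8)
    (h01 : x0 + x1 = x8) (h02 : x0 + x2 = x7) (h03 : x0 + x3 = x6) :
    2 * x1 = 3 * x0 ∧ x2 = 2 * x0 ∧ 2 * x3 = 5 * x0 ∧ x4 = 3 * x0 ∧ 2 * x5 = 7 * x0 ∧
      x6 = 4 * x0 ∧ 2 * x7 = 9 * x0 ∧ 2 * x8 = 11 * x0 := by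
  rcases H.e16 with h16 | h16 | h16 | h16 | h16 | h16 | h16
  · exact absurd (by clear * - h01 h03 h16; omega) H.n380
  · exact absurd (by clear * - h01 h03 h16; omega) H.n382
  · exact absurd (by clear * - h01 h03 h16; omega) H.n080
  · exact absurd (by clear * - h01 h03 h16; omega) H.n384
  · exact absurd (by clear * - h01 h03 h16; omega) H.n385
  · exact absurd (by clear * - h01 h03 h16; omega) H.n387
  · exact absurd (by clear * - h01 h16; omega) H.d06

theorem core {x0 x1 x2 x3 x4 x5 x6 x7 x8 : ℕ} (H : Hyp x0 x1 x2 x3 x4 x5 x6 x7 x8) :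
    2 * x1 = 3 * x0 ∧ x2 = 2 * x0 ∧ 2 * x3 = 5 * x0 ∧ x4 = 3 * x0 ∧ 2 * x5 = 7 * x0 ∧
      x6 = 4 * x0 ∧ 2 * x7 = 9 * x0 ∧ 2 * x8 = 11 * x0 := by
  rcases H.e01 with h01 | h01 | h01 | h01 | h01 | h01 | h01
  · rcases H.e23 with h23 | h23 | h23 | h23 | h23 | h23 | h23
    · exfalso; have p1 := H.p1; have p3 := H.p3; clear * - h01 h23 p1 p3; omega
    · exfalso; have p0 := H.p0; have p3 := H.p3; clear * - h01 h23 p0 p3; omega
    · rcases H.e03 with h03 | h03 | h03 | h03 | h03 | h03 | h03
      · exact sub0 H h01 h23 h03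
      · exact absurd (by clear * - h01 h03; omega) H.d13
      · exact absurd (by clear * - h23 h03; omega) H.d02
      · exact absurd (by clear * - h01 h23 h03; omega) H.n154
      · exact sub1 H h01 h23 h03
      · exact absurd (by clear * - h01 h23 h03; omega) H.n174
      · exact absurd (by clear * - h01 h23 h03; omega) H.n184
    · rcases H.e03 with h03 | h03 | h03 | h03 | h03 | h03 | h03
      · exact sub2 H h01 h23 h03
      · exact absurd (by clear * - h01 h03; omega) H.d13
      · exact sub3 H h01 h23 h03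
      · exact absurd (by clear * - h23 h03; omega) H.d02
      · exact sub4 H h01 h23 h03
      · exact absurd (by clear * - h01 h23 h03; omega) H.n175
      · exact absurd (by clear * - h01 h23 h03; omega) H.n185
    · rcases H.e03 with h03 | h03 | h03 | h03 | h03 | h03 | h03
      · exact sub5 H h01 h23 h03
      · exact absurd (by clear * - h01 h03; omega) H.d13
      · exact sub6 H h01 h23 h03
      · exact absurd (by clear * - h01 h23 h03; omega) H.n156
      · exact absurd (by clear * - h23 h03; omega) H.d02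
      · exact absurd (by clear * - h01 h23 h03; omega) H.n176
      · exact absurd (by clear * - h01 h23 h03; omega) H.n186
    · rcases H.e03 with h03 | h03 | h03 | h03 | h03 | h03 | h03
      · exact sub7 H h01 h23 h03
      · exact absurd (by clear * - h01 h03; omega) H.d13
      · exact sub8 H h01 h23 h03
      · exact absurd (by clear * - h01 h23 h03; omega) H.n157
      · exact sub9 H h01 h23 h03
      · exact absurd (by clear * - h23 h03; omega) H.d02
      · exact absurd (by clear * - h01 h23 h03; omega) H.n187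
    · rcases H.e03 with h03 | h03 | h03 | h03 | h03 | h03 | h03
      · exact sub10 H h01 h23 h03
      · exact absurd (by clear * - h01 h03; omega) H.d13
      · exact sub11 H h01 h23 h03
      · exact absurd (by clear * - h01 h23 h03; omega) H.n158
      · exact sub12 H h01 h23 h03
      · exact absurd (by clear * - h01 h23 h03; omega) H.n178
      · exact absurd (by clear * - h23 h03; omega) H.d02
  · rcases H.e23 with h23 | h23 | h23 | h23 | h23 | h23 | h23
    · exfalso; have p1 := H.p1; have p2 := H.p2; clear * - h01 h23 p1 p2; omega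
    · exfalso; have p0 := H.p0; have p2 := H.p2; clear * - h01 h23 p0 p2; omega
    · rcases H.e02 with h02 | h02 | h02 | h02 | h02 | h02 | h02
      · exact sub13 H h01 h23 h02
      · exact absurd (by clear * - h01 h02; omega) H.d12
      · exact absurd (by clear * - h23 h02; omega) H.d03
      · exact absurd (by clear * - h01 h23 h02; omega) H.n154
      · exact sub14 H h01 h23 h02
      · exact absurd (by clear * - h01 h23 h02; omega) H.n174
      · exact absurd (by clear * - h01 h23 h02; omega) H.n184
    · rcases H.e02 with h02 | h02 | h02 | h02 | h02 | h02 | h02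
      · exact sub15 H h01 h23 h02
      · exact absurd (by clear * - h01 h02; omega) H.d12
      · exact sub16 H h01 h23 h02
      · exact absurd (by clear * - h23 h02; omega) H.d03
      · exact sub17 H h01 h23 h02
      · exact absurd (by clear * - h01 h23 h02; omega) H.n175
      · exact absurd (by clear * - h01 h23 h02; omega) H.n185
    · rcases H.e02 with h02 | h02 | h02 | h02 | h02 | h02 | h02
      · exact sub18 H h01 h23 h02
      · exact absurd (by clear * - h01 h02; omega) H.d12
      · exact sub19 H h01 h23 h02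
      · exact absurd (by clear * - h01 h23 h02; omega) H.n156
      · exact absurd (by clear * - h23 h02; omega) H.d03
      · exact absurd (by clear * - h01 h23 h02; omega) H.n176
      · exact absurd (by clear * - h01 h23 h02; omega) H.n186
    · rcases H.e02 with h02 | h02 | h02 | h02 | h02 | h02 | h02
      · exact sub20 H h01 h23 h02
      · exact absurd (by clear * - h01 h02; omega) H.d12
      · exact sub21 H h01 h23 h02
      · exact absurd (by clear * - h01 h23 h02; omega) H.n157
      · exact sub22 H h01 h23 h02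
      · exact absurd (by clear * - h23 h02; omega) H.d03
      · exact absurd (by clear * - h01 h23 h02; omega) H.n187
    · rcases H.e02 with h02 | h02 | h02 | h02 | h02 | h02 | h02
      · exact sub23 H h01 h23 h02
      · exact absurd (by clear * - h01 h02; omega) H.d12
      · exact sub24 H h01 h23 h02
      · exact absurd (by clear * - h01 h23 h02; omega) H.n158
      · exact sub25 H h01 h23 h02
      · exact absurd (by clear * - h01 h23 h02; omega) H.n178
      · exact absurd (by clear * - h23 h02; omega) H.d03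
  · rcases H.e34 with h34 | h34 | h34 | h34 | h34 | h34 | h34
    · exfalso; have p1 := H.p1; have p3 := H.p3; clear * - h01 h34 p1 p3; omega
    · exfalso; have p0 := H.p0; have p3 := H.p3; clear * - h01 h34 p0 p3; omega
    · rcases H.e03 with h03 | h03 | h03 | h03 | h03 | h03 | h03
      · exact sub26 H h01 h34 h03
      · exact absurd (by clear * - h34 h03; omega) H.d04
      · exact absurd (by clear * - h01 h03; omega) H.d13
      · exact absurd (by clear * - h01 h34 h03; omega) H.n152
      · exact sub27 H h01 h34 h03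
      · exact absurd (by clear * - h01 h34 h03; omega) H.n172
      · exact absurd (by clear * - h01 h34 h03; omega) H.n182
    · rcases H.e03 with h03 | h03 | h03 | h03 | h03 | h03 | h03
      · exact sub28 H h01 h34 h03
      · exact sub29 H h01 h34 h03
      · exact absurd (by clear * - h01 h03; omega) H.d13
      · exact absurd (by clear * - h34 h03; omega) H.d04
      · exact sub30 H h01 h34 h03
      · exact absurd (by clear * - h01 h34 h03; omega) H.n175
      · exact absurd (by clear * - h01 h34 h03; omega) H.n185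
    · rcases H.e03 with h03 | h03 | h03 | h03 | h03 | h03 | h03
      · exact sub31 H h01 h34 h03
      · exact sub32 H h01 h34 h03
      · exact absurd (by clear * - h01 h03; omega) H.d13
      · exact absurd (by clear * - h01 h34 h03; omega) H.n156
      · exact absurd (by clear * - h34 h03; omega) H.d04
      · exact absurd (by clear * - h01 h34 h03; omega) H.n176
      · exact absurd (by clear * - h01 h34 h03; omega) H.n186
    · rcases H.e03 with h03 | h03 | h03 | h03 | h03 | h03 | h03
      · exact sub33 H h01 h34 h03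
      · exact sub34 H h01 h34 h03
      · exact absurd (by clear * - h01 h03; omega) H.d13
      · exact absurd (by clear * - h01 h34 h03; omega) H.n157
      · exact sub35 H h01 h34 h03
      · exact absurd (by clear * - h34 h03; omega) H.d04
      · exact absurd (by clear * - h01 h34 h03; omega) H.n187
    · rcases H.e03 with h03 | h03 | h03 | h03 | h03 | h03 | h03
      · exact sub36 H h01 h34 h03
      · exact sub37 H h01 h34 h03
      · exact absurd (by clear * - h01 h03; omega) H.d13
      · exact absurd (by clear * - h01 h34 h03; omega) H.n158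
      · exact sub38 H h01 h34 h03
      · exact absurd (by clear * - h01 h34 h03; omega) H.n178
      · exact absurd (by clear * - h34 h03; omega) H.d04
  · rcases H.e25 with h25 | h25 | h25 | h25 | h25 | h25 | h25
    · exfalso; have p1 := H.p1; have p2 := H.p2; clear * - h01 h25 p1 p2; omega
    · exfalso; have p0 := H.p0; have p2 := H.p2; clear * - h01 h25 p0 p2; omega
    · rcases H.e02 with h02 | h02 | h02 | h02 | h02 | h02 | h02
      · exact sub39 H h01 h25 h02
      · exact absurd (by clear * - h25 h02; omega) H.d05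
      · exact sub40 H h01 h25 h02
      · exact absurd (by clear * - h01 h02; omega) H.d12
      · exact sub41 H h01 h25 h02
      · exact absurd (by clear * - h01 h25 h02; omega) H.n173
      · exact absurd (by clear * - h01 h25 h02; omega) H.n183
    · rcases H.e02 with h02 | h02 | h02 | h02 | h02 | h02 | h02
      · exact sub42 H h01 h25 h02
      · exact sub43 H h01 h25 h02
      · exact absurd (by clear * - h25 h02; omega) H.d05
      · exact absurd (by clear * - h01 h02; omega) H.d12
      · exact sub44 H h01 h25 h02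
      · exact absurd (by clear * - h01 h25 h02; omega) H.n174
      · exact absurd (by clear * - h01 h25 h02; omega) H.n184
    · rcases H.e02 with h02 | h02 | h02 | h02 | h02 | h02 | h02
      · exact sub45 H h01 h25 h02
      · exact sub46 H h01 h25 h02
      · exact sub47 H h01 h25 h02
      · exact absurd (by clear * - h01 h02; omega) H.d12
      · exact absurd (by clear * - h25 h02; omega) H.d05
      · exact absurd (by clear * - h01 h25 h02; omega) H.n176
      · exact absurd (by clear * - h01 h25 h02; omega) H.n186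
    · rcases H.e12 with h12 | h12 | h12 | h12 | h12 | h12 | h12
      · exact sub48 H h01 h25 h12
      · exact sub49 H h01 h25 h12
      · exact sub50 H h01 h25 h12
      · exact absurd (by clear * - h01 h12; omega) H.d02
      · exact absurd (by clear * - h01 h25 h12; omega) H.n067
      · exact absurd (by clear * - h25 h12; omega) H.d15
      · exact absurd (by clear * - h01 h25 h12; omega) H.n087
    · rcases H.e02 with h02 | h02 | h02 | h02 | h02 | h02 | h02
      · exact sub51 H h01 h25 h02
      · exact sub52 H h01 h25 h02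
      · exact sub53 H h01 h25 h02
      · exact absurd (by clear * - h01 h02; omega) H.d12
      · exact sub54 H h01 h25 h02
      · exact absurd (by clear * - h01 h25 h02; omega) H.n178
      · exact absurd (by clear * - h25 h02; omega) H.d05
  · rcases H.e02 with h02 | h02 | h02 | h02 | h02 | h02 | h02
    · rcases H.e13 with h13 | h13 | h13 | h13 | h13 | h13 | h13
      · exfalso; have p2 := H.p2; have p3 := H.p3; clear * - h02 h13 p2 p3; omega
      · exact absurd (by clear * - h01 h02 h13; omega) H.n361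
      · exact sub55 H h01 h02 h13
      · exact sub56 H h01 h02 h13
      · exact absurd (by clear * - h01 h13; omega) H.d03
      · exact sub57 H h01 h02 h13
      · exact sub58 H h01 h02 h13
    · rcases H.e13 with h13 | h13 | h13 | h13 | h13 | h13 | h13
      · exact absurd (by clear * - h01 h02 h13; omega) H.n260
      · exact absurd (by clear * - h01 h02 h13; omega) H.n060
      · exact absurd (by clear * - h01 h02 h13; omega) H.n264
      · exact absurd (by clear * - h01 h02 h13; omega) H.n265
      · exact absurd (by clear * - h01 h13; omega) H.d03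
      · exact absurd (by clear * - h01 h02 h13; omega) H.n267
      · exact absurd (by clear * - h01 h02 h13; omega) H.n268
    · rcases H.e14 with h14 | h14 | h14 | h14 | h14 | h14 | h14
      · exact absurd (by clear * - h01 h02 h14; omega) H.n260
      · exact absurd (by clear * - h01 h02 h14; omega) H.n060
      · exact absurd (by clear * - h01 h02 h14; omega) H.n263
      · exact absurd (by clear * - h01 h02 h14; omega) H.n265
      · exact absurd (by clear * - h01 h14; omega) H.d04
      · exact absurd (by clear * - h01 h02 h14; omega) H.n267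
      · exact absurd (by clear * - h01 h02 h14; omega) H.n268
    · rcases H.e03 with h03 | h03 | h03 | h03 | h03 | h03 | h03
      · exact sub59 H h01 h02 h03
      · exact sub60 H h01 h02 h03
      · exact sub61 H h01 h02 h03
      · exact absurd (by clear * - h02 h03; omega) H.d23
      · exact absurd (by clear * - h01 h03; omega) H.d13
      · exact sub62 H h01 h02 h03
      · exact sub63 H h01 h02 h03
    · exact absurd (by clear * - h01 h02; omega) H.d12
    · rcases H.e03 with h03 | h03 | h03 | h03 | h03 | h03 | h03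
      · exact sub64 H h01 h02 h03
      · exact sub65 H h01 h02 h03
      · exact sub66 H h01 h02 h03
      · exact sub67 H h01 h02 h03
      · exact absurd (by clear * - h01 h03; omega) H.d13
      · exact absurd (by clear * - h02 h03; omega) H.d23
      · exact sub68 H h01 h02 h03
    · rcases H.e03 with h03 | h03 | h03 | h03 | h03 | h03 | h03
      · exact sub69 H h01 h02 h03
      · exact sub70 H h01 h02 h03
      · exact sub71 H h01 h02 h03
      · exact sub72 H h01 h02 h03
      · exact absurd (by clear * - h01 h03; omega) H.d13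
      · exact sub73 H h01 h02 h03
      · exact absurd (by clear * - h02 h03; omega) H.d23
  · rcases H.e02 with h02 | h02 | h02 | h02 | h02 | h02 | h02
    · rcases H.e13 with h13 | h13 | h13 | h13 | h13 | h13 | h13
      · exfalso; have p2 := H.p2; have p3 := H.p3; clear * - h02 h13 p2 p3; omega
      · exact absurd (by clear * - h01 h02 h13; omega) H.n371
      · exact sub74 H h01 h02 h13
      · exact sub75 H h01 h02 h13
      · exact sub76 H h01 h02 h13
      · exact absurd (by clear * - h01 h13; omega) H.d03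
      · exact sub77 H h01 h02 h13
    · rcases H.e13 with h13 | h13 | h13 | h13 | h13 | h13 | h13
      · exact absurd (by clear * - h01 h02 h13; omega) H.n270
      · exact absurd (by clear * - h01 h02 h13; omega) H.n171
      · exact absurd (by clear * - h01 h02 h13; omega) H.n274
      · exact absurd (by clear * - h01 h02 h13; omega) H.n275
      · exact absurd (by clear * - h01 h02 h13; omega) H.n276
      · exact absurd (by clear * - h01 h13; omega) H.d03
      · exact absurd (by clear * - h01 h02 h13; omega) H.n278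
    · rcases H.e14 with h14 | h14 | h14 | h14 | h14 | h14 | h14
      · exact absurd (by clear * - h01 h02 h14; omega) H.n270
      · exact absurd (by clear * - h01 h02 h14; omega) H.n171
      · exact absurd (by clear * - h01 h02 h14; omega) H.n273
      · exact absurd (by clear * - h01 h02 h14; omega) H.n275
      · exact absurd (by clear * - h01 h02 h14; omega) H.n276
      · exact absurd (by clear * - h01 h14; omega) H.d04
      · exact absurd (by clear * - h01 h02 h14; omega) H.n278
    · rcases H.e03 with h03 | h03 | h03 | h03 | h03 | h03 | h03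
      · exact sub78 H h01 h02 h03
      · exact sub79 H h01 h02 h03
      · exact sub80 H h01 h02 h03
      · exact absurd (by clear * - h02 h03; omega) H.d23
      · exact sub81 H h01 h02 h03
      · exact absurd (by clear * - h01 h03; omega) H.d13
      · exact sub82 H h01 h02 h03
    · rcases H.e16 with h16 | h16 | h16 | h16 | h16 | h16 | h16
      · exact absurd (by clear * - h01 h02 h16; omega) H.n270
      · exact absurd (by clear * - h01 h02 h16; omega) H.n171
      · exact absurd (by clear * - h01 h02 h16; omega) H.n273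
      · exact absurd (by clear * - h01 h02 h16; omega) H.n274
      · exact absurd (by clear * - h01 h02 h16; omega) H.n275
      · exact absurd (by clear * - h01 h16; omega) H.d06
      · exact absurd (by clear * - h01 h02 h16; omega) H.n278
    · exact absurd (by clear * - h01 h02; omega) H.d12
    · rcases H.e03 with h03 | h03 | h03 | h03 | h03 | h03 | h03
      · exact sub83 H h01 h02 h03
      · exact sub84 H h01 h02 h03
      · exact sub85 H h01 h02 h03
      · exact sub86 H h01 h02 h03
      · exact sub87 H h01 h02 h03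
      · exact absurd (by clear * - h01 h03; omega) H.d13
      · exact absurd (by clear * - h02 h03; omega) H.d23
  · rcases H.e02 with h02 | h02 | h02 | h02 | h02 | h02 | h02
    · rcases H.e13 with h13 | h13 | h13 | h13 | h13 | h13 | h13
      · exfalso; have p2 := H.p2; have p3 := H.p3; clear * - h02 h13 p2 p3; omega
      · exact absurd (by clear * - h01 h02 h13; omega) H.n381
      · exact sub88 H h01 h02 h13
      · exact sub89 H h01 h02 h13
      · exact sub90 H h01 h02 h13
      · exact sub91 H h01 h02 h13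
      · exact absurd (by clear * - h01 h13; omega) H.d03
    · rcases H.e13 with h13 | h13 | h13 | h13 | h13 | h13 | h13
      · exact absurd (by clear * - h01 h02 h13; omega) H.n280
      · exact absurd (by clear * - h01 h02 h13; omega) H.n080
      · exact absurd (by clear * - h01 h02 h13; omega) H.n284
      · exact absurd (by clear * - h01 h02 h13; omega) H.n285
      · exact absurd (by clear * - h01 h02 h13; omega) H.n286
      · exact absurd (by clear * - h01 h02 h13; omega) H.n287
      · exact absurd (by clear * - h01 h13; omega) H.d03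
    · rcases H.e14 with h14 | h14 | h14 | h14 | h14 | h14 | h14
      · exact absurd (by clear * - h01 h02 h14; omega) H.n280
      · exact absurd (by clear * - h01 h02 h14; omega) H.n080
      · exact absurd (by clear * - h01 h02 h14; omega) H.n283
      · exact absurd (by clear * - h01 h02 h14; omega) H.n285
      · exact absurd (by clear * - h01 h02 h14; omega) H.n286
      · exact absurd (by clear * - h01 h02 h14; omega) H.n287
      · exact absurd (by clear * - h01 h14; omega) H.d04
    · rcases H.e03 with h03 | h03 | h03 | h03 | h03 | h03 | h03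
      · exact sub92 H h01 h02 h03
      · exact sub93 H h01 h02 h03
      · exact sub94 H h01 h02 h03
      · exact absurd (by clear * - h02 h03; omega) H.d23
      · exact sub95 H h01 h02 h03
      · exact sub96 H h01 h02 h03
      · exact absurd (by clear * - h01 h03; omega) H.d13
    · rcases H.e16 with h16 | h16 | h16 | h16 | h16 | h16 | h16
      · exact absurd (by clear * - h01 h02 h16; omega) H.n280
      · exact absurd (by clear * - h01 h02 h16; omega) H.n080
      · exact absurd (by clear * - h01 h02 h16; omega) H.n283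
      · exact absurd (by clear * - h01 h02 h16; omega) H.n284
      · exact absurd (by clear * - h01 h02 h16; omega) H.n285
      · exact absurd (by clear * - h01 h02 h16; omega) H.n287
      · exact absurd (by clear * - h01 h16; omega) H.d06
    · rcases H.e03 with h03 | h03 | h03 | h03 | h03 | h03 | h03
      · exact sub97 H h01 h02 h03
      · exact sub98 H h01 h02 h03
      · exact sub99 H h01 h02 h03
      · exact sub100 H h01 h02 h03
      · exact sub101 H h01 h02 h03
      · exact absurd (by clear * - h02 h03; omega) H.d23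
      · exact absurd (by clear * - h01 h03; omega) H.d13
    · exact absurd (by clear * - h01 h02; omega) H.d12

end Pool.Agent.H59.SumGraph
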